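import Pool.Agent.H93.CC.Prod

/-!
# The bounding number of a product of regular cardinals is at least `μ⁺`
-/

set_option autoImplicit false

open Cardinal Ordinal Order Set Filter

namespace Pool.Agent.H93.CC

theorem prod_bdd {μ : Cardinal.{0}} (hμ : ℵ₀ ≤ μ) (hcof : μ.ord.cof = ℵ₀) (lam : ℕ → Cardinal.{0})
    (hreg : ∀ n, (lam n).IsRegular) (hlim : ∀ c < μ, ∀ᶠ n in atTop, c < lam n) {ι : Type} (hι : #ι ≤ μ)
    (F : ι → ∀ n, (lam n).ord.ToType) : ∃ g : ∀ n, (lam n).ord.ToType, ∀ i, ∀ᶠ n in atTop, F i n ≤ g n := by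
  classical
  obtain ⟨Kn, -, hKn, hKU⟩ := exists_filtration hμ hcof
  have hK : #μ.ord.ToType = μ := Cardinal.mk_ord_toType μ
  have he : Nonempty (ι ↪ μ.ord.ToType) := by
    have : #ι ≤ #μ.ord.ToType := by rw [hK]; exact hι
    exact this
  let L : ℕ → Set μ.ord.ToType := fun n => {x | ∃ j, j ≤ n ∧ x ∈ Kn j ∧ #(Kn j) < lam n}
  have hL : ∀ n, #(L n) < lam n := fun n => union_small (hreg n).aleph0_le Kn n
  have hLU : ∀ x : μ.ord.ToType, ∀ᶠ n in atTop, x ∈ L n := by
    intro x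
    obtain ⟨j, hj⟩ := hKU x
    filter_upwards [hlim _ (hKn j), eventually_ge_atTop j] with n h1 h2
    exact ⟨j, h2, hj, h1⟩
  have hub : ∀ n : ℕ, ∃ b : (lam n).ord.ToType, ∀ i, he.some i ∈ L n → F i n < b := by
    intro n
    by_contra! hb
    let s : Set (lam n).ord.ToType := {y | ∃ i, he.some i ∈ L n ∧ y = F i n}
    have h1 : IsCofinal s := by
      intro b
      obtain ⟨i, hi, hle⟩ := hb b
      exact ⟨F i n, ⟨i, hi, rfl⟩, hle⟩
    have h2 := Order.cof_le h1
    rw [Ordinal.cof_toType, (hreg n).cof_ord] at h2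
    let g : s → L n := fun y => ⟨he.some y.2.choose, y.2.choose_spec.1⟩
    have hg : Function.Injective g := by
      intro x y hxy
      have h3 : x.2.choose = y.2.choose := he.some.injective (congrArg Subtype.val hxy)
      apply Subtype.ext
      rw [x.2.choose_spec.2, y.2.choose_spec.2, h3]
    exact absurd ((Cardinal.mk_le_of_injective hg).trans_lt (hL n)) (not_lt.2 h2)
  choose g hg using hub
  exact ⟨g, fun i => (hLU (he.some i)).mono fun n hn => (hg n i hn).le⟩

/-- `B` bounds the family `F` in the product of the `lam n` modulo finite sets. -/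
def IsBound {lam : ℕ → Cardinal.{0}} {ι : Type} (F : ι → ∀ n, (lam n).ord.ToType) (g : ∀ n, (lam n).ord.ToType) : Prop :=
  ∀ i, ∀ᶠ n in atTop, F i n ≤ g n

/-- The sizes of the families in the product of the `lam n` which have no bound modulo finite sets. -/
def Unbounded (lam : ℕ → Cardinal.{0}) : Set Cardinal.{0} :=
  {c | ∃ (ι : Type) (F : ι → ∀ n, (lam n).ord.ToType), #ι = c ∧ ¬ ∃ g, IsBound F g}

theorem least {μ ν : Cardinal.{0}} (hν : ℵ₀ ≤ ν) (hνμ : ν < μ) (hcof : μ.ord.cof = ℵ₀)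
    (hCh : Chang (succ μ) μ (succ ν) ν) (lam : ℕ → Cardinal.{0}) (hreg : ∀ n, (lam n).IsRegular)
    (hlt : ∀ n, lam n < μ) (hlim : ∀ c < μ, ∀ᶠ n in atTop, c < lam n) : IsLeast (Unbounded lam) (succ μ) := by
  constructor
  · obtain ⟨F, hF⟩ := prod_unbdd hν hνμ hcof hCh lam hreg hlt hlim
    refine ⟨_, F, Cardinal.mk_ord_toType _, ?_⟩
    rintro ⟨g, hg⟩
    obtain ⟨α, hα⟩ := hF g
    refine hα ?_
    filter_upwards [hg α] with n hn
    exact not_lt.2 hn
  · rintro c ⟨ι, F, rfl, hF⟩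
    by_contra h
    exact hF (prod_bdd (hν.trans hνμ.le) hcof lam hreg hlim (Order.lt_succ_iff.1 (not_le.1 h)) F)

end Pool.Agent.H93.CC
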