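import Mathlib

/-!
# Branches almost disjoint from small sets (MP_026a7e_lc)
-/

set_option autoImplicit false

open Cardinal Ordinal Order Set

namespace Pool.Agent.H93.CC

/-- the list of the first `n` values of `f` -/
def pre {K : Type} (f : ℕ → K) (n : ℕ) : List K := (List.range n).map f

theorem pre_inj {K : Type} {f g : ℕ → K} {m n k : ℕ} (h : pre f m = pre g n) (hk : k < m) : f k = g k := by
  have hl : m = n := by
    have := congrArg List.length h
    simpa [pre] using this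
  subst hl
  have h1 := congrArg (fun l => l[k]?) h
  simpa [pre, hk] using h1

theorem branch {K ι : Type} {c : Cardinal.{0}} (hc : ℵ₀ ≤ c) (N : ι → Set (List K)) (hι : #ι ≤ c)
    (hN : ∀ i, #(N i) ^ (ℵ₀ : Cardinal.{0}) ≤ c) (hK : c < #(ℕ → K)) :
    ∃ f : ℕ → K, ∀ i, {n | pre f n ∈ N i}.Finite := by
  by_contra! h
  choose i hi using h
  have h1 : ∀ f m, ∃ n, m ≤ n ∧ pre f n ∈ N (i f) := by
    intro f m
    obtain ⟨n, hn, hmn⟩ := (hi f).exists_gt m
    exact ⟨n, hmn.le, hn⟩
  choose n hn hn' using h1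
  let Φ : (ℕ → K) → Σ j : ι, (ℕ → N j) := fun f => ⟨i f, fun m => ⟨pre f (n f m), hn' f m⟩⟩
  let ψ : (Σ j : ι, (ℕ → N j)) → ℕ → List K := fun x m => (x.2 m : List K)
  have hΦ : Function.Injective Φ := by
    intro f g hfg
    funext k
    have h2 : pre f (n f (k + 1)) = pre g (n g (k + 1)) := congrFun (congrArg ψ hfg) (k + 1)
    exact pre_inj h2 (lt_of_lt_of_le (Nat.lt_succ_self k) (hn f (k + 1)))
  have h3 := Cardinal.mk_le_of_injective hΦ
  rw [Cardinal.mk_sigma] at h3
  have h4 : Cardinal.sum (fun j : ι => #(ℕ → N j)) ≤ Cardinal.sum (fun _ : ι => c) := by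
    refine Cardinal.sum_le_sum _ _ fun j => ?_
    have := hN j
    simpa using this
  have h5 : Cardinal.sum (fun _ : ι => c) ≤ c := by
    rw [Cardinal.sum_const']
    exact (mul_le_mul' hι le_rfl).trans (Cardinal.mul_eq_self hc).le
  exact absurd hK (not_lt.2 (h3.trans (h4.trans h5)))

/-- A set of cardinality of countable cofinality is an increasing union of countably many smaller subsets. -/
theorem exists_filtration {μ : Cardinal.{0}} (hμ : ℵ₀ ≤ μ) (hcof : μ.ord.cof = ℵ₀) :
    ∃ Kn : ℕ → Set μ.ord.ToType, Monotone Kn ∧ (∀ n, #(Kn n) < μ) ∧ ∀ x, ∃ n, x ∈ Kn n := by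
  obtain ⟨s, hs, hs'⟩ := Order.exists_cof_eq (μ.ord.ToType)
  rw [Ordinal.cof_toType, hcof] at hs'
  have hcount : Countable s := by
    rw [← Cardinal.mk_le_aleph0_iff]
    exact hs'.le
  have hne : Nonempty s := by
    rw [← Cardinal.mk_ne_zero_iff, hs']
    exact Cardinal.aleph0_ne_zero
  obtain ⟨g, hg⟩ := exists_surjective_nat s
  refine ⟨fun n => {x | ∃ i, i ≤ n ∧ x ≤ (g i : μ.ord.ToType)}, ?_, ?_, ?_⟩
  · rintro a b hab x ⟨i, hi, hx⟩
    exact ⟨i, hi.trans hab, hx⟩
  · intro n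
    have h1 : ∀ x : μ.ord.ToType, #(Iic x) < μ := by
      intro x
      have h2 : #(Iio x) < μ := by simpa using mk_Iio_lt x (by simp)
      have h3 : (Iic x : Set μ.ord.ToType) = insert x (Iio x) := by
        ext y
        simp [le_iff_eq_or_lt]
      rw [h3]
      exact (Cardinal.mk_insert_le).trans_lt (Cardinal.add_lt_of_lt hμ h2 (Cardinal.one_lt_aleph0.trans_le hμ))
    change #{x | ∃ i, i ≤ n ∧ x ≤ (g i : μ.ord.ToType)} < μ
    induction n with
    | zero =>
      have h4 : {x | ∃ i, i ≤ 0 ∧ x ≤ (g i : μ.ord.ToType)} = Iic (g 0 : μ.ord.ToType) := by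
        ext y
        simp
      rw [h4]
      exact h1 _
    | succ n ih =>
      have h4 : {x | ∃ i, i ≤ n + 1 ∧ x ≤ (g i : μ.ord.ToType)} =
          {x | ∃ i, i ≤ n ∧ x ≤ (g i : μ.ord.ToType)} ∪ Iic (g (n + 1) : μ.ord.ToType) := by
        ext y
        constructor
        · rintro ⟨i, hi, hy⟩
          rcases Nat.lt_or_ge n i with h | h
          · have : i = n + 1 := by omega
            subst this
            exact Or.inr hy
          · exact Or.inl ⟨i, h, hy⟩
        · rintro (⟨i, hi, hy⟩ | hy)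
          · exact ⟨i, by omega, hy⟩
          · exact ⟨n + 1, le_rfl, hy⟩
      rw [h4]
      exact (Cardinal.mk_union_le _ _).trans_lt (Cardinal.add_lt_of_lt hμ ih (h1 _))
  · intro x
    obtain ⟨b, hb, hxb⟩ := hs x
    obtain ⟨n, hn⟩ := hg ⟨b, hb⟩
    exact ⟨n, n, le_rfl, by rw [hn]; exact hxb⟩

end Pool.Agent.H93.CC
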