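import Pool.Agent.H93.CC.CovLow

/-!
# Long chains of functions with countably many values
-/

set_option autoImplicit false

open Cardinal Ordinal Order Set Filter

namespace Pool.Agent.H93.CC

/-- There is a sequence of length `κ` of functions from `ℕ` to `ℕ` which is strictly increasing modulo finite sets. -/
def HasChain (κ : Cardinal.{0}) : Prop :=
  ∃ f : κ.ord.ToType → ℕ → ℕ, ∀ i j, i < j → ∀ᶠ n in atTop, f i n < f j n

theorem bdd_of_small {κ : Cardinal.{0}} (hκ : κ.IsRegular) {ι : Type} (hι : #ι < κ) (s : ι → κ.ord.ToType) :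
    ∃ b, ∀ i, s i < b := by
  by_contra! hb
  have h1 : IsCofinal (Set.range s) := by
    intro b
    obtain ⟨i, hi⟩ := hb b
    exact ⟨s i, ⟨i, rfl⟩, hi⟩
  have h2 := Order.cof_le h1
  rw [Ordinal.cof_toType, hκ.cof_ord] at h2
  exact absurd (h2.trans Cardinal.mk_range_le) (not_le.2 hι)

theorem embed_of_card {κ : Cardinal.{0}} {I : Type} [LinearOrder I] [WellFoundedLT I] (A : Set I) (hA : κ ≤ #A) :
    ∃ a : κ.ord.ToType → I, StrictMono a ∧ ∀ i, a i ∈ A := by
  have h1 : κ.ord ≤ Ordinal.type (α := A) (· < ·) :=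
    (Cardinal.ord_le_ord.2 hA).trans (Cardinal.ord_le_type _)
  rw [← Ordinal.type_toType κ.ord] at h1
  obtain ⟨g⟩ := Ordinal.type_le_iff'.1 h1
  exact ⟨fun i => (g i : I), fun i j hij => g.map_rel_iff.2 hij, fun i => (g i).2⟩

theorem unbdd_card {κ : Cardinal.{0}} (hκ : κ.IsRegular) (A : Set κ.ord.ToType) (hA : ∀ b, ∃ a ∈ A, b ≤ a) : κ ≤ #A := by
  have h1 : IsCofinal A := fun b => by
    obtain ⟨a, ha, hab⟩ := hA b
    exact ⟨a, ha, hab⟩
  have h2 := Order.cof_le h1
  rwa [Ordinal.cof_toType, hκ.cof_ord] at h2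

theorem sum_chain (r s : ℕ → ℕ) (h1 : ∀ᶠ n in atTop, r n ≤ s n) (h2 : ∃ᶠ n in atTop, r n < s n) :
    ∀ᶠ N in atTop, ∑ n ∈ Finset.range N, r n < ∑ n ∈ Finset.range N, s n := by
  obtain ⟨n₀, hn₀⟩ := eventually_atTop.1 h1
  set C := ∑ n ∈ Finset.range n₀, r n with hC
  have key : ∀ c : ℕ, ∃ N₁, n₀ ≤ N₁ ∧ ∀ N, N₁ ≤ N →
      ∑ n ∈ Finset.range N, r n + c ≤ ∑ n ∈ Finset.range N, s n + C := by
    intro c
    induction c with
    | zero =>
      refine ⟨n₀, le_rfl, fun N hN => ?_⟩
      induction N, hN using Nat.le_induction with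
      | base => omega
      | succ N hN ih =>
        rw [Finset.sum_range_succ, Finset.sum_range_succ]
        have := hn₀ N hN
        omega
    | succ c ih =>
      obtain ⟨N₁, hN₁, hN⟩ := ih
      obtain ⟨n, hn, hrs⟩ := (frequently_atTop.1 h2) N₁
      refine ⟨n + 1, by omega, fun N hN' => ?_⟩
      induction N, hN' using Nat.le_induction with
      | base =>
        rw [Finset.sum_range_succ, Finset.sum_range_succ]
        have := hN n hn
        omega
      | succ N hN' ih' =>
        rw [Finset.sum_range_succ, Finset.sum_range_succ]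
        have := hn₀ N (by omega)
        omega
  obtain ⟨N₁, -, hN₁⟩ := key (C + 1)
  refine eventually_atTop.2 ⟨N₁, fun N hN => ?_⟩
  have := hN₁ N hN
  omega

theorem chain_of_countable {κ : Cardinal.{0}} (hκ : κ.IsRegular) {X : ℕ → Type} [∀ n, LinearOrder (X n)]
    (f : κ.ord.ToType → ∀ n, X n) (hf : ∀ i j, i < j → ∀ᶠ n in atTop, f i n < f j n) (W : ∀ n, Set (X n))
    (hW : ∀ n, (W n).Countable) (hfW : ∀ i n, f i n ∈ W n) : HasChain κ := by
  classical
  choose idx hidx using fun n => Set.countable_iff_exists_injOn.1 (hW n)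
  let e : κ.ord.ToType → ℕ → ℕ := fun i n => idx n (f i n)
  by_cases hk : ∃ k : ℕ → ℕ, ∀ b, ∃ a, b ≤ a ∧ ∃ᶠ n in atTop, e a n < k n
  · obtain ⟨k, hk⟩ := hk
    let G : Set κ.ord.ToType := {a | ∃ᶠ n in atTop, e a n < k n}
    have hG : κ ≤ #G := unbdd_card hκ G fun b => by
      obtain ⟨a, hab, ha⟩ := hk b
      exact ⟨a, ha, hab⟩
    obtain ⟨a, ha, haG⟩ := embed_of_card G hG
    let T : κ.ord.ToType → ℕ → Finset ℕ := fun i n =>
      (Finset.range (k n)).filter fun m => ∃ w, w ∈ W n ∧ idx n w = m ∧ w < f i n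
    have hT : ∀ i j n, f i n < f j n → T i n ⊆ T j n := by
      intro i j n hij m hm
      simp only [T, Finset.mem_filter] at hm ⊢
      obtain ⟨hm1, w, hw1, hw2, hw3⟩ := hm
      exact ⟨hm1, w, hw1, hw2, hw3.trans hij⟩
    have hTs : ∀ i j n, f i n < f j n → e i n < k n → (T i n).card < (T j n).card := by
      intro i j n hij hei
      apply Finset.card_lt_card
      refine ⟨hT i j n hij, fun hsub => ?_⟩
      have h1 : e i n ∈ T j n := by
        simp only [T, Finset.mem_filter, Finset.mem_range]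
        exact ⟨hei, f i n, hfW i n, rfl, hij⟩
      have h2 := hsub h1
      simp only [T, Finset.mem_filter] at h2
      obtain ⟨-, w, hw1, hw2, hw3⟩ := h2
      have h3 : w = f i n := hidx n hw1 (hfW i n) hw2
      rw [h3] at hw3
      exact lt_irrefl _ hw3
    refine ⟨fun i N => ∑ n ∈ Finset.range N, (T (a i) n).card, fun i j hij => ?_⟩
    have h1 := hf _ _ (ha hij)
    apply sum_chain
    · filter_upwards [h1] with n hn
      exact Finset.card_le_card (hT _ _ _ hn)
    · exact ((haG i).and_eventually h1).mono fun n hn => hTs _ _ _ hn.2 hn.1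
  · have hk' : ∀ k : ℕ → ℕ, ∃ b, ∀ a, b ≤ a → ∀ᶠ n in atTop, k n ≤ e a n := by
      intro k
      by_contra hcon
      apply hk
      refine ⟨k, fun b => ?_⟩
      by_contra hcon2
      apply hcon
      refine ⟨b, fun a hab => ?_⟩
      by_contra hcon3
      apply hcon2
      refine ⟨a, hab, ?_⟩
      have := Filter.not_eventually.1 hcon3
      exact this.mono fun n hn => not_le.1 hn
    choose t ht using hk'
    have hstep : ∀ (i : κ.ord.ToType) (ih : (j : κ.ord.ToType) → j < i → κ.ord.ToType),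
        ∃ b, ∀ j (h : j < i), t (fun n => e (ih j h) n + 1) ≤ b := by
      intro i ih
      have h1 : #(Iio i) < κ := by
        have := mk_Iio_lt i (by rw [Cardinal.mk_ord_toType]; exact (Ordinal.type_toType _).symm)
        rwa [Cardinal.mk_ord_toType] at this
      obtain ⟨b, hb⟩ := bdd_of_small hκ h1 (fun j : Iio i => t (fun n => e (ih j.1 j.2) n + 1))
      exact ⟨b, fun j h => (hb ⟨j, h⟩).le⟩
    let a : κ.ord.ToType → κ.ord.ToType := (wellFounded_lt (α := κ.ord.ToType)).fix (fun i ih => (hstep i ih).choose)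
    have ha : ∀ i j, j < i → t (fun n => e (a j) n + 1) ≤ a i := by
      intro i j hji
      have h1 := (hstep i (fun j _ => a j)).choose_spec j hji
      have h2 : a i = (hstep i (fun j _ => a j)).choose := WellFounded.fix_eq _ _ _
      rw [h2]
      exact h1
    refine ⟨fun i => e (a i), fun i j hij => ?_⟩
    filter_upwards [ht _ _ (ha j i hij)] with n hn
    exact hn

end Pool.Agent.H93.CC
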