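import Pool.Agent.H93.CC.Sch

/-!
# All infinite powers from the countable powers at cardinals of countable cofinality (MP_026a7e_lc)
-/

set_option autoImplicit false

open Cardinal Ordinal Order Set

namespace Pool.Agent.H93.CC

theorem pow_self {θ : Cardinal.{0}} (hθ : ℵ₀ ≤ θ) : ((2 : Cardinal.{0}) ^ θ) ^ θ = 2 ^ θ := by
  rw [← Cardinal.power_mul, Cardinal.mul_eq_self hθ]

/-- countable cofinality: all powers reduce to the countable one -/
theorem filt_pow {κ θ : Cardinal.{0}} (hκ : ℵ₀ ≤ κ) (hcof : κ.ord.cof = ℵ₀) (hpow : ∀ l < κ, l ^ θ ≤ κ) :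
    κ ^ θ ≤ κ ^ (ℵ₀ : Cardinal.{0}) := by
  classical
  obtain ⟨Kn, -, hKn, hKU⟩ := exists_filtration hκ hcof
  let X := κ.ord.ToType
  have hX : #X = κ := Cardinal.mk_ord_toType κ
  let Θ := θ.ord.ToType
  have hΘ : #Θ = θ := Cardinal.mk_ord_toType θ
  have he : ∀ n, Nonempty ((Θ → Option (Kn n)) ↪ X) := by
    intro n
    have h1 : #(Θ → Option (Kn n)) = #(Option (Kn n)) ^ #Θ := by simp
    have h2 : #(Option (Kn n)) < κ := by
      rw [Cardinal.mk_option]
      exact Cardinal.add_lt_of_lt hκ (hKn n) (Cardinal.one_lt_aleph0.trans_le hκ)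
    have h3 : #(Θ → Option (Kn n)) ≤ #X := by
      rw [h1, hΘ, hX]
      exact hpow _ h2
    exact h3
  let Φ : (Θ → X) → ℕ → X := fun F n => (he n).some fun ξ => if h : F ξ ∈ Kn n then some ⟨F ξ, h⟩ else none
  have hΦ : Function.Injective Φ := by
    intro F G h
    funext ξ
    obtain ⟨n, hn⟩ := hKU (F ξ)
    have h1 := (he n).some.injective (congrFun h n)
    have h2 := congrFun h1 ξ
    simp only [dif_pos hn] at h2
    by_cases h3 : G ξ ∈ Kn n
    · rw [dif_pos h3] at h2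
      exact congrArg Subtype.val (Option.some.inj h2)
    · rw [dif_neg h3] at h2
      exact absurd h2 (by simp)
  have h4 := Cardinal.mk_le_of_injective hΦ
  have h5 : #(Θ → X) = #X ^ #Θ := by simp
  have h6 : #(ℕ → X) = #X ^ (ℵ₀ : Cardinal.{0}) := by simp
  rwa [h5, h6, hX, hΘ] at h4

/-- cofinality above the exponent: all functions are bounded -/
theorem bdd_pow {κ θ m : Cardinal.{0}} (hκ : ℵ₀ ≤ κ) (hcof : θ < κ.ord.cof) (hpow : ∀ l < κ, l ^ θ ≤ m) (hκm : κ ≤ m) :
    κ ^ θ ≤ m := by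
  classical
  let X := κ.ord.ToType
  have hX : #X = κ := Cardinal.mk_ord_toType κ
  let Θ := θ.ord.ToType
  have hΘ : #Θ = θ := Cardinal.mk_ord_toType θ
  have hb : ∀ F : Θ → X, ∃ x, ∀ ξ, F ξ ≤ x := by
    intro F
    by_contra! h
    have h1 : IsCofinal (Set.range F) := fun a => by
      obtain ⟨ξ, hξ⟩ := h a
      exact ⟨F ξ, ⟨ξ, rfl⟩, hξ.le⟩
    have h2 := (Order.cof_le h1).trans Cardinal.mk_range_le
    rw [hΘ, Ordinal.cof_toType] at h2
    exact absurd hcof (not_lt.2 h2)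
  choose b hb using hb
  let Φ : (Θ → X) → Σ x : X, (Θ → Iic x) := fun F => ⟨b F, fun ξ => ⟨F ξ, hb F ξ⟩⟩
  let ψ : (Σ x : X, (Θ → Iic x)) → Θ → X := fun u ξ => (u.2 ξ : X)
  have hΦ : Function.Injective Φ := by
    intro F G h
    exact congrArg ψ h
  have h4 := Cardinal.mk_le_of_injective hΦ
  have h5 : #(Θ → X) = #X ^ #Θ := by simp
  rw [h5, hX, hΘ, Cardinal.mk_sigma] at h4
  refine h4.trans ?_
  refine (Cardinal.sum_le_sum _ (fun _ => m) fun x => ?_).trans ?_
  · have h6 : #(Θ → Iic x) = #(Iic x) ^ #Θ := by simp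
    rw [h6, hΘ]
    exact hpow _ (mk_Iic_lt' hκ x)
  · rw [Cardinal.sum_const', hX]
    exact (mul_le_mul' hκm le_rfl).trans (Cardinal.mul_eq_self (hκ.trans hκm)).le

theorem all_pow (h : ∀ μ : Cardinal.{0}, ℵ₀ < μ → μ.ord.cof = ℵ₀ → (∀ l < μ, l ^ (ℵ₀ : Cardinal.{0}) ≤ succ μ) →
    μ ^ (ℵ₀ : Cardinal.{0}) ≤ succ μ) (κ : Cardinal.{0}) :
    ℵ₀ ≤ κ → ∀ θ : Cardinal.{0}, ℵ₀ ≤ θ → κ ^ θ ≤ max (2 ^ θ) (if κ.ord.cof ≤ θ then succ κ else κ) := by
  induction κ using WellFoundedLT.induction with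
  | ind κ ih =>
    intro hκ θ hθ
    by_cases h1 : κ ≤ 2 ^ θ
    · refine le_max_of_le_left ?_
      exact (Cardinal.power_le_power_right h1).trans (pow_self hθ).le
    rw [not_le] at h1
    have hlow' : ∀ l < κ, 2 ^ θ ≤ l → l ^ θ ≤ succ l := by
      intro l hl h2
      have h3 := ih l hl ((hθ.trans (Cardinal.cantor θ).le).trans h2) θ hθ
      refine h3.trans (max_le (h2.trans (le_succ l)) ?_)
      split_ifs
      · exact le_rfl
      · exact le_succ l
    have hlow : ∀ l < κ, l ^ θ ≤ κ := by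
      intro l hl
      rcases le_total l (2 ^ θ) with h2 | h2
      · exact ((Cardinal.power_le_power_right h2).trans (pow_self hθ).le).trans h1.le
      · exact (hlow' l hl h2).trans (Order.succ_le_of_lt hl)
    refine le_max_of_le_right ?_
    rcases lt_or_ge θ κ.ord.cof with h2 | h2
    · rw [if_neg (not_le.2 h2)]
      exact bdd_pow hκ h2 hlow le_rfl
    · rw [if_pos h2]
      have hcofω : ℵ₀ ≤ κ.ord.cof := Ordinal.aleph0_le_cof_iff.2 (Ordinal.one_lt_cof_iff.2 (Cardinal.isSuccLimit_ord hκ))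
      rcases eq_or_lt_of_le hcofω with h3 | h3
      · refine (filt_pow hκ h3.symm hlow).trans ?_
        have hω : ℵ₀ < κ := hθ.trans_lt ((Cardinal.cantor θ).trans h1)
        refine h κ hω h3.symm fun l hl => ?_
        rcases eq_or_ne l 0 with h4 | h4
        · rw [h4, Cardinal.zero_power Cardinal.aleph0_ne_zero]
          exact zero_le
        · exact ((Cardinal.power_le_power_left h4 hθ).trans (hlow l hl)).trans (le_succ κ)
      · exact step_unc h3 h2 h1 hlow hlow'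

end Pool.Agent.H93.CC
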