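import Pool.Agent.H93.CC.Defs

/-!
# Chang's Conjecture for countably many unary functions; transitivity
-/

set_option autoImplicit false

open Cardinal Order Set
open FirstOrder.Language.Structure (RelMap funMap)

namespace Pool.Agent.H93.CC

/-- function symbols: countably many unary ones -/
inductive UFun : ℕ → Type
  | f (n : ℕ) : UFun 1

/-- relation symbols: one unary one -/
inductive URel : ℕ → Type
  | p : URel 1

/-- the language with these symbols -/
def LU : FirstOrder.Language.{0, 0} := ⟨UFun, URel⟩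

theorem LU_card : LU.card ≤ ℵ₀ := by
  have h1 : Countable ((Σ l, LU.Functions l) ⊕ (Σ l, LU.Relations l)) := by
    let g : ((Σ l, LU.Functions l) ⊕ (Σ l, LU.Relations l)) → Option ℕ := fun x =>
      match x with
      | Sum.inl ⟨_, UFun.f n⟩ => some n
      | Sum.inr ⟨_, URel.p⟩ => none
    have hg : Function.Injective g := by
      rintro (⟨_, ⟨n⟩⟩ | ⟨_, ⟨⟩⟩) (⟨_, ⟨m⟩⟩ | ⟨_, ⟨⟩⟩) h
      · have : n = m := by simpa [g] using h
        rw [this]
      · simp [g] at h
      · simp [g] at h
      · rfl
    exact hg.countable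
  exact Cardinal.mk_le_aleph0_iff.2 h1

/-- the structure given by unary functions and a set -/
def LUstr {M : Type} (F : ℕ → M → M) (P : Set M) : LU.Structure M where
  funMap := fun {k} s =>
    match k, s with
    | _, UFun.f n => fun x => F n (x 0)
  RelMap := fun {k} s =>
    match k, s with
    | _, URel.p => fun x => x 0 ∈ P

theorem chang_fun {κ l μ ν : Cardinal.{0}} (h : Chang κ l μ ν) {M : Type} (hM : #M = κ) (P : Set M) (hP : #P = l)
    (F : ℕ → M → M) : ∃ B : Set M, #B = μ ∧ #↥(B ∩ P) = ν ∧ ∀ n, ∀ x ∈ B, F n x ∈ B := by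
  letI := LUstr F P
  have hrel : ∀ x : M, RelMap (L := LU) (M := M) (URel.p : LU.Relations 1) ![x] ↔ x ∈ P := fun x => Iff.rfl
  have hset : {x : M | RelMap (L := LU) (M := M) (URel.p : LU.Relations 1) ![x]} = P := by
    ext x
    exact hrel x
  obtain ⟨B, hB1, hB2⟩ := h LU URel.p M LU_card hM (by rw [hset]; exact hP)
  refine ⟨(B : Set M), hB1, ?_, ?_⟩
  · rw [← hB2]
    have : ((B : Set M) ∩ P) = {x : M | x ∈ B ∧ RelMap (L := LU) (M := M) (URel.p : LU.Relations 1) ![x]} := by
      ext x
      rfl
    rw [this]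
  · intro n x hx
    have h3 := B.toSubstructure.fun_mem (UFun.f n : LU.Functions 1) ![x] (by
      intro i
      fin_cases i
      exact hx)
    exact h3

end Pool.Agent.H93.CC
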