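import Pool.Agent.H93.CC.Defs

/-!
# Transitivity of Chang's Conjecture (MP_026a7e_lc)
-/

set_option autoImplicit false

open Cardinal Order Set
open FirstOrder.Language.Structure (RelMap)
open FirstOrder

namespace Pool.Agent.H93.CC

theorem relMap_coe {L : FirstOrder.Language.{0, 0}} {M : Type} [L.Structure M] (B : L.ElementarySubstructure M)
    (p : L.Relations 1) (x : B) : RelMap p ![x] ↔ RelMap p ![(x : M)] := by
  have h : RelMap p ![x] ↔ RelMap p (fun i => ((![x] : Fin 1 → B) i : M)) := Iff.rfl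
  have h2 : (fun i => ((![x] : Fin 1 → B) i : M)) = ![(x : M)] := by
    funext i
    fin_cases i
    rfl
  rw [h, h2]

theorem chang_trans {κ l μ ν σ τ : Cardinal.{0}} (h1 : Chang κ l μ ν) (h2 : Chang μ ν σ τ) : Chang κ l σ τ := by
  intro L p M _ hL hM hp
  obtain ⟨B, hB1, hB2⟩ := h1 L p M hL hM hp
  have hpB : #{x : B | RelMap p ![x]} = ν := by
    rw [← hB2]
    refine Cardinal.mk_congr ⟨fun x => ⟨x.1.1, x.1.2, (relMap_coe B p x.1).1 x.2⟩,
      fun x => ⟨⟨x.1, x.2.1⟩, (relMap_coe B p ⟨x.1, x.2.1⟩).2 x.2.2⟩, fun _ => rfl, fun _ => rfl⟩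
  obtain ⟨C, hC1, hC2⟩ := h2 L p B hL hB1 hpB
  let f : C ↪ₑ[L] M := B.subtype.comp C.subtype
  have hfv : ∀ x : C, f x = ((x : B) : M) := fun _ => rfl
  let R : L.Substructure M := f.toEmbedding.toHom.range
  let e : C ≃[L] R := f.toEmbedding.equivRange
  have hev : ∀ x : C, ((e x : R) : M) = f x := fun _ => rfl
  have hR : R.IsElementary := by
    intro n φ x
    have h3 : ((↑) ∘ x : Fin n → M) = f ∘ (e.symm ∘ x) := by
      funext i
      have h4 := hev (e.symm (x i))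
      rw [e.apply_symm_apply] at h4
      exact h4
    rw [h3, f.map_formula]
    exact FirstOrder.Language.StrongHomClass.realize_formula e.symm φ
  refine ⟨⟨R, hR⟩, ?_, ?_⟩
  · rw [← hC1]
    exact (Cardinal.mk_congr e.toEquiv).symm
  · rw [← hC2]
    refine (Cardinal.mk_congr (Equiv.ofBijective (α := {x : B | x ∈ C ∧ RelMap p ![x]})
      (β := {x : M | x ∈ (⟨R, hR⟩ : L.ElementarySubstructure M) ∧ RelMap p ![x]})
      (fun x => ⟨(x.1 : M), ⟨⟨x.1, x.2.1⟩, rfl⟩, (relMap_coe B p x.1).1 x.2.2⟩) ⟨?_, ?_⟩)).symm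
    · intro x y hxy
      apply Subtype.ext
      apply Subtype.ext
      exact congrArg (fun z => (z.1 : M)) hxy
    · rintro ⟨x, ⟨y, rfl⟩, hx⟩
      exact ⟨⟨(y : B), y.2, (relMap_coe B p y.1).2 hx⟩, rfl⟩

end Pool.Agent.H93.CC
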