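import Pool.Agent.H93.CC.Core
import Pool.Agent.H93.CC.Glob
import Pool.Agent.H93.CC.Prod
import Pool.Agent.H93.CC.Trans

/-!
# Consequences of the global Chang's Conjecture
-/

set_option autoImplicit false

open Cardinal Ordinal Order Set

namespace Pool.Agent.H93.CC

theorem strong_pow {κ : Cardinal.{0}} (hκ : κ.IsStrongLimit) : 2 ^ κ ≤ κ ^ κ.ord.cof := by
  classical
  have hω : ℵ₀ ≤ κ := hκ.aleph0_le
  let X := κ.ord.ToType
  have hX : #X = κ := Cardinal.mk_ord_toType κ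
  obtain ⟨C, hC, hC'⟩ := Order.exists_cof_eq X
  have he : ∀ c : X, Nonempty (Set (Iic c) ↪ X) := by
    intro c
    have h1 : #(Set (Iic c)) ≤ #X := by
      rw [Cardinal.mk_set, hX]
      exact (hκ.isStrongPrelimit (mk_Iic_lt' hω c)).le
    exact h1
  let Φ : Set X → C → X := fun A c => (he c).some {y | (y : X) ∈ A}
  have hΦ : Function.Injective Φ := by
    intro A A' h
    ext x
    obtain ⟨c, hc, hxc⟩ := hC x
    have h1 := (he c).some.injective (congrFun h ⟨c, hc⟩)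
    have h2 : (⟨x, hxc⟩ : Iic c) ∈ {y : Iic c | (y : X) ∈ A} ↔ (⟨x, hxc⟩ : Iic c) ∈ {y : Iic c | (y : X) ∈ A'} := by
      rw [h1]
    exact h2
  have h3 := Cardinal.mk_le_of_injective hΦ
  have h4 : #(C → X) = #X ^ #C := by simp
  rwa [Cardinal.mk_set, h4, hC', hX, Ordinal.cof_toType] at h3

theorem one_each (h : GlobalChang) : OneEach := fun μ hμ hcof =>
  ⟨ℵ₀, le_rfl, hμ, h ℵ₀ μ le_rfl hμ isRegular_aleph0.cof_ord hcof⟩

theorem one_count {μ ν : Cardinal.{0}} (hν : ℵ₀ ≤ ν) (hνμ : ν < μ) (hcof : μ.ord.cof = ℵ₀)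
    (hCh : Chang (succ μ) μ (succ ν) ν) (hl : ∀ l < μ, l ^ (ℵ₀ : Cardinal.{0}) ≤ succ μ) :
    μ ^ (ℵ₀ : Cardinal.{0}) = succ μ := by
  refine le_antisymm (core hν hνμ hcof hCh hl) (Order.succ_le_of_lt ?_)
  have h2 : μ < μ ^ μ.ord.cof := Cardinal.lt_power_cof_ord (hν.trans hνμ.le)
  rwa [hcof] at h2

theorem global_count (h : OneEach) (μ : Cardinal.{0}) (hμ : ℵ₀ < μ) (hcof : μ.ord.cof = ℵ₀)
    (hl : ∀ l < μ, l ^ (ℵ₀ : Cardinal.{0}) ≤ succ μ) : μ ^ (ℵ₀ : Cardinal.{0}) ≤ succ μ := by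
  obtain ⟨ν, hν, hνμ, hCh⟩ := h μ hμ hcof
  exact core hν hνμ hcof hCh hl

theorem pow_exact (h : OneEach) {κ θ : Cardinal.{0}} (hκ : ℵ₀ ≤ κ) (hθ : ℵ₀ ≤ θ) :
    κ ^ θ = max (2 ^ θ) (if κ.ord.cof ≤ θ then succ κ else κ) := by
  refine le_antisymm (all_pow (global_count h) κ hκ θ hθ) (max_le ?_ ?_)
  · exact Cardinal.power_le_power_right ((Cardinal.natCast_lt_aleph0 (n := 2)).le.trans hκ)
  · split_ifs with h1
    · have h2 : κ < κ ^ κ.ord.cof := Cardinal.lt_power_cof_ord hκ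
      refine Order.succ_le_of_lt (h2.trans_le ?_)
      exact Cardinal.power_le_power_left (Cardinal.aleph0_pos.trans_le hκ).ne' h1
    · exact Cardinal.self_le_power κ (Cardinal.one_le_aleph0.trans hθ)

theorem sch (h : OneEach) {κ : Cardinal.{0}} (hκ : κ.IsStrongLimit) (hs : κ.ord.cof < κ) : 2 ^ κ = succ κ := by
  have hω : ℵ₀ ≤ κ := hκ.aleph0_le
  have hc : ℵ₀ ≤ κ.ord.cof := Ordinal.aleph0_le_cof_iff.2 (Ordinal.one_lt_cof_iff.2 (Cardinal.isSuccLimit_ord hω))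
  refine le_antisymm ?_ (Order.succ_le_of_lt (Cardinal.cantor κ))
  refine (strong_pow hκ).trans ?_
  rw [pow_exact h hω hc, if_pos le_rfl]
  exact max_le ((hκ.isStrongPrelimit hs).le.trans (le_succ κ)) le_rfl

theorem reduce : GlobalChang ↔ ∀ ν μ : Cardinal.{0}, ℵ₀ ≤ ν → ν < μ → ν.ord.cof = ℵ₀ → μ.ord.cof = ℵ₀ →
    ∃ σ, ν ≤ σ ∧ σ < μ ∧ σ.ord.cof = ℵ₀ ∧ Chang (succ μ) μ (succ σ) σ := by
  constructor
  · intro h ν μ hν hνμ h1 h2
    exact ⟨ν, le_rfl, hνμ, h1, h ν μ hν hνμ h1 h2⟩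
  · intro h ν μ hν hνμ h1 h2
    induction μ using WellFoundedLT.induction with
    | ind μ ih =>
      obtain ⟨σ, hσ1, hσ2, hσ3, hσ4⟩ := h ν μ hν hνμ h1 h2
      rcases eq_or_lt_of_le hσ1 with h3 | h3
      · rw [h3]
        exact hσ4
      · exact chang_trans hσ4 (ih σ hσ2 h3 hσ3)

end Pool.Agent.H93.CC
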