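import Pool.Agent.H93.CC.Tcf
import Pool.Agent.H93.CC.Chain
import Pool.Agent.H93.CC.Cor

/-!
# Targets of uncountable cofinality need long chains in the functions from `ℕ` to `ℕ`
-/

set_option autoImplicit false

open Cardinal Ordinal Order Set Filter

namespace Pool.Agent.H93.CC

/-- There are at most `ν` countable subsets of `ν` such that every countable subset of `ν` is contained in one of them. -/
def SmallCof (ν : Cardinal.{0}) : Prop :=
  ∃ 𝒲 : Set (Set ν.ord.ToType), #𝒲 ≤ ν ∧ (∀ W ∈ 𝒲, W.Countable) ∧ ∀ x : Set ν.ord.ToType, x.Countable → ∃ W ∈ 𝒲, x ⊆ W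

theorem succ_lt_of_cof {μ c : Cardinal.{0}} (hμ : ℵ₀ < μ) (hcof : μ.ord.cof = ℵ₀) (hc : c < μ) : succ c < μ := by
  by_contra h
  have h1 : succ c = μ := le_antisymm (Order.succ_le_of_lt hc) (not_lt.1 h)
  by_cases hc0 : ℵ₀ ≤ c
  · have h2 : (succ c).ord.cof = succ c := (isRegular_succ hc0).cof_ord
    rw [h1, hcof] at h2
    exact absurd h2 hμ.ne
  · have h2 : succ c ≤ ℵ₀ := Order.succ_le_of_lt (not_le.1 hc0)
    rw [h1] at h2
    exact absurd hμ (not_lt.2 h2)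

theorem exists_lam {μ : Cardinal.{0}} (hμ' : ℵ₀ < μ) (hcof : μ.ord.cof = ℵ₀) : ∃ lam : ℕ → Cardinal.{0},
    (∀ n, (lam n).IsRegular) ∧ (∀ n, lam n < μ) ∧ ∀ c < μ, ∀ᶠ n in atTop, c < lam n := by
  have hμ : ℵ₀ ≤ μ := hμ'.le
  obtain ⟨Kn, hmono, hKn, hKU⟩ := exists_filtration hμ hcof
  have hK : #μ.ord.ToType = μ := Cardinal.mk_ord_toType μ
  refine ⟨fun n => succ (max ℵ₀ #(Kn n)), fun n => isRegular_succ (le_max_left _ _),
    fun n => succ_lt_of_cof hμ' hcof (max_lt hμ' (hKn n)), fun c hc => ?_⟩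
  have hm : ∃ m, c ≤ #(Kn m) := by
    by_contra! h
    have h1 : (Set.univ : Set μ.ord.ToType) ⊆ ⋃ m, Kn m := fun y _ => Set.mem_iUnion.2 (hKU y)
    have h2 : #(Set.univ : Set μ.ord.ToType) ≤ ℵ₀ * c := by
      refine (Cardinal.mk_le_mk_of_subset h1).trans ((Cardinal.mk_iUnion_le_sum_mk).trans ?_)
      refine (Cardinal.sum_le_sum _ (fun _ : ℕ => c) fun m => (h m).le).trans ?_
      rw [Cardinal.sum_const', Cardinal.mk_nat]
    rw [Cardinal.mk_univ, hK] at h2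
    exact absurd (Cardinal.mul_lt_of_lt hμ hμ' hc) (not_lt.2 h2)
  obtain ⟨m, hm⟩ := hm
  filter_upwards [eventually_ge_atTop m] with n hn
  exact Order.lt_succ_of_le ((hm.trans (Cardinal.mk_le_mk_of_subset (hmono hn))).trans (le_max_right _ _))

theorem chain_local {μ ν : Cardinal.{0}} (hν : ℵ₀ ≤ ν) (hνμ : ν < μ) (hcof : μ.ord.cof = ℵ₀)
    (hCh : Chang (succ μ) μ (succ ν) ν) (hs : SmallCof ν) : HasChain (succ ν) := by
  classical
  have hμ' : ℵ₀ < μ := hν.trans_lt hνμ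
  have hμ : ℵ₀ ≤ μ := hμ'.le
  obtain ⟨lam, hreg, hlt, hlim⟩ := exists_lam hμ' hcof
  let I := (succ μ).ord.ToType
  have hI : #I = succ μ := Cardinal.mk_ord_toType (succ μ)
  have hsm : ∀ β : I, #(Iio β) ≤ μ := by
    intro β
    have h1 : #(Iio β) < #I := mk_Iio_lt β (by rw [hI]; exact (Ordinal.type_toType _).symm)
    rw [hI] at h1
    exact Order.lt_succ_iff.1 h1
  have hstep : ∀ (α : I) (ih : (γ : I) → γ < α → ∀ n, (lam n).ord.ToType), ∃ g : ∀ n, (lam n).ord.ToType,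
      ∀ γ (h : γ < α), ∀ᶠ n in atTop, ih γ h n < g n := by
    intro α ih
    obtain ⟨g, hg⟩ := prod_bddF hμ hcof lam hreg hlt atTop hlim (hsm α) (fun γ : Iio α => ih γ.1 γ.2)
    exact ⟨g, fun γ h => hg ⟨γ, h⟩⟩
  let f : I → ∀ n, (lam n).ord.ToType := (wellFounded_lt (α := I)).fix (fun α ih => (hstep α ih).choose)
  have hf : ∀ γ α, γ < α → ∀ᶠ n in atTop, f γ n < f α n := by
    intro γ α h
    have h1 := (hstep α (fun γ _ => f γ)).choose_spec γ h
    have h2 : f α = (hstep α (fun γ _ => f γ)).choose := WellFounded.fix_eq _ _ _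
    rw [h2]
    exact h1
  obtain ⟨P, hP⟩ : ∃ P : Set I, #P = μ := Cardinal.le_mk_iff_exists_set.1 (by rw [hI]; exact le_succ μ)
  have hcode : Nonempty ((Σ n, (lam n).ord.ToType) ↪ P) := by
    have : #(Σ n, (lam n).ord.ToType) ≤ #P := by
      rw [Cardinal.mk_sigma, hP]
      refine (Cardinal.sum_le_sum _ (fun _ => μ) fun n => ?_).trans ?_
      · rw [Cardinal.mk_ord_toType]
        exact (hlt n).le
      · rw [Cardinal.sum_const', Cardinal.mk_nat]
        exact (mul_le_mul' hμ le_rfl).trans (Cardinal.mul_eq_self hμ).le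
    exact this
  let code := hcode.some
  let F : ℕ → I → I := fun n α => (code ⟨n, f α n⟩ : I)
  obtain ⟨Y, hY1, hY2, hY3⟩ := chang_fun hCh hI P hP F
  obtain ⟨𝒲, hW1, hW2, hW3⟩ := hs
  have hQ : Nonempty (↥(Y ∩ P) ≃ ν.ord.ToType) := Cardinal.eq.1 (by rw [hY2, Cardinal.mk_ord_toType])
  obtain ⟨q⟩ := hQ
  have hj : ∀ α : Y, ∃ W : 𝒲, ∀ n, q ⟨F n α, hY3 n α α.2, (code ⟨n, f α n⟩).2⟩ ∈ (W : Set ν.ord.ToType) := by
    intro α
    obtain ⟨W, hW, hsub⟩ := hW3 (Set.range fun n => q ⟨F n α, hY3 n α α.2, (code ⟨n, f α n⟩).2⟩)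
      (Set.countable_range _)
    exact ⟨⟨W, hW⟩, fun n => hsub ⟨n, rfl⟩⟩
  choose j hj using hj
  have hbig : ∃ W : 𝒲, ν < #{α : Y | j α = W} := by
    by_contra! h
    have h1 : (Set.univ : Set Y) ⊆ ⋃ W, {α : Y | j α = W} := by
      intro y _
      exact Set.mem_iUnion.2 ⟨j y, rfl⟩
    have h2 : #Y ≤ ν := by
      rw [← Cardinal.mk_univ]
      refine (Cardinal.mk_le_mk_of_subset h1).trans ((Cardinal.mk_iUnion_le_sum_mk).trans ?_)
      refine (Cardinal.sum_le_sum _ (fun _ => ν) h).trans ?_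
      rw [Cardinal.sum_const']
      exact (mul_le_mul' hW1 le_rfl).trans (Cardinal.mul_eq_self hν).le
    rw [hY1] at h2
    exact absurd (Order.lt_succ ν) (not_lt.2 h2)
  obtain ⟨W, hW⟩ := hbig
  let A : Set I := Subtype.val '' {α : Y | j α = W}
  have hA : succ ν ≤ #A := by
    have h1 : #A = #{α : Y | j α = W} := Cardinal.mk_image_eq Subtype.val_injective
    rw [h1]
    exact Order.succ_le_of_lt hW
  obtain ⟨a, ha, haA⟩ := embed_of_card A hA
  refine chain_of_countable (isRegular_succ hν) (X := fun n => (lam n).ord.ToType) (fun i => f (a i))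
    (fun i j hij => hf _ _ (ha hij))
    (fun n => {y | ∃ h : (code ⟨n, y⟩ : I) ∈ Y, q ⟨code ⟨n, y⟩, h, (code ⟨n, y⟩).2⟩ ∈ (W : Set ν.ord.ToType)})
    (fun n => ?_) (fun i n => ?_)
  · have : Countable (W : Set ν.ord.ToType) := (hW2 W W.2).to_subtype
    let g : {y | ∃ h : (code ⟨n, y⟩ : I) ∈ Y, q ⟨code ⟨n, y⟩, h, (code ⟨n, y⟩).2⟩ ∈ (W : Set ν.ord.ToType)} →
        (W : Set ν.ord.ToType) := fun y => ⟨q ⟨code ⟨n, y⟩, y.2.choose, (code ⟨n, y⟩).2⟩, y.2.choose_spec⟩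
    have hg : Function.Injective g := by
      intro x y hxy
      have h1 := q.injective (congrArg Subtype.val hxy)
      have h2 : (code ⟨n, x⟩ : I) = (code ⟨n, y⟩ : I) := congrArg (fun z : ↥(Y ∩ P) => (z : I)) h1
      have h3 := code.injective (Subtype.ext h2)
      exact Subtype.ext (eq_of_heq (Sigma.mk.inj h3).2)
    exact hg.countable
  · obtain ⟨α, hα, hαi⟩ := haA i
    have h1 := hj α n
    rw [show j α = W from hα] at h1
    rw [← hαi]
    exact ⟨hY3 n α α.2, h1⟩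

theorem small_of_each (h : OneEach) {ν : Cardinal.{0}} (hν : ℵ₀ < ν) (hcof : ν.ord.cof ≠ ℵ₀) : SmallCof ν := by
  obtain ⟨ι, W, h1, h2, h3⟩ := (glob_exact h hν).1
  rw [if_neg hcof] at h1
  refine ⟨Set.range W, ?_, ?_, fun x hx => ?_⟩
  · have h4 : #(Set.range W) ≤ #ι := Cardinal.mk_range_le
    exact h4.trans h1.le
  · rintro _ ⟨i, rfl⟩
    exact h2 i
  · obtain ⟨i, hi⟩ := h3 x hx
    exact ⟨W i, ⟨i, rfl⟩, hi⟩

theorem chain_iff (h : GlobalChang) {μ ν : Cardinal.{0}} (hν : ℵ₀ ≤ ν) (hνμ : ν < μ) (hcof : μ.ord.cof = ℵ₀)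
    (hno : ¬ HasChain (succ ν)) : Chang (succ μ) μ (succ ν) ν ↔ ν.ord.cof = ℵ₀ := by
  constructor
  · intro hCh
    by_contra hc
    have hν' : ℵ₀ < ν := by
      refine lt_of_le_of_ne hν fun h1 => hc ?_
      rw [← h1, Cardinal.ord_aleph0, Ordinal.cof_omega0]
    exact hno (chain_local hν hνμ hcof hCh (small_of_each (one_each h) hν' hc))
  · intro hc
    exact h ν μ hν hνμ hc hcof

end Pool.Agent.H93.CC
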