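import Pool.Agent.H93.CC.Branch
import Pool.Agent.H93.CC.Fun

/-!
# One instance of Chang's Conjecture bounds `μ ^ ℵ₀`
-/

set_option autoImplicit false

open Cardinal Ordinal Order Set

namespace Pool.Agent.H93.CC

theorem core {μ ν : Cardinal.{0}} (hν : ℵ₀ ≤ ν) (hνμ : ν < μ) (hcof : μ.ord.cof = ℵ₀)
    (hCh : Chang (succ μ) μ (succ ν) ν) (hl : ∀ l < μ, l ^ (ℵ₀ : Cardinal.{0}) ≤ succ μ) :
    μ ^ (ℵ₀ : Cardinal.{0}) ≤ succ μ := by
  classical
  by_contra! hbig
  have hμ : ℵ₀ ≤ μ := hν.trans hνμ.le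
  have hμ' : ℵ₀ < μ := hν.trans_lt hνμ
  have hsμ : ℵ₀ ≤ succ μ := hμ.trans (le_succ μ)
  obtain ⟨Kn, hmono, hKn, hKU⟩ := exists_filtration hμ hcof
  -- the index set
  let K := μ.ord.ToType
  let I := (succ μ).ord.ToType
  have hK : #K = μ := Cardinal.mk_ord_toType μ
  have hI : #I = succ μ := Cardinal.mk_ord_toType (succ μ)
  have e : ∀ β : I, Nonempty (Iio β ↪ K) := by
    intro β
    have h1 : #(Iio β) < #I := mk_Iio_lt β (by rw [hI]; exact (Ordinal.type_toType _).symm)
    rw [hI] at h1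
    have h2 : #(Iio β) ≤ #K := by
      rw [hK]
      exact Order.lt_succ_iff.1 h1
    exact h2
  let B : I → ℕ → Set I := fun β n => {γ | ∃ h : γ < β, (e β).some ⟨γ, h⟩ ∈ Kn n}
  have hB : ∀ β n, #(B β n) < μ := by
    intro β n
    refine lt_of_le_of_lt ?_ (hKn n)
    let g : B β n → Kn n := fun γ => ⟨(e β).some ⟨γ.1, γ.2.choose⟩, γ.2.choose_spec⟩
    have hg : Function.Injective g := by
      intro x y hxy
      have h1 : (e β).some ⟨x.1, x.2.choose⟩ = (e β).some ⟨y.1, y.2.choose⟩ := congrArg Subtype.val hxy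
      have h2 := (e β).some.injective h1
      have h3 : (x.1 : I) = y.1 := congrArg (fun z : Iio β => (z : I)) h2
      exact Subtype.ext h3
    exact Cardinal.mk_le_of_injective hg
  have hBU : ∀ β γ, γ < β → ∃ n, γ ∈ B β n := by
    intro β γ h
    obtain ⟨n, hn⟩ := hKU ((e β).some ⟨γ, h⟩)
    exact ⟨n, h, hn⟩
  let NN : (α : I) → ((γ : I) → γ < α → (ℕ → K)) → I × ℕ → Set (List K) :=
    fun α ih p => {x | ∃ γ, ∃ h : γ < α, γ ∈ B p.1 p.2 ∧ ∃ m, x = pre (ih γ h) m}
  have hNN : ∀ α ih p, #(NN α ih p) < μ := by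
    intro α ih p
    let g : NN α ih p → B p.1 p.2 × ℕ := fun x =>
      (⟨x.2.choose, x.2.choose_spec.choose_spec.1⟩, x.2.choose_spec.choose_spec.2.choose)
    have hg : Function.Injective g := by
      intro x y hxy
      have hx := x.2.choose_spec.choose_spec.2.choose_spec
      have hy := y.2.choose_spec.choose_spec.2.choose_spec
      have h1 : x.2.choose = y.2.choose := congrArg (fun z => (z.1 : I)) hxy
      have h2 : x.2.choose_spec.choose_spec.2.choose = y.2.choose_spec.choose_spec.2.choose := congrArg (fun z => z.2) hxy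
      apply Subtype.ext
      rw [hx, hy, h2]
      congr 1
      have h3 : ∀ (a b : I) (ha : a < α) (hb : b < α), a = b → ih a ha = ih b hb := by
        intro a b ha hb hab
        subst hab
        rfl
      exact h3 _ _ _ _ h1
    refine lt_of_le_of_lt (Cardinal.mk_le_of_injective hg) ?_
    rw [Cardinal.mk_prod]
    simp only [Cardinal.lift_id, Cardinal.mk_nat]
    exact Cardinal.mul_lt_of_lt hμ (hB _ _) hμ'
  have hstep : ∀ α ih, ∃ f : ℕ → K, ∀ p, {n | pre f n ∈ NN α ih p}.Finite := by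
    intro α ih
    refine branch hsμ (NN α ih) ?_ (fun p => hl _ (hNN α ih p)) ?_
    · rw [Cardinal.mk_prod]
      simp only [Cardinal.lift_id, Cardinal.mk_nat, hI]
      exact (mul_le_mul' le_rfl hsμ).trans (Cardinal.mul_eq_self hsμ).le
    · have : #(ℕ → K) = μ ^ (ℵ₀ : Cardinal.{0}) := by simp [K]
      rw [this]
      exact hbig
  let f : I → ℕ → K := (wellFounded_lt (α := I)).fix (fun α ih => (hstep α ih).choose)
  have hf : ∀ α p, {n | pre (f α) n ∈ NN α (fun γ _ => f γ) p}.Finite := by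
    intro α p
    have h1 := (hstep α (fun γ _ => f γ)).choose_spec p
    have h2 : f α = (hstep α (fun γ _ => f γ)).choose := WellFounded.fix_eq _ _ _
    rw [h2]
    exact h1
  -- the predicate and the code
  obtain ⟨P, hP⟩ : ∃ P : Set I, #P = μ := Cardinal.le_mk_iff_exists_set.1 (by rw [hI]; exact le_succ μ)
  have hcode : Nonempty (List K ↪ P) := by
    have : #(List K) ≤ #P := by
      have hKinf : Infinite K := by
        rw [Cardinal.infinite_iff, hK]
        exact hμ
      rw [Cardinal.mk_list_eq_mk, hP, hK]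
    exact this
  let code := hcode.some
  let F : ℕ → I → I := fun n α => (code (pre (f α) n) : I)
  obtain ⟨Y, hY1, hY2, hY3⟩ := chang_fun hCh hI P hP F
  -- `Y` is bounded
  have hbdd : ∃ β : I, ∀ y ∈ Y, y < β := by
    by_contra! h
    have h1 : IsCofinal Y := fun a => by
      obtain ⟨y, hy, hay⟩ := h a
      exact ⟨y, hy, hay⟩
    have h2 := Order.cof_le h1
    rw [hY1] at h2
    have h3 : Order.cof I = succ μ := by
      rw [Ordinal.cof_toType]
      exact (isRegular_succ hμ).cof_ord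
    rw [h3] at h2
    exact absurd (Order.succ_le_of_lt hνμ) (not_le.2 (Order.succ_le_iff.1 h2))
  obtain ⟨β, hβ⟩ := hbdd
  have hbigpart : ∃ n, ν < #↥(Y ∩ B β n) := by
    by_contra! h
    have h1 : Y ⊆ ⋃ n, Y ∩ B β n := by
      intro y hy
      obtain ⟨n, hn⟩ := hBU β y (hβ y hy)
      exact Set.mem_iUnion.2 ⟨n, hy, hn⟩
    have h2 : #Y ≤ ν := by
      refine (Cardinal.mk_le_mk_of_subset h1).trans ((Cardinal.mk_iUnion_le_sum_mk).trans ?_)
      refine (Cardinal.sum_le_sum _ (fun _ : ℕ => ν) h).trans ?_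
      rw [Cardinal.sum_const']
      simp only [Cardinal.mk_nat]
      exact (mul_le_mul' hν le_rfl).trans (Cardinal.mul_eq_self hν).le
    rw [hY1] at h2
    exact absurd (Order.lt_succ ν) (not_lt.2 h2)
  obtain ⟨n, hn⟩ := hbigpart
  have hm : ∀ α : I, ∃ m, pre (f α) m ∉ NN α (fun γ _ => f γ) (β, n) := fun α => (hf α (β, n)).exists_notMem
  choose m hm using hm
  let g : ↥(Y ∩ B β n) → ↥(Y ∩ P) := fun α => ⟨F (m α.1) α.1, hY3 _ _ α.2.1, (code (pre (f α.1) (m α.1))).2⟩
  have hg : Function.Injective g := by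
    intro x y hxy
    have h1 : pre (f x.1) (m x.1) = pre (f y.1) (m y.1) := by
      have h2 : (code (pre (f x.1) (m x.1)) : I) = (code (pre (f y.1) (m y.1)) : I) :=
        congrArg (fun z : ↥(Y ∩ P) => (z : I)) hxy
      exact code.injective (Subtype.ext h2)
    rcases lt_trichotomy x.1 y.1 with h | h | h
    · exact absurd ⟨x.1, h, x.2.2, m x.1, h1.symm⟩ (hm y.1)
    · exact Subtype.ext h
    · exact absurd ⟨y.1, h, y.2.2, m y.1, h1⟩ (hm x.1)
  have h5 := Cardinal.mk_le_of_injective hg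
  rw [hY2] at h5
  exact absurd hn (not_lt.2 h5)

end Pool.Agent.H93.CC
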