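import Pool.Agent.H93.CC.Prod

/-!
# One instance of Chang's Conjecture: the covering number of `μ` for countable sets is `μ⁺`
-/

set_option autoImplicit false

open Cardinal Ordinal Order Set Filter

namespace Pool.Agent.H93.CC

theorem cover_main {μ ν : Cardinal.{0}} (hν : ℵ₀ ≤ ν) (hνμ : ν < μ) (hcof : μ.ord.cof = ℵ₀)
    (hCh : Chang (succ μ) μ (succ ν) ν) :
    ∃ W : (succ μ).ord.ToType → Set μ.ord.ToType, (∀ i, #(W i) < μ) ∧
      ∀ x : ℕ → μ.ord.ToType, ∃ i, ∀ k, x k ∈ W i := by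
  classical
  by_contra! hneg
  have hμ : ℵ₀ ≤ μ := hν.trans hνμ.le
  have hμ' : ℵ₀ < μ := hν.trans_lt hνμ
  obtain ⟨Kn, -, hKn, hKU⟩ := exists_filtration hμ hcof
  let K := μ.ord.ToType
  let I := (succ μ).ord.ToType
  have hK : #K = μ := Cardinal.mk_ord_toType μ
  have hI : #I = succ μ := Cardinal.mk_ord_toType (succ μ)
  have e : ∀ β : I, Nonempty (Iio β ↪ K) := by
    intro β
    have h1 : #(Iio β) < #I := mk_Iio_lt β (by rw [hI]; exact (Ordinal.type_toType _).symm)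
    rw [hI] at h1
    have h2 : #(Iio β) ≤ #K := by
      rw [hK]
      exact Order.lt_succ_iff.1 h1
    exact h2
  let B : I → ℕ → Set I := fun β n => {γ | ∃ h : γ < β, (e β).some ⟨γ, h⟩ ∈ Kn n}
  have hB : ∀ β n, #(B β n) < μ := by
    intro β n
    refine lt_of_le_of_lt ?_ (hKn n)
    let g : B β n → Kn n := fun γ => ⟨(e β).some ⟨γ.1, γ.2.choose⟩, γ.2.choose_spec⟩
    have hg : Function.Injective g := by
      intro x y hxy
      have h1 : (e β).some ⟨x.1, x.2.choose⟩ = (e β).some ⟨y.1, y.2.choose⟩ := congrArg Subtype.val hxy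
      have h2 := (e β).some.injective h1
      have h3 : (x.1 : I) = y.1 := congrArg (fun z : Iio β => (z : I)) h2
      exact Subtype.ext h3
    exact Cardinal.mk_le_of_injective hg
  have hBU : ∀ β γ, γ < β → ∃ n, γ ∈ B β n := by
    intro β γ h
    obtain ⟨n, hn⟩ := hKU ((e β).some ⟨γ, h⟩)
    exact ⟨n, h, hn⟩
  have hIN : Nonempty (I ≃ I × ℕ) := by
    apply Cardinal.eq.1
    rw [Cardinal.mk_prod, Cardinal.lift_id, Cardinal.lift_id, Cardinal.mk_nat, hI]
    exact (Cardinal.mul_eq_left (hμ.trans (le_succ μ)) (hμ.trans (le_succ μ)) Cardinal.aleph0_ne_zero).symm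
  obtain ⟨c⟩ := hIN
  have hstep : ∀ (α : I) (ih : (γ : I) → γ < α → ℕ → K), ∃ x : ℕ → K,
      ∀ β n, ∃ k, ∀ γ (h : γ < α), γ ∈ B β n → x k ≠ ih γ h k := by
    intro α ih
    let W : I × ℕ → Set K := fun p => {y | ∃ γ, ∃ h : γ < α, γ ∈ B p.1 p.2 ∧ ∃ k, y = ih γ h k}
    have hW : ∀ p, #(W p) < μ := by
      intro p
      let s : B p.1 p.2 × ℕ → K := fun q => if h : (q.1 : I) < α then ih q.1 h q.2 else (hneg (fun _ => ∅) (by simpa using hμ'.pos)).choose 0
      have h1 : W p ⊆ Set.range s := by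
        rintro y ⟨γ, h, hγ, k, rfl⟩
        refine ⟨(⟨γ, hγ⟩, k), ?_⟩
        simp only [s]
        rw [dif_pos h]
      refine (Cardinal.mk_le_mk_of_subset h1).trans_lt (Cardinal.mk_range_le.trans_lt ?_)
      rw [Cardinal.mk_prod, Cardinal.lift_id, Cardinal.lift_id, Cardinal.mk_nat]
      exact Cardinal.mul_lt_of_lt hμ (hB _ _) hμ'
    obtain ⟨x, hx⟩ := hneg (fun i => W (c i)) (fun i => hW (c i))
    refine ⟨x, fun β n => ?_⟩
    obtain ⟨k, hk⟩ := hx (c.symm (β, n))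
    rw [Equiv.apply_symm_apply] at hk
    refine ⟨k, fun γ h hγ hxk => hk ⟨γ, h, hγ, k, hxk⟩⟩
  let f : I → ℕ → K := (wellFounded_lt (α := I)).fix (fun α ih => (hstep α ih).choose)
  have hf : ∀ α β n, ∃ k, ∀ γ, γ < α → γ ∈ B β n → f α k ≠ f γ k := by
    intro α β n
    obtain ⟨k, hk⟩ := (hstep α (fun γ _ => f γ)).choose_spec β n
    have h2 : f α = (hstep α (fun γ _ => f γ)).choose := WellFounded.fix_eq _ _ _
    refine ⟨k, fun γ h hγ => ?_⟩
    rw [h2]
    exact hk γ h hγ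
  -- the predicate and the code
  obtain ⟨P, hP⟩ : ∃ P : Set I, #P = μ := Cardinal.le_mk_iff_exists_set.1 (by rw [hI]; exact le_succ μ)
  have hcode : Nonempty (K ↪ P) := by
    have : #K ≤ #P := by rw [hK, hP]
    exact this
  let code := hcode.some
  let F : ℕ → I → I := fun n α => (code (f α n) : I)
  obtain ⟨Y, hY1, hY2, hY3⟩ := chang_fun hCh hI P hP F
  have hbdd : ∃ β : I, ∀ y ∈ Y, y < β := by
    by_contra! h
    have h1 : IsCofinal Y := fun a => by
      obtain ⟨y, hy, hay⟩ := h a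
      exact ⟨y, hy, hay⟩
    have h2 := Order.cof_le h1
    rw [hY1] at h2
    have h3 : Order.cof I = succ μ := by
      rw [Ordinal.cof_toType]
      exact (isRegular_succ hμ).cof_ord
    rw [h3] at h2
    exact absurd (Order.succ_le_of_lt hνμ) (not_le.2 (Order.succ_le_iff.1 h2))
  obtain ⟨β, hβ⟩ := hbdd
  have hN : ∀ α : Y, ∃ p : ℕ × ℕ, (α : I) ∈ B β p.1 ∧ ∀ γ, γ < (α : I) → γ ∈ B β p.1 → f α p.2 ≠ f γ p.2 := by
    intro α
    obtain ⟨n, hn⟩ := hBU β α (hβ α α.2)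
    obtain ⟨k, hk⟩ := hf α β n
    exact ⟨(n, k), hn, hk⟩
  choose N hN using hN
  have hbigpart : ∃ p, ν < #{α : Y | N α = p} := by
    by_contra! h
    have h1 : (Set.univ : Set Y) ⊆ ⋃ p, {α : Y | N α = p} := by
      intro y _
      exact Set.mem_iUnion.2 ⟨N y, rfl⟩
    have h2 : #Y ≤ ν := by
      rw [← Cardinal.mk_univ]
      refine (Cardinal.mk_le_mk_of_subset h1).trans ((Cardinal.mk_iUnion_le_sum_mk).trans ?_)
      refine (Cardinal.sum_le_sum _ (fun _ : ℕ × ℕ => ν) h).trans ?_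
      rw [Cardinal.sum_const']
      have h3 : #(ℕ × ℕ) ≤ ℵ₀ := Cardinal.mk_le_aleph0
      exact (mul_le_mul' (h3.trans hν) le_rfl).trans (Cardinal.mul_eq_self hν).le
    rw [hY1] at h2
    exact absurd (Order.lt_succ ν) (not_lt.2 h2)
  obtain ⟨p, hp⟩ := hbigpart
  let g : {α : Y | N α = p} → ↥(Y ∩ P) := fun α =>
    ⟨F p.2 α.1, hY3 _ _ α.1.2, (code (f α.1 p.2)).2⟩
  have hg : Function.Injective g := by
    intro x y hxy
    have h1 : f x.1 p.2 = f y.1 p.2 := by
      have h2 : (code (f x.1 p.2) : I) = (code (f y.1 p.2) : I) := congrArg (fun z : ↥(Y ∩ P) => (z : I)) hxy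
      exact code.injective (Subtype.ext h2)
    have hx := hN x.1
    have hy := hN y.1
    rw [x.2] at hx
    rw [y.2] at hy
    rcases lt_trichotomy (x.1 : I) (y.1 : I) with h | h | h
    · exact absurd h1.symm (hy.2 _ h hx.1)
    · exact Subtype.ext (Subtype.ext h)
    · exact absurd h1 (hx.2 _ h hy.1)
  have h5 := Cardinal.mk_le_of_injective hg
  rw [hY2] at h5
  exact absurd hp (not_lt.2 h5)

end Pool.Agent.H93.CC
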