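import Pool.Agent.H93.CC.CovB

/-!
# Covering subsets of a singular cardinal of uncountable cofinality
-/

set_option autoImplicit false

open Cardinal Ordinal Order Set

namespace Pool.Agent.H93.CC

/-- At most `c` subsets of `X` of size `≤ θ` suffice to cover every subset of `X` of size `≤ θ`. -/
def Cofam (θ : Cardinal.{0}) (X : Type) (c : Cardinal.{0}) : Prop :=
  ∃ (ι : Type) (W : ι → Set X), #ι ≤ c ∧ (∀ i, #(W i) ≤ θ) ∧ ∀ x : Set X, #x ≤ θ → ∃ i, x ⊆ W i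

theorem famA {κ θ : Cardinal.{0}} (hcof : ℵ₀ < κ.ord.cof) (hθ : ℵ₀ ≤ θ) (hθκ : θ < κ)
    (ih : ∀ l < κ, ∀ Y : Type, #Y = l → Cofam θ Y (max θ (succ l)))
    (C : Set κ.ord.ToType) (hC : #C ≤ θ) (S : Set κ.ord.ToType) (hSC : S ⊆ C)
    (hSinf : ∀ i ∈ S, ℵ₀ ≤ #(Iio i))
    (D : ∀ i : κ.ord.ToType, (succ #(Iio i)).ord.ToType → Set κ.ord.ToType) (hD : ∀ i ∈ S, ∀ r, #(D i r) ≤ θ)
    (f : Set κ.ord.ToType → ∀ i : κ.ord.ToType, (succ #(Iio i)).ord.ToType)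
    (hf : ∀ x : Set κ.ord.ToType, #x ≤ θ → ∀ i ∈ S, x ∩ Iio i ⊆ D i (f x i))
    (g : ∀ i : κ.ord.ToType, (succ #(Iio i)).ord.ToType) :
    ∃ (ι : Type) (W : ι → Set κ.ord.ToType), #ι ≤ κ ∧ (∀ j, #(W j) ≤ θ) ∧
      ∀ x : Set κ.ord.ToType, #x ≤ θ → IsStationary {i | i ∈ S ∧ f x i ≤ g i} → ∃ j, x ⊆ W j := by
  classical
  have hω : ℵ₀ < κ := hcof.trans_le (Ordinal.cof_ord_le κ)
  have hX : #κ.ord.ToType = κ := Cardinal.mk_ord_toType κ
  have hcofX : ℵ₀ < Order.cof κ.ord.ToType := by rw [Ordinal.cof_toType]; exact hcof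
  have hQ : ∀ i ∈ S, Nonempty (Iic (g i) ↪ Iio i) := by
    intro i hi
    have h4 : #(Iic (g i)) ≤ #(Iio i) :=
      Order.lt_succ_iff.1 (mk_Iic_lt' ((hSinf i hi).trans (le_succ _)) (g i))
    exact h4
  let E : κ.ord.ToType → Set (Σ i : κ.ord.ToType, (succ #(Iio i)).ord.ToType) := fun γ =>
    {p | ∃ (hi : p.1 ∈ S) (h : p.2 ≤ g p.1), ((hQ p.1 hi).some ⟨p.2, h⟩ : κ.ord.ToType) ≤ γ}
  have hE : ∀ γ, #(E γ) < κ := by
    intro γ
    let v : E γ → C × Iic γ := fun p => (⟨p.1.1, hSC p.2.choose⟩,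
      ⟨(hQ p.1.1 p.2.choose).some ⟨p.1.2, p.2.choose_spec.choose⟩, p.2.choose_spec.choose_spec⟩)
    have hv : Function.Injective v := by
      rintro ⟨⟨i, r⟩, hp⟩ ⟨⟨i', r'⟩, hp'⟩ hpp
      have h1 : i = i' := congrArg (fun z : C × Iic γ => (z.1 : κ.ord.ToType)) hpp
      subst h1
      have h2 := congrArg (fun z : C × Iic γ => (z.2 : κ.ord.ToType)) hpp
      have h3 := (hQ i hp.choose).some.injective (Subtype.ext h2)
      have h4 : r = r' := congrArg Subtype.val h3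
      subst h4
      rfl
    refine (Cardinal.mk_le_of_injective hv).trans_lt ?_
    rw [Cardinal.mk_prod, Cardinal.lift_id, Cardinal.lift_id]
    exact Cardinal.mul_lt_of_lt hω.le (hC.trans_lt hθκ) (mk_Iic_lt' hω.le γ)
  choose ι V hV1 hV2 hV3 using fun γ => ih _ (hE γ) (E γ) rfl
  refine ⟨Σ γ, ι γ, fun j => ⋃ p : V j.1 j.2, D p.1.1.1 p.1.1.2, ?_, fun j => ?_, fun x hx hst => ?_⟩
  · rw [Cardinal.mk_sigma]
    refine (Cardinal.sum_le_sum _ (fun _ => κ) fun γ =>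
      (hV1 γ).trans (max_le hθκ.le (Order.succ_le_of_lt (hE γ)))).trans ?_
    rw [Cardinal.sum_const', hX]
    exact (Cardinal.mul_eq_self hω.le).le
  · refine (Cardinal.mk_iUnion_le_sum_mk).trans ((Cardinal.sum_le_sum _ (fun _ => θ) fun p =>
      hD _ p.1.2.choose _).trans ?_)
    rw [Cardinal.sum_const']
    exact (mul_le_mul' (hV2 _ _) le_rfl).trans (Cardinal.mul_eq_self hθ).le
  · let T : Set κ.ord.ToType := {i | i ∈ S ∧ f x i ≤ g i}
    let u : κ.ord.ToType → κ.ord.ToType := fun i =>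
      if hi : i ∈ T then ((hQ i hi.1).some ⟨f x i, hi.2⟩ : Iio i) else i
    have hu : ∀ i ∈ T, u i < i := by
      intro i hi
      simp only [u, dif_pos hi]
      exact ((hQ i hi.1).some ⟨f x i, hi.2⟩).2
    obtain ⟨γ, hγ⟩ := fodor_strong hcofX hst u hu
    let Z : Set (E γ) := {p | p.1.1 ∈ T ∧ p.1.2 = f x p.1.1}
    have hZ : #Z ≤ θ := by
      let w : Z → C := fun p => ⟨p.1.1.1, hSC p.2.1.1⟩
      have hw : Function.Injective w := by
        rintro ⟨⟨⟨i, r⟩, hp⟩, hp1, hp2⟩ ⟨⟨⟨i', r'⟩, hp'⟩, hp1', hp2'⟩ hpp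
        have h1 : i = i' := congrArg Subtype.val hpp
        subst h1
        have h2 : r = r' := (show r = f x i from hp2).trans (show r' = f x i from hp2').symm
        subst h2
        rfl
      exact (Cardinal.mk_le_of_injective hw).trans hC
    obtain ⟨v, hv⟩ := hV3 γ Z hZ
    refine ⟨⟨γ, v⟩, fun y hy => ?_⟩
    obtain ⟨i, hi, -, hyi⟩ := good_point hcofX hγ not_isStationary_empty y
    have hmem : (⟨i, f x i⟩ : Σ i : κ.ord.ToType, (succ #(Iio i)).ord.ToType) ∈ E γ := by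
      refine ⟨hi.1.1, hi.1.2, ?_⟩
      have h1 := hi.2
      have h2 : i ∈ T := hi.1
      simp only [u, dif_pos h2] at h1
      exact h1
    have h2 : (⟨⟨i, f x i⟩, hmem⟩ : E γ) ∈ V γ v := hv ⟨hi.1, rfl⟩
    exact Set.mem_iUnion.2 ⟨⟨_, h2⟩, hf x hx i hi.1.1 ⟨hy, hyi⟩⟩

theorem step_cov {κ θ : Cardinal.{0}} (hcof : ℵ₀ < κ.ord.cof) (hcθ : κ.ord.cof ≤ θ) (hθκ : θ < κ)
    (ih : ∀ l < κ, ∀ Y : Type, #Y = l → Cofam θ Y (max θ (succ l))) : Cofam θ κ.ord.ToType (succ κ) := by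
  classical
  have hθ : ℵ₀ ≤ θ := hcof.le.trans hcθ
  have hω : ℵ₀ < κ := hcof.trans_le (Ordinal.cof_ord_le κ)
  have hX : #κ.ord.ToType = κ := Cardinal.mk_ord_toType κ
  have hcofX : ℵ₀ < Order.cof κ.ord.ToType := by rw [Ordinal.cof_toType]; exact hcof
  have hIio : ∀ i : κ.ord.ToType, #(Iio i) < κ := by
    intro i
    simpa using mk_Iio_lt i (by simp)
  obtain ⟨C, hC, hC'⟩ := small_club (α := κ.ord.ToType) hcofX.le
  have hC'' : #C ≤ θ := by
    refine hC'.trans ?_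
    rw [Ordinal.cof_toType]
    exact hcθ
  obtain ⟨x0, hx0⟩ : ∃ x0 : κ.ord.ToType, θ ≤ #(Iio x0) := by
    have h5 : θ.ord < κ.ord := Cardinal.ord_lt_ord.2 hθκ
    let x := Ordinal.enum (α := κ.ord.ToType) (· < ·) ⟨θ.ord, by simpa using h5⟩
    have h6 : Ordinal.typein (α := κ.ord.ToType) (· < ·) x = θ.ord := Ordinal.typein_enum _ _
    have h7 : #(Iio x) = θ := by
      have h8 : (Ordinal.typein (α := κ.ord.ToType) (· < ·) x).card = θ := by rw [h6, Cardinal.card_ord]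
      rw [← h8]
      rfl
    exact ⟨x, h7.ge⟩
  let S : Set κ.ord.ToType := {i | i ∈ C ∧ x0 ≤ i}
  have hSbig : ∀ i ∈ S, θ ≤ #(Iio i) := fun i hi =>
    hx0.trans (Cardinal.mk_le_mk_of_subset (Set.Iio_subset_Iio hi.2))
  have hSinf : ∀ i ∈ S, ℵ₀ ≤ #(Iio i) := fun i hi => hθ.trans (hSbig i hi)
  have hS : IsStationary S := by
    intro t ht
    obtain ⟨y, hy, hxy⟩ := (IsClub.inter hcofX.ne' hC ht).isCofinal x0
    exact ⟨y, ⟨hy.1, hxy⟩, hy.2⟩
  have hne : ∀ i : κ.ord.ToType, Nonempty (succ #(Iio i)).ord.ToType := by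
    intro i
    rw [← Cardinal.mk_ne_zero_iff, Cardinal.mk_ord_toType]
    exact Order.succ_ne_bot _
  have hD : ∀ i : κ.ord.ToType, ∃ D : (succ #(Iio i)).ord.ToType → Set κ.ord.ToType, i ∈ S →
      (∀ r, #(D r) ≤ θ) ∧ ∀ x : Set κ.ord.ToType, #x ≤ θ → ∃ r, x ∩ Iio i ⊆ D r := by
    intro i
    by_cases hi : i ∈ S
    · obtain ⟨ι, W, h1, h2, h3⟩ := ih _ (hIio i) (Iio i) rfl
      obtain ⟨j₀, -⟩ := h3 ∅ (by simp)
      have : Nonempty ι := ⟨j₀⟩
      have h4 : #ι ≤ #(succ #(Iio i)).ord.ToType := by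
        rw [Cardinal.mk_ord_toType]
        exact h1.trans (max_le ((hSbig i hi).trans (le_succ _)) le_rfl)
      have h5 : Nonempty (ι ↪ (succ #(Iio i)).ord.ToType) := h4
      refine ⟨fun r => Subtype.val '' (W (Function.invFun h5.some r)), fun _ => ⟨fun r => ?_, fun x hx => ?_⟩⟩
      · exact Cardinal.mk_image_le.trans (h2 _)
      · obtain ⟨j, hj⟩ := h3 (Subtype.val ⁻¹' x)
          ((Cardinal.mk_preimage_of_injective _ _ Subtype.val_injective).trans hx)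
        refine ⟨h5.some j, ?_⟩
        rintro y ⟨hy, hyi⟩
        have h6 : Function.invFun h5.some (h5.some j) = j := Function.leftInverse_invFun h5.some.injective j
        refine ⟨⟨y, hyi⟩, ?_, rfl⟩
        rw [h6]
        exact hj hy
    · exact ⟨fun _ => ∅, fun h => absurd h hi⟩
  choose D hD using hD
  have hf : ∀ (x : Set κ.ord.ToType) (i : κ.ord.ToType), ∃ r : (succ #(Iio i)).ord.ToType,
      #x ≤ θ → i ∈ S → x ∩ Iio i ⊆ D i r := by
    intro x i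
    by_cases h : #x ≤ θ ∧ i ∈ S
    · obtain ⟨r, hr⟩ := (hD i h.2).2 x h.1
      exact ⟨r, fun _ _ => hr⟩
    · exact ⟨(hne i).some, fun h1 h2 => absurd ⟨h1, h2⟩ h⟩
  choose f hf using hf
  obtain ⟨G, hG⟩ := famB hcof hθ hθκ C hC'' S (fun i hi => hi.1) hS hSinf
  choose ι W h1 h2 h3 using fun α => famA hcof hθ hθκ ih C hC'' S (fun i hi => hi.1) hSinf D
    (fun i hi => (hD i hi).1) f (fun x hx i hi => hf x i hx hi) (G α)
  refine ⟨Σ α, ι α, fun j => W j.1 j.2, ?_, fun j => h2 _ _, fun x hx => ?_⟩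
  · rw [Cardinal.mk_sigma]
    refine (Cardinal.sum_le_sum _ (fun _ => κ) h1).trans ?_
    rw [Cardinal.sum_const', Cardinal.mk_ord_toType]
    exact (mul_le_mul' le_rfl (le_succ κ)).trans (Cardinal.mul_eq_self (hω.le.trans (le_succ κ))).le
  · obtain ⟨α, hα⟩ := hG (f x)
    obtain ⟨j, hj⟩ := h3 α x hx hα
    exact ⟨⟨α, j⟩, hj⟩

end Pool.Agent.H93.CC
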