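import Mathlib

/-!
# A club of size the cofinality (MP_026a7e_lc)

PROOF. Let `s` be cofinal with `#s = cof α` (`Order.exists_cof_eq`), `C = s ∪ {x | IsLUB (s ∩ Iio x) x}`. Closed: if `d ⊆ C`
is nonempty with `IsLUB d a` and `a ∉ d` (else trivial) then `IsLUB (s ∩ Iio a) a`: for `b < a` there is `x ∈ d`, `b < x < a`,
and `x ∈ s` or `x` is the supremum of `s ∩ Iio x`, in both cases some `y ∈ s` has `b < y < a` (or `y = x`). Size: `x ↦` the least
element of `s` which is `≥ x` is injective on the `x` with `IsLUB (s ∩ Iio x) x` (if `x < x'` are two of them there is `y ∈ s`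
with `x < y < x'`), so `#C ≤ #s + #s = #s` (`cof α` infinite).
-/

set_option autoImplicit false

open Cardinal Order Set

namespace Pool.Agent.H93.CC

private theorem sc_between {α : Type} [LinearOrder α] {s : Set α} {x b : α} (hx : IsLUB (s ∩ Iio x) x)
    (hb : b < x) : ∃ y ∈ s, b < y ∧ y < x := by
  by_contra h
  have h1 : b ∈ upperBounds (s ∩ Iio x) := by
    intro y hy
    by_contra h2
    exact h ⟨y, hy.1, not_le.1 h2, hy.2⟩
  exact absurd (hx.2 h1) (not_le.2 hb)

theorem small_club {α : Type} [LinearOrder α] [WellFoundedLT α] (hα : ℵ₀ ≤ Order.cof α) :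
    ∃ C : Set α, IsClub C ∧ #C ≤ Order.cof α := by
  obtain ⟨s, hs, hcard⟩ := Order.exists_cof_eq α
  refine ⟨s ∪ {x | IsLUB (s ∩ Iio x) x}, ⟨?_, ?_⟩, ?_⟩
  · intro d hd hne _ a ha
    by_cases had : a ∈ d
    · exact hd had
    · right
      show IsLUB (s ∩ Iio a) a
      refine ⟨fun y hy => le_of_lt hy.2, ?_⟩
      intro b hb
      by_contra hba
      have hba' : b < a := not_le.1 hba
      have h1 : ∃ x ∈ d, b < x := by
        by_contra h2
        have h3 : b ∈ upperBounds d := by
          intro x hx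
          by_contra h4
          exact h2 ⟨x, hx, not_le.1 h4⟩
        exact absurd (ha.2 h3) hba
      obtain ⟨x, hxd, hbx⟩ := h1
      have hxa : x < a := lt_of_le_of_ne (ha.1 hxd) (fun h => had (h ▸ hxd))
      rcases hd hxd with h5 | h5
      · exact absurd (hb ⟨h5, hxa⟩) (not_le.2 hbx)
      · obtain ⟨y, hys, hby, hyx⟩ := sc_between h5 hbx
        exact absurd (hb ⟨hys, hyx.trans hxa⟩) (not_le.2 hby)
  · exact hs.mono subset_union_left
  · have hmin : ∀ x : α, ∃ y, (y ∈ s ∧ x ≤ y) ∧ ∀ z ∈ s, x ≤ z → y ≤ z := by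
      intro x
      obtain ⟨y0, hy0, hxy0⟩ := hs x
      obtain ⟨y, hy, hymin⟩ := WellFounded.has_min (wellFounded_lt (α := α)) {y | y ∈ s ∧ x ≤ y}
        ⟨y0, hy0, hxy0⟩
      exact ⟨y, hy, fun z hz hxz => not_lt.1 (hymin z ⟨hz, hxz⟩)⟩
    choose f hf hfmin using hmin
    have hinj : #{x | IsLUB (s ∩ Iio x) x} ≤ #s := by
      refine Cardinal.mk_le_of_injective
        (f := fun x : {x | IsLUB (s ∩ Iio x) x} => (⟨f x.1, (hf x.1).1⟩ : s)) ?_
      intro x x' hxx
      have hfe : f x.1 = f x'.1 := congrArg Subtype.val hxx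
      apply Subtype.ext
      rcases lt_trichotomy x.1 x'.1 with h | h | h
      · exfalso
        obtain ⟨y, hys, hxy, hyx⟩ := sc_between x'.2 h
        have h1 := hfmin x.1 y hys hxy.le
        have h2 := (hf x'.1).2
        exact absurd (h2.trans (hfe ▸ h1)) (not_le.2 hyx)
      · exact h
      · exfalso
        obtain ⟨y, hys, hxy, hyx⟩ := sc_between x.2 h
        have h1 := hfmin x'.1 y hys hxy.le
        have h2 := (hf x.1).2
        exact absurd (h2.trans (hfe ▸ h1)) (not_le.2 hyx)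
    calc #(s ∪ {x | IsLUB (s ∩ Iio x) x} : Set α) ≤ #s + #{x | IsLUB (s ∩ Iio x) x} :=
          Cardinal.mk_union_le _ _
      _ ≤ #s + #s := add_le_add le_rfl hinj
      _ = Order.cof α := by
        rw [hcard, Cardinal.add_eq_self hα]

end Pool.Agent.H93.CC
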