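import Mathlib

/-!
# Tournaments with small in-neighbourhoods (MP_026a7e_lc)

PROOF. If `#A > succ κ` take `Z ⊆ A` with `#Z = succ κ`; the union of the sets `{a | R a b}`, `b ∈ Z`, has size at most
`succ κ * κ = succ κ < #A`, so some `c` is outside: `¬ R c b` for all `b ∈ Z`, hence `R b c` for all `b ∈ Z`, and
`succ κ = #Z ≤ #{a | R a c} ≤ κ`, a contradiction.
-/

set_option autoImplicit false

open Cardinal Order Set

namespace Pool.Agent.H93.CC

theorem tour {A : Type} {κ : Cardinal.{0}} (hκ : ℵ₀ ≤ κ) (R : A → A → Prop) (htot : ∀ a b, R a b ∨ R b a)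
    (hsmall : ∀ b, #{a | R a b} ≤ κ) : #A ≤ succ κ := by
  by_contra h
  rw [not_le] at h
  obtain ⟨Z, hZ⟩ := Cardinal.le_mk_iff_exists_set.1 h.le
  have hs : ℵ₀ ≤ succ κ := hκ.trans (le_succ κ)
  have hU : #(⋃ b ∈ Z, {a | R a b} : Set A) ≤ succ κ := by
    refine (Cardinal.mk_biUnion_le (fun b => {a | R a b}) Z).trans ?_
    rw [hZ]
    have h1 : (⨆ x : Z, #{a | R a x.1}) ≤ κ := ciSup_le' fun x => hsmall x.1
    calc succ κ * (⨆ x : Z, #{a | R a x.1}) ≤ succ κ * succ κ :=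
          mul_le_mul' le_rfl (h1.trans (le_succ κ))
      _ = succ κ := Cardinal.mul_eq_self hs
  have hc : ∃ c, c ∉ (⋃ b ∈ Z, {a | R a b} : Set A) := by
    by_contra hall
    push Not at hall
    have h2 : (⋃ b ∈ Z, {a | R a b} : Set A) = Set.univ := eq_univ_of_forall hall
    rw [h2, Cardinal.mk_univ] at hU
    exact absurd hU (not_le.2 h)
  obtain ⟨c, hc⟩ := hc
  have h3 : Z ⊆ {a | R a c} := by
    intro b hb
    rcases htot b c with h4 | h4
    · exact h4
    · exact absurd (mem_biUnion hb h4) hc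
  have h5 : #Z ≤ κ := (Cardinal.mk_le_mk_of_subset h3).trans (hsmall c)
  rw [hZ] at h5
  exact absurd h5 (not_le.2 (lt_succ κ))

end Pool.Agent.H93.CC
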