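import Pool.Agent.H93.CC.Fodor
import Pool.Agent.H93.CC.SmallClub
import Pool.Agent.H93.CC.Tour
import Pool.Agent.H93.CC.Branch

/-!
# Silver's theorem for all powers (MP_026a7e_lc)
-/

set_option autoImplicit false

open Cardinal Ordinal Order Set

namespace Pool.Agent.H93.CC

/-- the part of `F` below `i` -/
noncomputable def tr {X Θ : Type} [LinearOrder X] (F : Θ → X) (i : X) : Θ → Option (Iio i) := by
  classical
  exact fun ξ => if h : F ξ < i then some ⟨F ξ, h⟩ else none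

theorem tr_eq {X Θ : Type} [LinearOrder X] {F G : Θ → X} {i : X} (h : tr F i = tr G i) {ξ : Θ} (hξ : F ξ < i) :
    F ξ = G ξ := by
  have h1 := congrFun h ξ
  simp only [tr, dif_pos hξ] at h1
  by_cases h2 : G ξ < i
  · rw [dif_pos h2] at h1
    exact congrArg Subtype.val (Option.some.inj h1)
  · rw [dif_neg h2] at h1
    exact absurd h1 (by simp)

theorem mk_Iic_lt' {κ : Cardinal.{0}} (hκ : ℵ₀ ≤ κ) (b : κ.ord.ToType) : #(Iic b) < κ := by
  have h3 : (Iic b : Set κ.ord.ToType) = insert b (Iio b) := by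
    ext y
    simp [le_iff_eq_or_lt]
  have h4 : #(Iio b) < κ := by simpa using mk_Iio_lt b (by simp)
  rw [h3]
  exact (Cardinal.mk_insert_le).trans_lt (Cardinal.add_lt_of_lt hκ h4 (Cardinal.one_lt_aleph0.trans_le hκ))

theorem small_side {κ θ : Cardinal.{0}} (hcof : ℵ₀ < κ.ord.cof) {Θ : Type} (hpow : ∀ l < κ, l ^ θ ≤ κ)
    (C : Set κ.ord.ToType) (hC : #C ≤ θ) (S : Set κ.ord.ToType) (hSC : S ⊆ C)
    (r : ∀ i : κ.ord.ToType, (Θ → Option (Iio i)) → (succ #(Iio i)).ord.ToType)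
    (hr : ∀ i ∈ S, Function.Injective (r i)) (hS : ∀ i ∈ S, ℵ₀ ≤ #(Iio i)) (A' : Θ → κ.ord.ToType) :
    #{A : Θ → κ.ord.ToType | IsStationary {i | i ∈ S ∧ r i (tr A i) ≤ r i (tr A' i)}} ≤ κ := by
  classical
  have hω : ℵ₀ < κ := hcof.trans_le (Ordinal.cof_ord_le κ)
  have hX : #κ.ord.ToType = κ := Cardinal.mk_ord_toType κ
  have hcofX : ℵ₀ < Order.cof κ.ord.ToType := by rw [Ordinal.cof_toType]; exact hcof
  have hQ : ∀ i ∈ S, ∀ x : (succ #(Iio i)).ord.ToType, Nonempty (Iic x ↪ Iio i) := by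
    intro i hi x
    have h4 : #(Iic x) ≤ #(Iio i) :=
      Order.lt_succ_iff.1 (mk_Iic_lt' ((hS i hi).trans (le_succ _)) x)
    exact h4
  let T : (Θ → κ.ord.ToType) → Set κ.ord.ToType := fun A => {i | i ∈ S ∧ r i (tr A i) ≤ r i (tr A' i)}
  let g : (Θ → κ.ord.ToType) → κ.ord.ToType → κ.ord.ToType := fun A i =>
    if h : i ∈ T A then ((hQ i h.1 (r i (tr A' i))).some ⟨r i (tr A i), h.2⟩ : Iio i) else i
  have hg : ∀ A, ∀ i ∈ T A, g A i < i := by
    intro A i h
    simp only [g, dif_pos h]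
    exact ((hQ i h.1 (r i (tr A' i))).some ⟨r i (tr A i), h.2⟩).2
  have hγ : ∀ A : {A : Θ → κ.ord.ToType | IsStationary (T A)}, ∃ γ, IsCofinal {i | i ∈ T A.1 ∧ g A.1 i ≤ γ} :=
    fun A => fodor hcofX A.2 (g A.1) (hg A.1)
  choose γ hγ using hγ
  let Φ : {A : Θ → κ.ord.ToType | IsStationary (T A)} → Σ b : κ.ord.ToType, (C → Option (Iic b)) :=
    fun A => ⟨γ A, fun c => if h : (c : κ.ord.ToType) ∈ T A.1 ∧ g A.1 c ≤ γ A then some ⟨g A.1 c, h.2⟩ else none⟩
  let ψ : (Σ b : κ.ord.ToType, (C → Option (Iic b))) → C → Option κ.ord.ToType :=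
    fun x c => (x.2 c).map Subtype.val
  have hψ : ∀ A c, ψ (Φ A) c = if (c : κ.ord.ToType) ∈ T A.1 ∧ g A.1 c ≤ γ A then some (g A.1 c) else none := by
    intro A c
    simp only [ψ, Φ]
    by_cases h : (c : κ.ord.ToType) ∈ T A.1 ∧ g A.1 c ≤ γ A
    · simp only [dif_pos h, if_pos h, Option.map_some]
    · simp only [dif_neg h, if_neg h, Option.map_none]
  have hΦ : Function.Injective Φ := by
    intro A B hAB
    apply Subtype.ext
    have key : ∀ c, c ∈ T A.1 → g A.1 c ≤ γ A → tr A.1 c = tr B.1 c := by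
      intro c hc hcγ
      have h1 : ψ (Φ A) ⟨c, hSC hc.1⟩ = ψ (Φ B) ⟨c, hSC hc.1⟩ := by rw [hAB]
      rw [hψ, hψ, if_pos ⟨hc, hcγ⟩] at h1
      have h2 : c ∈ T B.1 ∧ g B.1 c ≤ γ B := by
        by_contra h
        rw [if_neg h] at h1
        exact absurd h1 (by simp)
      rw [if_pos h2] at h1
      have h3 : g A.1 c = g B.1 c := Option.some.inj h1
      simp only [g, dif_pos hc, dif_pos h2.1] at h3
      have h4 := (hQ c hc.1 (r c (tr A' c))).some.injective (Subtype.ext h3)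
      have h5 : r c (tr A.1 c) = r c (tr B.1 c) := congrArg Subtype.val h4
      exact hr c hc.1 h5
    have hno : ∀ x : κ.ord.ToType, ∃ c, c ∈ T A.1 ∧ g A.1 c ≤ γ A ∧ x < c := by
      intro x
      obtain ⟨y, hy⟩ : ∃ y, x < y := by
        by_contra! hx
        have h1 : IsCofinal ({x} : Set κ.ord.ToType) := fun a => ⟨x, rfl, hx a⟩
        have h2 := Order.cof_le h1
        rw [Cardinal.mk_singleton] at h2
        exact absurd (Cardinal.one_lt_aleph0.trans hcofX) (not_lt.2 h2)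
      obtain ⟨c, hc, hyc⟩ := hγ A y
      exact ⟨c, hc.1, hc.2, hy.trans_le hyc⟩
    funext ξ
    obtain ⟨c, hc1, hc2, hxc⟩ := hno (A.1 ξ)
    exact tr_eq (key c hc1 hc2) hxc
  refine (Cardinal.mk_le_of_injective hΦ).trans ?_
  rw [Cardinal.mk_sigma]
  have h8 : ∀ b : κ.ord.ToType, #(C → Option (Iic b)) ≤ κ := by
    intro b
    have h10 : #(Option (Iic b)) < κ := by
      rw [Cardinal.mk_option]
      exact Cardinal.add_lt_of_lt hω.le (mk_Iic_lt' hω.le b) (Cardinal.one_lt_aleph0.trans hω)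
    have h11 : #(C → Option (Iic b)) = #(Option (Iic b)) ^ #C := by simp
    rw [h11]
    refine (Cardinal.power_le_power_left ?_ hC).trans (hpow _ h10)
    rw [Cardinal.mk_option]
    exact (by simp : #(Iic b) + 1 ≠ 0)
  refine (Cardinal.sum_le_sum _ (fun _ => κ) h8).trans ?_
  rw [Cardinal.sum_const', hX]
  exact (Cardinal.mul_eq_self hω.le).le

/-- The case of Silver's theorem: uncountable cofinality. -/
theorem step_unc {κ θ : Cardinal.{0}} (hcof : ℵ₀ < κ.ord.cof) (hcθ : κ.ord.cof ≤ θ) (h2 : 2 ^ θ < κ)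
    (hpow : ∀ l < κ, l ^ θ ≤ κ) (hpow' : ∀ l < κ, 2 ^ θ ≤ l → l ^ θ ≤ succ l) : κ ^ θ ≤ succ κ := by
  classical
  have hθ : ℵ₀ ≤ θ := hcof.le.trans hcθ
  have hω : ℵ₀ < κ := hcof.trans_le (Ordinal.cof_ord_le κ)
  have hX : #κ.ord.ToType = κ := Cardinal.mk_ord_toType κ
  have hcofX : ℵ₀ < Order.cof κ.ord.ToType := by rw [Ordinal.cof_toType]; exact hcof
  have hIio : ∀ i : κ.ord.ToType, #(Iio i) < κ := by
    intro i
    simpa using mk_Iio_lt i (by simp)
  let Θ := θ.ord.ToType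
  have hΘ : #Θ = θ := Cardinal.mk_ord_toType θ
  obtain ⟨C, hC, hC'⟩ := small_club (α := κ.ord.ToType) hcofX.le
  have hC'' : #C ≤ θ := by
    refine hC'.trans ?_
    rw [Ordinal.cof_toType]
    exact hcθ
  -- a point with many predecessors
  obtain ⟨x0, hx0⟩ : ∃ x0 : κ.ord.ToType, 2 ^ θ ≤ #(Iio x0) := by
    by_contra! hx
    have h3 : ∃ P : Set κ.ord.ToType, #P = 2 ^ θ := Cardinal.le_mk_iff_exists_set.1 (by rw [hX]; exact h2.le)
    have h4 : succ (2 ^ θ : Cardinal.{0}) ≤ κ := Order.succ_le_of_lt h2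
    have h5 : (2 ^ θ : Cardinal.{0}).ord < κ.ord := Cardinal.ord_lt_ord.2 h2
    let x := Ordinal.enum (α := κ.ord.ToType) (· < ·) ⟨(2 ^ θ : Cardinal.{0}).ord, by simpa using h5⟩
    have h6 : Ordinal.typein (α := κ.ord.ToType) (· < ·) x = (2 ^ θ : Cardinal.{0}).ord := Ordinal.typein_enum _ _
    have h7 : #(Iio x) = 2 ^ θ := by
      have h8 : (Ordinal.typein (α := κ.ord.ToType) (· < ·) x).card = 2 ^ θ := by rw [h6, Cardinal.card_ord]
      rw [← h8]
      rfl
    exact absurd (hx x) (not_lt.2 h7.ge)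
  let S : Set κ.ord.ToType := {i | i ∈ C ∧ x0 ≤ i}
  have hSbig : ∀ i ∈ S, 2 ^ θ ≤ #(Iio i) := fun i hi =>
    hx0.trans (Cardinal.mk_le_mk_of_subset (Set.Iio_subset_Iio hi.2))
  have hSinf : ∀ i ∈ S, ℵ₀ ≤ #(Iio i) := fun i hi =>
    (hθ.trans (Cardinal.cantor θ).le).trans (hSbig i hi)
  have hS : IsStationary S := by
    intro t ht
    obtain ⟨y, hy, hxy⟩ := (IsClub.inter hcofX.ne' hC ht).isCofinal x0
    exact ⟨y, ⟨hy.1, hxy⟩, hy.2⟩
  have hr : ∀ i : κ.ord.ToType, ∃ r : (Θ → Option (Iio i)) → (succ #(Iio i)).ord.ToType,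
      i ∈ S → Function.Injective r := by
    intro i
    by_cases hi : i ∈ S
    · have h1 : #(Θ → Option (Iio i)) ≤ #(succ #(Iio i)).ord.ToType := by
        have h3 : #(Θ → Option (Iio i)) = #(Option (Iio i)) ^ #Θ := by simp
        have h4 : #(Option (Iio i)) = #(Iio i) := by
          rw [Cardinal.mk_option]
          exact Cardinal.add_one_eq (hSinf i hi)
        rw [h3, h4, hΘ, Cardinal.mk_ord_toType]
        exact hpow' _ (hIio i) (hSbig i hi)
      obtain ⟨f⟩ := h1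
      exact ⟨f, fun _ => f.injective⟩
    · have : Nonempty (succ #(Iio i)).ord.ToType := by
        rw [← Cardinal.mk_ne_zero_iff, Cardinal.mk_ord_toType]
        exact Order.succ_ne_bot _
      exact ⟨fun _ => Classical.arbitrary _, fun h => absurd h hi⟩
  choose r hr using hr
  let R : (Θ → κ.ord.ToType) → (Θ → κ.ord.ToType) → Prop := fun A A' =>
    IsStationary {i | i ∈ S ∧ r i (tr A i) ≤ r i (tr A' i)}
  have h2 : #(Θ → κ.ord.ToType) ≤ succ κ := by
    refine tour hω.le R ?_ ?_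
    · intro A B
      have h3 : S = {i | i ∈ S ∧ r i (tr A i) ≤ r i (tr B i)} ∪ {i | i ∈ S ∧ r i (tr B i) ≤ r i (tr A i)} := by
        ext i
        constructor
        · intro hi
          rcases le_total (r i (tr A i)) (r i (tr B i)) with h4 | h4
          · exact Or.inl ⟨hi, h4⟩
          · exact Or.inr ⟨hi, h4⟩
        · rintro (hi | hi)
          · exact hi.1
          · exact hi.1
      rw [h3] at hS
      exact (isStationary_union_iff hcofX.ne').1 hS
    · intro A'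
      exact small_side hcof hpow C hC'' S (fun x hx => hx.1) r hr hSinf A'
  have h3 : #(Θ → κ.ord.ToType) = κ ^ θ := by
    have : #(Θ → κ.ord.ToType) = #κ.ord.ToType ^ #Θ := by simp
    rw [this, hX, hΘ]
  rwa [h3] at h2

end Pool.Agent.H93.CC
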