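import Pool.Agent.H93.CC.Cov
import Pool.Agent.H93.CC.Sch

/-!
# Covering numbers for countable sets: the exact values
-/

set_option autoImplicit false

open Cardinal Ordinal Order Set Filter

namespace Pool.Agent.H93.CC

/-- The sizes of the families `𝒲` of subsets of `μ` such that every member of `𝒲` has size `< μ` and every countable subset
of `μ` is contained in a member of `𝒲`. The least one is the covering number `cov(μ, μ, ℵ₁, 2)`. -/
def Covers (μ : Cardinal.{0}) : Set Cardinal.{0} :=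
  {c | ∃ 𝒲 : Set (Set μ.ord.ToType), #𝒲 = c ∧ (∀ W ∈ 𝒲, #W < μ) ∧
    ∀ x : Set μ.ord.ToType, x.Countable → ∃ W ∈ 𝒲, x ⊆ W}

/-- The sizes of the families of countable subsets of `l` such that every countable subset of `l` is contained in a member
of the family. The least one is the cofinality of the countable subsets of `l` under inclusion. -/
def CofCount (l : Cardinal.{0}) : Set Cardinal.{0} :=
  {c | ∃ (ι : Type) (W : ι → Set l.ord.ToType), #ι = c ∧ (∀ i, (W i).Countable) ∧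
    ∀ x : Set l.ord.ToType, x.Countable → ∃ i, x ⊆ W i}

theorem cover_lower {μ : Cardinal.{0}} (hμ' : ℵ₀ < μ) (hcof : μ.ord.cof = ℵ₀) {ι : Type} (hι : #ι ≤ μ)
    (W : ι → Set μ.ord.ToType) (hW : ∀ i, #(W i) < μ) : ∃ x : Set μ.ord.ToType, x.Countable ∧ ∀ i, ¬ x ⊆ W i := by
  classical
  have hμ : ℵ₀ ≤ μ := hμ'.le
  obtain ⟨Kn, -, hKn, hKU⟩ := exists_filtration hμ hcof
  have hK : #μ.ord.ToType = μ := Cardinal.mk_ord_toType μ
  have he : Nonempty (ι ↪ μ.ord.ToType) := by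
    have : #ι ≤ #μ.ord.ToType := by rw [hK]; exact hι
    exact this
  let s : ℕ × ℕ → Set ι := fun p => {i | he.some i ∈ Kn p.1 ∧ #(W i) ≤ #(Kn p.2)}
  let V : ℕ × ℕ → Set μ.ord.ToType := fun p => ⋃ i : s p, W i
  have hV : ∀ p, #(V p) < μ := by
    intro p
    refine (Cardinal.mk_iUnion_le_sum_mk).trans_lt ?_
    refine (Cardinal.sum_le_sum _ (fun _ : s p => #(Kn p.2)) fun i => i.2.2).trans_lt ?_
    rw [Cardinal.sum_const']
    refine Cardinal.mul_lt_of_lt hμ ?_ (hKn _)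
    refine lt_of_le_of_lt ?_ (hKn p.1)
    let g : s p → Kn p.1 := fun i => ⟨he.some i, i.2.1⟩
    have hg : Function.Injective g := fun x y hxy => Subtype.ext (he.some.injective (congrArg Subtype.val hxy))
    exact Cardinal.mk_le_of_injective hg
  have hx : ∀ p, ∃ y, y ∉ V p := by
    intro p
    by_contra! h
    have h1 : V p = Set.univ := Set.eq_univ_of_forall h
    have h2 := hV p
    rw [h1, Cardinal.mk_univ, hK] at h2
    exact lt_irrefl _ h2
  choose x hx using hx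
  refine ⟨Set.range x, Set.countable_range x, fun i hi => ?_⟩
  obtain ⟨n, hn⟩ := hKU (he.some i)
  have hm : ∃ m, #(W i) ≤ #(Kn m) := by
    by_contra! h
    have h1 : (Set.univ : Set μ.ord.ToType) ⊆ ⋃ m, Kn m := fun y _ => Set.mem_iUnion.2 (hKU y)
    have h2 : #(Set.univ : Set μ.ord.ToType) ≤ ℵ₀ * #(W i) := by
      refine (Cardinal.mk_le_mk_of_subset h1).trans ((Cardinal.mk_iUnion_le_sum_mk).trans ?_)
      refine (Cardinal.sum_le_sum _ (fun _ : ℕ => #(W i)) fun m => (h m).le).trans ?_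
      rw [Cardinal.sum_const', Cardinal.mk_nat]
    rw [Cardinal.mk_univ, hK] at h2
    exact absurd (Cardinal.mul_lt_of_lt hμ hμ' (hW i)) (not_lt.2 h2)
  obtain ⟨m, hm⟩ := hm
  exact hx (n, m) (Set.mem_iUnion.2 ⟨⟨i, hn, hm⟩, hi ⟨(n, m), rfl⟩⟩)

theorem cov_exact {μ ν : Cardinal.{0}} (hν : ℵ₀ ≤ ν) (hνμ : ν < μ) (hcof : μ.ord.cof = ℵ₀)
    (hCh : Chang (succ μ) μ (succ ν) ν) : IsLeast (Covers μ) (succ μ) := by
  have hμ' : ℵ₀ < μ := hν.trans_lt hνμ
  have hlow : succ μ ∈ lowerBounds (Covers μ) := by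
    rintro c ⟨𝒲, rfl, hW1, hW2⟩
    by_contra h
    obtain ⟨x, hx, hxW⟩ := cover_lower hμ' hcof (Order.lt_succ_iff.1 (not_le.1 h)) (fun W : 𝒲 => (W : Set μ.ord.ToType))
      (fun W => hW1 W W.2)
    obtain ⟨W, hW, hi⟩ := hW2 x hx
    exact hxW ⟨W, hW⟩ hi
  refine ⟨?_, hlow⟩
  obtain ⟨W, hW1, hW2⟩ := cover_main hν hνμ hcof hCh
  have hmem : #(Set.range W) ∈ Covers μ := by
    refine ⟨Set.range W, rfl, ?_, fun x hx => ?_⟩
    · rintro _ ⟨i, rfl⟩
      exact hW1 i
    · rcases x.eq_empty_or_nonempty with rfl | hne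
      · have : Nonempty μ.ord.ToType := by
          rw [← Cardinal.mk_ne_zero_iff, Cardinal.mk_ord_toType]
          exact hμ'.pos.ne'
        obtain ⟨i, -⟩ := hW2 (fun _ => this.some)
        exact ⟨W i, ⟨i, rfl⟩, Set.empty_subset _⟩
      · obtain ⟨y, rfl⟩ := hx.exists_eq_range hne
        obtain ⟨i, hi⟩ := hW2 y
        exact ⟨W i, ⟨i, rfl⟩, by rintro _ ⟨k, rfl⟩; exact hi k⟩
  have h1 : #(Set.range W) = succ μ := by
    refine le_antisymm ?_ (hlow hmem)
    have h2 : #(Set.range W) ≤ #(succ μ).ord.ToType := Cardinal.mk_range_le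
    rwa [Cardinal.mk_ord_toType] at h2
  rw [← h1]
  exact hmem

/-- Every family of sets which covers the countable subsets of `X` and has small members can be refined. -/
theorem glue {X : Type} {l m : Cardinal.{0}} (hm : ℵ₀ ≤ m)
    (ih : ∀ k < l, ∀ Y : Type, #Y = k → ∃ (ι : Type) (W : ι → Set Y), #ι ≤ m ∧ (∀ i, (W i).Countable) ∧
      ∀ x : Set Y, x.Countable → ∃ i, x ⊆ W i)
    {J : Type} (hJ : #J ≤ m) (V : J → Set X) (hV : ∀ j, #(V j) < l) (hcov : ∀ x : Set X, x.Countable → ∃ j, x ⊆ V j) :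
    ∃ (ι : Type) (W : ι → Set X), #ι ≤ m ∧ (∀ i, (W i).Countable) ∧ ∀ x : Set X, x.Countable → ∃ i, x ⊆ W i := by
  choose ι W h1 h2 h3 using fun j => ih _ (hV j) (V j) rfl
  refine ⟨Σ j, ι j, fun p => Subtype.val '' (W p.1 p.2), ?_, fun p => (h2 p.1 p.2).image _, fun x hx => ?_⟩
  · rw [Cardinal.mk_sigma]
    refine (Cardinal.sum_le_sum _ (fun _ => m) h1).trans ?_
    rw [Cardinal.sum_const']
    exact (mul_le_mul' hJ le_rfl).trans (Cardinal.mul_eq_self hm).le
  · obtain ⟨j, hj⟩ := hcov x hx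
    obtain ⟨i, hi⟩ := h3 j (Subtype.val ⁻¹' x) (hx.preimage Subtype.val_injective)
    refine ⟨⟨j, i⟩, fun y hy => ⟨⟨y, hj hy⟩, hi hy, rfl⟩⟩

theorem glob_cov (h : OneEach) (l : Cardinal.{0}) : ∀ X : Type, #X = l → ∃ (ι : Type) (W : ι → Set X),
    #ι ≤ (if l ≤ ℵ₀ then ℵ₀ else if l.ord.cof = ℵ₀ then succ l else l) ∧ (∀ i, (W i).Countable) ∧
      ∀ x : Set X, x.Countable → ∃ i, x ⊆ W i := by
  classical
  induction l using WellFoundedLT.induction with
  | ind l ih =>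
    intro X hX
    by_cases hl : l ≤ ℵ₀
    · rw [if_pos hl]
      refine ⟨Unit, fun _ => Set.univ, Cardinal.mk_le_aleph0, fun _ => ?_, fun x _ => ⟨(), Set.subset_univ x⟩⟩
      rw [Set.countable_univ_iff, ← Cardinal.mk_le_aleph0_iff, hX]
      exact hl
    have hl' : ℵ₀ < l := not_le.1 hl
    rw [if_neg hl]
    have hk : ∀ k < l, (if k ≤ ℵ₀ then ℵ₀ else if k.ord.cof = ℵ₀ then succ k else k) ≤ l := by
      intro k hk
      split_ifs
      · exact hl'.le
      · exact Order.succ_le_of_lt hk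
      · exact hk.le
    have hXe : Nonempty (X ≃ l.ord.ToType) := Cardinal.eq.1 (by rw [hX, Cardinal.mk_ord_toType])
    obtain ⟨e⟩ := hXe
    have key : ∀ m, l ≤ m → ∀ (J : Type) (V : J → Set l.ord.ToType), #J ≤ m → (∀ j, #(V j) < l) →
        (∀ x : Set l.ord.ToType, x.Countable → ∃ j, x ⊆ V j) →
        ∃ (ι : Type) (W : ι → Set X), #ι ≤ m ∧ (∀ i, (W i).Countable) ∧ ∀ x : Set X, x.Countable → ∃ i, x ⊆ W i := by
      intro m hlm J V hJ hV hcov
      refine glue (l := l) (hl'.le.trans hlm) (fun k hkl Y hY => ?_) hJ (fun j => e ⁻¹' V j) (fun j => ?_) (fun x hx => ?_)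
      · obtain ⟨ι, W, h1, h2, h3⟩ := ih k hkl Y hY
        exact ⟨ι, W, h1.trans ((hk k hkl).trans hlm), h2, h3⟩
      · have h1 : #(e ⁻¹' V j) = #(V j) := Cardinal.mk_preimage_equiv e (V j)
        rw [h1]
        exact hV j
      · obtain ⟨j, hj⟩ := hcov (e '' x) (hx.image e)
        exact ⟨j, fun y hy => hj ⟨y, hy, rfl⟩⟩
    by_cases hcof : l.ord.cof = ℵ₀
    · rw [if_pos hcof]
      obtain ⟨ν, hν, hνl, hCh⟩ := h l hl' hcof
      obtain ⟨𝒲, hJ, hV, hcov⟩ := (cov_exact hν hνl hcof hCh).1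
      refine key _ (le_succ l) 𝒲 (fun W => (W : Set l.ord.ToType)) hJ.le (fun W => hV W W.2) (fun x hx => ?_)
      obtain ⟨W, hW, hxW⟩ := hcov x hx
      exact ⟨⟨W, hW⟩, hxW⟩
    · rw [if_neg hcof]
      have hcof' : ℵ₀ < l.ord.cof := lt_of_le_of_ne
        (Ordinal.aleph0_le_cof_iff.2 (Ordinal.one_lt_cof_iff.2 (Cardinal.isSuccLimit_ord hl'.le))) (Ne.symm hcof)
      refine key l le_rfl l.ord.ToType (fun b => Iic b) (Cardinal.mk_ord_toType l).le
        (fun b => mk_Iic_lt' hl'.le b) (fun x hx => ?_)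
      by_contra! hb
      have h1 : IsCofinal x := by
        intro b
        obtain ⟨y, hy, hyb⟩ := Set.not_subset.1 (hb b)
        exact ⟨y, hy, (not_le.1 hyb).le⟩
      have h2 := Order.cof_le h1
      rw [Ordinal.cof_toType] at h2
      exact absurd (h2.trans (Cardinal.mk_le_aleph0_iff.2 hx.to_subtype)) (not_le.2 hcof')

theorem pad {X : Type} {c : Cardinal.{0}} {ι : Type} (hι : #ι ≤ c) (W : ι → Set X)
    (hW : ∀ x : Set X, x.Countable → ∃ i, x ⊆ W i) :
    ∃ V : c.ord.ToType → Set X, (∀ j, ∃ i, V j = W i) ∧ ∀ x : Set X, x.Countable → ∃ j, x ⊆ V j := by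
  obtain ⟨i₀, -⟩ := hW ∅ Set.countable_empty
  have : Nonempty ι := ⟨i₀⟩
  have he : Nonempty (ι ↪ c.ord.ToType) := by
    have : #ι ≤ #c.ord.ToType := by rw [Cardinal.mk_ord_toType]; exact hι
    exact this
  refine ⟨fun j => W (Function.invFun he.some j), fun j => ⟨_, rfl⟩, fun x hx => ?_⟩
  obtain ⟨i, hi⟩ := hW x hx
  refine ⟨he.some i, ?_⟩
  have h1 : Function.invFun he.some (he.some i) = i := Function.leftInverse_invFun he.some.injective i
  change x ⊆ W (Function.invFun he.some (he.some i))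
  rw [h1]
  exact hi

theorem glob_exact (h : OneEach) {l : Cardinal.{0}} (hl : ℵ₀ < l) :
    IsLeast (CofCount l) (if l.ord.cof = ℵ₀ then succ l else l) := by
  classical
  constructor
  · obtain ⟨ι, W, h1, h2, h3⟩ := glob_cov h l l.ord.ToType (Cardinal.mk_ord_toType l)
    rw [if_neg (not_le.2 hl)] at h1
    obtain ⟨V, hV1, hV2⟩ := pad h1 W h3
    refine ⟨_, V, Cardinal.mk_ord_toType _, fun j => ?_, hV2⟩
    obtain ⟨i, hi⟩ := hV1 j
    rw [hi]
    exact h2 i
  · rintro c ⟨ι, W, rfl, hW1, hW2⟩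
    have hW3 : ∀ i, #(W i) < l := fun i => lt_of_le_of_lt (Cardinal.mk_le_aleph0_iff.2 (hW1 i).to_subtype) hl
    split_ifs with hcof
    · by_contra hlt
      obtain ⟨x, hx, hxW⟩ := cover_lower hl hcof (Order.lt_succ_iff.1 (not_le.1 hlt)) W hW3
      obtain ⟨i, hi⟩ := hW2 x hx
      exact hxW i hi
    · by_contra hlt
      have h1 : (Set.univ : Set l.ord.ToType) ⊆ ⋃ i, W i := by
        intro y _
        obtain ⟨i, hi⟩ := hW2 {y} (Set.countable_singleton y)
        exact Set.mem_iUnion.2 ⟨i, hi rfl⟩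
      have h2 : #(Set.univ : Set l.ord.ToType) ≤ #ι * ℵ₀ := by
        refine (Cardinal.mk_le_mk_of_subset h1).trans ((Cardinal.mk_iUnion_le_sum_mk).trans ?_)
        refine (Cardinal.sum_le_sum _ (fun _ : ι => ℵ₀) fun i => Cardinal.mk_le_aleph0_iff.2 (hW1 i).to_subtype).trans ?_
        rw [Cardinal.sum_const']
      rw [Cardinal.mk_univ, Cardinal.mk_ord_toType] at h2
      exact absurd (Cardinal.mul_lt_of_lt hl.le (not_le.1 hlt) hl) (not_lt.2 h2)

end Pool.Agent.H93.CC
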