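import Pool.Agent.H93.CC.CovA
import Pool.Agent.H93.CC.CovLow
import Pool.Agent.H93.CC.Cor

/-!
# `S` implies Shelah's Strong Hypothesis: the cofinality of the subsets of `l` of size `≤ θ`
-/

set_option autoImplicit false

open Cardinal Ordinal Order Set

namespace Pool.Agent.H93.CC

theorem cofam_mono {θ c c' : Cardinal.{0}} {X : Type} (h : Cofam θ X c) (hc : c ≤ c') : Cofam θ X c' := by
  obtain ⟨ι, W, h1, h2, h3⟩ := h
  exact ⟨ι, W, h1.trans hc, h2, h3⟩

theorem cofam_equiv {θ c : Cardinal.{0}} {X Y : Type} (e : X ≃ Y) (h : Cofam θ Y c) : Cofam θ X c := by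
  obtain ⟨ι, W, h1, h2, h3⟩ := h
  refine ⟨ι, fun i => e ⁻¹' W i, h1, fun i => ?_, fun x hx => ?_⟩
  · have h4 : #(e ⁻¹' W i) = #(W i) := Cardinal.mk_preimage_equiv e (W i)
    rw [h4]
    exact h2 i
  · obtain ⟨i, hi⟩ := h3 (e '' x) (Cardinal.mk_image_le.trans hx)
    exact ⟨i, fun y hy => hi ⟨y, hy, rfl⟩⟩

theorem step_ctbl (h : OneEach) {κ θ : Cardinal.{0}} (hθ : ℵ₀ ≤ θ) (hθκ : θ < κ) (hcof : κ.ord.cof = ℵ₀)
    (ih : ∀ l < κ, ∀ Y : Type, #Y = l → Cofam θ Y (max θ (succ l))) : Cofam θ κ.ord.ToType (succ κ) := by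
  classical
  have hω : ℵ₀ ≤ κ := hθ.trans hθκ.le
  obtain ⟨Kn, -, hKn, hKU⟩ := exists_filtration hω hcof
  choose ι W h1 h2 h3 using fun n => ih _ (hKn n) (Kn n) rfl
  have hQ : #(Σ n, ι n) ≤ κ := by
    rw [Cardinal.mk_sigma]
    refine (Cardinal.sum_le_sum _ (fun _ => κ) fun n =>
      (h1 n).trans (max_le hθκ.le (Order.succ_le_of_lt (hKn n)))).trans ?_
    rw [Cardinal.sum_const', Cardinal.mk_nat]
    exact (mul_le_mul' hω le_rfl).trans (Cardinal.mul_eq_self hω).le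
  obtain ⟨J, U, hU1, hU2, hU3⟩ := glob_cov h _ (Σ n, ι n) rfl
  have hJ : #J ≤ succ κ := by
    refine hU1.trans ?_
    split_ifs
    · exact hω.trans (le_succ κ)
    · exact Order.succ_le_succ hQ
    · exact hQ.trans (le_succ κ)
  refine ⟨J, fun j => ⋃ p : U j, Subtype.val '' (W p.1.1 p.1.2), hJ, fun j => ?_, fun x hx => ?_⟩
  · refine (Cardinal.mk_iUnion_le_sum_mk).trans ((Cardinal.sum_le_sum _ (fun _ => θ) fun p =>
      Cardinal.mk_image_le.trans (h2 _ _)).trans ?_)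
    rw [Cardinal.sum_const']
    have h4 : #(U j) ≤ θ := (Cardinal.mk_le_aleph0_iff.2 (hU2 j).to_subtype).trans hθ
    exact (mul_le_mul' h4 le_rfl).trans (Cardinal.mul_eq_self hθ).le
  · choose r hr using fun n => h3 n (Subtype.val ⁻¹' x)
      ((Cardinal.mk_preimage_of_injective _ _ Subtype.val_injective).trans hx)
    obtain ⟨j, hj⟩ := hU3 (Set.range fun n => (⟨n, r n⟩ : Σ n, ι n)) (Set.countable_range _)
    refine ⟨j, fun y hy => ?_⟩
    obtain ⟨n, hn⟩ := hKU y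
    exact Set.mem_iUnion.2 ⟨⟨⟨n, r n⟩, hj ⟨n, rfl⟩⟩, ⟨y, hn⟩, hr n hy, rfl⟩

theorem step_bdd {κ θ : Cardinal.{0}} (hθ : ℵ₀ ≤ θ) (hθκ : θ < κ) (hcof : θ < κ.ord.cof)
    (ih : ∀ l < κ, ∀ Y : Type, #Y = l → Cofam θ Y (max θ (succ l))) : Cofam θ κ.ord.ToType κ := by
  classical
  have hω : ℵ₀ ≤ κ := hθ.trans hθκ.le
  have hIio : ∀ i : κ.ord.ToType, #(Iio i) < κ := by
    intro i
    simpa using mk_Iio_lt i (by simp)
  choose ι W h1 h2 h3 using fun i => ih _ (hIio i) (Iio i) rfl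
  refine ⟨Σ i, ι i, fun p => Subtype.val '' (W p.1 p.2), ?_, fun p => Cardinal.mk_image_le.trans (h2 _ _),
    fun x hx => ?_⟩
  · rw [Cardinal.mk_sigma]
    refine (Cardinal.sum_le_sum _ (fun _ => κ) fun i =>
      (h1 i).trans (max_le hθκ.le (Order.succ_le_of_lt (hIio i)))).trans ?_
    rw [Cardinal.sum_const', Cardinal.mk_ord_toType]
    exact (Cardinal.mul_eq_self hω).le
  · obtain ⟨b, hb⟩ := exists_gt_of_small (α := κ.ord.ToType) (S := x) (by
      rw [Ordinal.cof_toType]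
      exact hx.trans_lt hcof)
    obtain ⟨j, hj⟩ := h3 b (Subtype.val ⁻¹' x)
      ((Cardinal.mk_preimage_of_injective _ _ Subtype.val_injective).trans hx)
    exact ⟨⟨b, j⟩, fun y hy => ⟨⟨y, hb y hy⟩, hj hy, rfl⟩⟩

theorem cov_all (h : OneEach) {θ : Cardinal.{0}} (hθ : ℵ₀ ≤ θ) (l : Cardinal.{0}) : ∀ X : Type, #X = l →
    Cofam θ X (if l ≤ θ then 1 else if l.ord.cof ≤ θ then succ l else l) := by
  classical
  induction l using WellFoundedLT.induction with
  | ind l ih =>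
    intro X hX
    by_cases hl : l ≤ θ
    · rw [if_pos hl]
      refine ⟨Unit, fun _ => Set.univ, by simp, fun _ => ?_, fun x _ => ⟨(), Set.subset_univ x⟩⟩
      rw [Cardinal.mk_univ, hX]
      exact hl
    have hl' : θ < l := not_le.1 hl
    rw [if_neg hl]
    have ih' : ∀ k < l, ∀ Y : Type, #Y = k → Cofam θ Y (max θ (succ k)) := by
      intro k hk Y hY
      refine cofam_mono (ih k hk Y hY) ?_
      split_ifs
      · exact (Cardinal.one_le_aleph0.trans hθ).trans (le_max_left _ _)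
      · exact le_max_right _ _
      · exact (le_succ k).trans (le_max_right _ _)
    obtain ⟨e⟩ : Nonempty (X ≃ l.ord.ToType) := Cardinal.eq.1 (by rw [hX, Cardinal.mk_ord_toType])
    refine cofam_equiv e ?_
    by_cases hcθ : l.ord.cof ≤ θ
    · rw [if_pos hcθ]
      by_cases hcof : l.ord.cof = ℵ₀
      · exact step_ctbl h hθ hl' hcof ih'
      · have hcof' : ℵ₀ < l.ord.cof := lt_of_le_of_ne
          (Ordinal.aleph0_le_cof_iff.2 (Ordinal.one_lt_cof_iff.2 (Cardinal.isSuccLimit_ord (hθ.trans hl'.le))))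
          (Ne.symm hcof)
        exact step_cov hcof' hcθ hl' ih'
    · rw [if_neg hcθ]
      exact step_bdd hθ hl' (not_le.1 hcθ) ih'

/-- The sizes of the families `𝒲` of subsets of `l` such that every member of `𝒲` has size `≤ θ` and every subset of `l` of
size `≤ θ` is contained in a member of `𝒲`. The least one is the cofinality of `[l]^θ` under inclusion. -/
def CofSizes (θ l : Cardinal.{0}) : Set Cardinal.{0} :=
  {c | ∃ 𝒲 : Set (Set l.ord.ToType), #𝒲 = c ∧ (∀ W ∈ 𝒲, #W ≤ θ) ∧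
    ∀ x : Set l.ord.ToType, #x ≤ θ → ∃ W ∈ 𝒲, x ⊆ W}

theorem low_succ {θ l : Cardinal.{0}} (hθ : ℵ₀ ≤ θ) (hl : θ < l) (hcθ : l.ord.cof ≤ θ) {ι : Type} (hι : #ι ≤ l)
    (W : ι → Set l.ord.ToType) (hW : ∀ i, #(W i) ≤ θ) : ∃ x : Set l.ord.ToType, #x ≤ θ ∧ ∀ i, ¬ x ⊆ W i := by
  classical
  have hω : ℵ₀ ≤ l := hθ.trans hl.le
  have hL : #l.ord.ToType = l := Cardinal.mk_ord_toType l
  obtain ⟨s, hs, hs'⟩ := Order.exists_cof_eq (l.ord.ToType)
  rw [Ordinal.cof_toType] at hs'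
  have he : Nonempty (ι ↪ l.ord.ToType) := by
    have : #ι ≤ #l.ord.ToType := by rw [hL]; exact hι
    exact this
  let V : l.ord.ToType → Set l.ord.ToType := fun b => ⋃ i : {i : ι // he.some i ≤ b}, W i
  have hV : ∀ b, #(V b) < l := by
    intro b
    refine (Cardinal.mk_iUnion_le_sum_mk).trans_lt ?_
    refine (Cardinal.sum_le_sum _ (fun _ : {i : ι // he.some i ≤ b} => θ) fun i => hW i.1).trans_lt ?_
    rw [Cardinal.sum_const']
    refine Cardinal.mul_lt_of_lt hω (lt_of_le_of_lt ?_ (mk_Iic_lt' hω b)) hl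
    let g : {i : ι // he.some i ≤ b} → Iic b := fun i => ⟨he.some i, i.2⟩
    have hg : Function.Injective g := fun x y hxy => Subtype.ext (he.some.injective (congrArg Subtype.val hxy))
    exact Cardinal.mk_le_of_injective hg
  have hx : ∀ b, ∃ y, y ∉ V b := by
    intro b
    by_contra! h
    have h1 : V b = Set.univ := Set.eq_univ_of_forall h
    have h2 := hV b
    rw [h1, Cardinal.mk_univ, hL] at h2
    exact lt_irrefl _ h2
  choose x hx using hx
  refine ⟨x '' s, (Cardinal.mk_image_le.trans hs'.le).trans hcθ, fun i hi => ?_⟩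
  obtain ⟨b, hb, hib⟩ := hs (he.some i)
  exact hx b (Set.mem_iUnion.2 ⟨⟨i, hib⟩, hi ⟨b, hb, rfl⟩⟩)

theorem sizes_exact (h : OneEach) {θ l : Cardinal.{0}} (hθ : ℵ₀ ≤ θ) (hl : θ < l) :
    IsLeast (CofSizes θ l) (if l.ord.cof ≤ θ then succ l else l) := by
  classical
  have hω : ℵ₀ ≤ l := hθ.trans hl.le
  have hlow : (if l.ord.cof ≤ θ then succ l else l) ∈ lowerBounds (CofSizes θ l) := by
    rintro c ⟨𝒲, rfl, hW1, hW2⟩
    split_ifs with hc
    · by_contra hlt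
      obtain ⟨x, hx, hxW⟩ := low_succ hθ hl hc (Order.lt_succ_iff.1 (not_le.1 hlt))
        (fun W : 𝒲 => (W : Set l.ord.ToType)) (fun W => hW1 W W.2)
      obtain ⟨W, hW, hi⟩ := hW2 x hx
      exact hxW ⟨W, hW⟩ hi
    · by_contra hlt
      have h1 : (Set.univ : Set l.ord.ToType) ⊆ ⋃ W : 𝒲, (W : Set l.ord.ToType) := by
        intro y _
        obtain ⟨W, hW, hy⟩ := hW2 {y} (by
          rw [Cardinal.mk_singleton]
          exact Cardinal.one_le_aleph0.trans hθ)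
        exact Set.mem_iUnion.2 ⟨⟨W, hW⟩, hy rfl⟩
      have h2 : #(Set.univ : Set l.ord.ToType) ≤ #𝒲 * θ := by
        refine (Cardinal.mk_le_mk_of_subset h1).trans ((Cardinal.mk_iUnion_le_sum_mk).trans ?_)
        refine (Cardinal.sum_le_sum _ (fun _ => θ) fun W : 𝒲 => hW1 W W.2).trans ?_
        rw [Cardinal.sum_const']
      rw [Cardinal.mk_univ, Cardinal.mk_ord_toType] at h2
      exact absurd (Cardinal.mul_lt_of_lt hω (not_le.1 hlt) hl) (not_lt.2 h2)
  refine ⟨?_, hlow⟩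
  obtain ⟨ι, W, h1, h2, h3⟩ := cov_all h hθ l l.ord.ToType (Cardinal.mk_ord_toType l)
  rw [if_neg (not_le.2 hl)] at h1
  have hmem : #(Set.range W) ∈ CofSizes θ l := by
    refine ⟨Set.range W, rfl, ?_, fun x hx => ?_⟩
    · rintro _ ⟨i, rfl⟩
      exact h2 i
    · obtain ⟨i, hi⟩ := h3 x hx
      exact ⟨W i, ⟨i, rfl⟩, hi⟩
  have h4 : #(Set.range W) = (if l.ord.cof ≤ θ then succ l else l) := by
    refine le_antisymm ?_ (hlow hmem)
    have h5 : #(Set.range W) ≤ #ι := Cardinal.mk_range_le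
    exact h5.trans h1
  rw [← h4]
  exact hmem

end Pool.Agent.H93.CC
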