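import Pool.Agent.H93.CC.FodorS
import Pool.Agent.H93.CC.Sch

/-!
# Products of successors along a singular cardinal of uncountable cofinality: `κ⁺` functions suffice on stationary sets
-/

set_option autoImplicit false

open Cardinal Ordinal Order Set

namespace Pool.Agent.H93.CC

theorem isClub_Ioi {α : Type} [LinearOrder α] [WellFoundedLT α] (hα : ℵ₀ < Order.cof α) (a : α) : IsClub (Ioi a) := by
  refine ⟨?_, fun b => ?_⟩
  · intro d hd hne _ δ hδ
    obtain ⟨x, hx⟩ := hne
    exact lt_of_lt_of_le (hd hx) (hδ.1 hx)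
  · obtain ⟨y, hy⟩ := exists_gt_of_small (α := α) (S := {max a b}) (by
      rw [Cardinal.mk_singleton]
      exact Cardinal.one_lt_aleph0.trans hα)
    have h1 := hy _ rfl
    exact ⟨y, (le_max_left a b).trans_lt h1, ((le_max_right a b).trans_lt h1).le⟩

theorem good_point {α : Type} [LinearOrder α] [WellFoundedLT α] (hα : ℵ₀ < Order.cof α) {T bad : Set α}
    (hT : IsStationary T) (hb : ¬ IsStationary bad) (a : α) : ∃ i ∈ T, i ∉ bad ∧ a < i := by
  obtain ⟨E, hE, hE2⟩ := not_isStationary_iff.1 hb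
  obtain ⟨i, hi, hi2⟩ := hT (IsClub.inter hα.ne' hE (isClub_Ioi hα a))
  exact ⟨i, hi, fun h => Set.disjoint_left.1 hE2 h hi2.1, hi2.2⟩

theorem famB {κ θ : Cardinal.{0}} (hcof : ℵ₀ < κ.ord.cof) (hθ : ℵ₀ ≤ θ) (hθκ : θ < κ)
    (C : Set κ.ord.ToType) (hC : #C ≤ θ) (S : Set κ.ord.ToType) (hSC : S ⊆ C) (hS : IsStationary S)
    (hSinf : ∀ i ∈ S, ℵ₀ ≤ #(Iio i)) :
    ∃ G : (succ κ).ord.ToType → ∀ i : κ.ord.ToType, (succ #(Iio i)).ord.ToType,
      ∀ h : ∀ i : κ.ord.ToType, (succ #(Iio i)).ord.ToType, ∃ α, IsStationary {i | i ∈ S ∧ h i ≤ G α i} := by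
  classical
  by_contra! hneg
  have hω : ℵ₀ < κ := hcof.trans_le (Ordinal.cof_ord_le κ)
  have hX : #κ.ord.ToType = κ := Cardinal.mk_ord_toType κ
  have hcofX : ℵ₀ < Order.cof κ.ord.ToType := by rw [Ordinal.cof_toType]; exact hcof
  let X := κ.ord.ToType
  let I := (succ κ).ord.ToType
  let R : X → Type := fun i => (succ #(Iio i)).ord.ToType
  have hI : #I = succ κ := Cardinal.mk_ord_toType (succ κ)
  have hcofI : Order.cof I = succ κ := by
    rw [Ordinal.cof_toType]
    exact (isRegular_succ hω.le).cof_ord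
  have e : ∀ β : I, Nonempty (Iio β ↪ X) := by
    intro β
    have h1 : #(Iio β) < #I := mk_Iio_lt β (by rw [hI]; exact (Ordinal.type_toType _).symm)
    rw [hI] at h1
    have h2 : #(Iio β) ≤ #X := by
      rw [hX]
      exact Order.lt_succ_iff.1 h1
    exact h2
  let B : I → X → Set I := fun β i => {γ | ∃ h : γ < β, (e β).some ⟨γ, h⟩ < i}
  have hB : ∀ β i, #(B β i) ≤ #(Iio i) := by
    intro β i
    let g : B β i → Iio i := fun γ => ⟨(e β).some ⟨γ.1, γ.2.choose⟩, γ.2.choose_spec⟩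
    have hg : Function.Injective g := by
      intro x y hxy
      have h1 : (e β).some ⟨x.1, x.2.choose⟩ = (e β).some ⟨y.1, y.2.choose⟩ := congrArg Subtype.val hxy
      have h2 := (e β).some.injective h1
      have h3 : (x.1 : I) = y.1 := congrArg (fun z : Iio β => (z : I)) h2
      exact Subtype.ext h3
    exact Cardinal.mk_le_of_injective hg
  have hne : ∀ i : X, Nonempty (R i) := by
    intro i
    rw [← Cardinal.mk_ne_zero_iff, Cardinal.mk_ord_toType]
    exact Order.succ_ne_bot _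
  have hub : ∀ (α : I) (ih : (γ : I) → γ < α → ∀ i, R i) (β : I) (i : X),
      ∃ b : R i, i ∈ S → ∀ γ (h : γ < α), γ ∈ B β i → ih γ h i < b := by
    intro α ih β i
    by_cases hi : i ∈ S
    · by_contra! hb
      let s : Set (R i) := {y | ∃ γ, ∃ h : γ < α, γ ∈ B β i ∧ y = ih γ h i}
      have h1 : IsCofinal s := by
        intro b
        obtain ⟨-, γ, h, hγ, hle⟩ := hb b
        exact ⟨ih γ h i, ⟨γ, h, hγ, rfl⟩, hle⟩
      have h2 := Order.cof_le h1
      rw [Ordinal.cof_toType, (isRegular_succ (hSinf i hi)).cof_ord] at h2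
      let g : s → B β i := fun y => ⟨y.2.choose, y.2.choose_spec.choose_spec.1⟩
      have hg : Function.Injective g := by
        intro x y hxy
        have hx := x.2.choose_spec.choose_spec.2
        have hy := y.2.choose_spec.choose_spec.2
        have h3 : x.2.choose = y.2.choose := congrArg Subtype.val hxy
        apply Subtype.ext
        rw [hx, hy]
        have h4 : ∀ (a b : I) (ha : a < α) (hb : b < α), a = b → ih a ha i = ih b hb i := by
          intro a b ha hb hab
          subst hab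
          rfl
        exact h4 _ _ _ _ h3
      exact absurd ((Cardinal.mk_le_of_injective hg).trans (hB β i)) (not_le.2 (Order.succ_le_iff.1 h2))
    · exact ⟨(hne i).some, fun h => absurd h hi⟩
  choose H hH using hub
  have hstep : ∀ (α : I) (ih : (γ : I) → γ < α → ∀ i, R i), ∃ g : ∀ i, R i,
      ∀ β, ¬ IsStationary {i | i ∈ S ∧ g i ≤ H α ih β i} := by
    intro α ih
    obtain ⟨g, hg⟩ := hneg (fun β => H α ih β)
    exact ⟨g, hg⟩
  let G : I → ∀ i, R i := (wellFounded_lt (α := I)).fix (fun α ih => (hstep α ih).choose)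
  have hG : ∀ α β, ¬ IsStationary {i | i ∈ S ∧ ¬ ∀ γ, γ < α → γ ∈ B β i → G γ i < G α i} := by
    intro α β hst
    have h1 := (hstep α (fun γ _ => G γ)).choose_spec β
    have h2 : G α = (hstep α (fun γ _ => G γ)).choose := WellFounded.fix_eq _ _ _
    rw [← h2] at h1
    refine h1 (hst.mono ?_)
    rintro i ⟨hi, hi2⟩
    refine ⟨hi, not_lt.1 fun hlt => hi2 fun γ hγ hγB => ?_⟩
    exact (hH α (fun γ _ => G γ) β i hi γ hγ hγB).trans hlt
  obtain ⟨h, hh⟩ := hneg G
  have hQ : ∀ i ∈ S, Nonempty (Iic (h i) ↪ Iio i) := by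
    intro i hi
    have h4 : #(Iic (h i)) ≤ #(Iio i) :=
      Order.lt_succ_iff.1 (mk_Iic_lt' ((hSinf i hi).trans (le_succ _)) (h i))
    exact h4
  let T : I → Set X := fun α => {i | i ∈ S ∧ G α i ≤ h i}
  have hT : ∀ α, IsStationary (T α) := by
    intro α
    have h3 : S = T α ∪ {i | i ∈ S ∧ h i ≤ G α i} := by
      ext i
      constructor
      · intro hi
        rcases le_total (G α i) (h i) with h4 | h4
        · exact Or.inl ⟨hi, h4⟩
        · exact Or.inr ⟨hi, h4⟩
      · rintro (hi | hi)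
        · exact hi.1
        · exact hi.1
    have h5 := hS
    rw [h3] at h5
    exact ((isStationary_union_iff hcofX.ne').1 h5).resolve_right (hh α)
  let u : I → X → X := fun α i => if hi : i ∈ T α then ((hQ i hi.1).some ⟨G α i, hi.2⟩ : Iio i) else i
  have hu : ∀ α, ∀ i ∈ T α, u α i < i := by
    intro α i hi
    simp only [u, dif_pos hi]
    exact ((hQ i hi.1).some ⟨G α i, hi.2⟩).2
  have hΓ : ∀ α, ∃ γ, IsStationary {i | i ∈ T α ∧ u α i ≤ γ} := fun α => fodor_strong hcofX (hT α) (u α) (hu α)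
  choose Γ hΓ using hΓ
  have hbig : ∃ γ : X, κ < #{α : I | Γ α = γ} := by
    by_contra! hcon
    have h1 : (Set.univ : Set I) ⊆ ⋃ γ, {α : I | Γ α = γ} := by
      intro y _
      exact Set.mem_iUnion.2 ⟨Γ y, rfl⟩
    have h2 : #(Set.univ : Set I) ≤ κ := by
      refine (Cardinal.mk_le_mk_of_subset h1).trans ((Cardinal.mk_iUnion_le_sum_mk).trans ?_)
      refine (Cardinal.sum_le_sum _ (fun _ => κ) hcon).trans ?_
      rw [Cardinal.sum_const', hX]
      exact (Cardinal.mul_eq_self hω.le).le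
    rw [Cardinal.mk_univ, hI] at h2
    exact absurd (Order.lt_succ κ) (not_lt.2 h2)
  obtain ⟨γ, hγ⟩ := hbig
  have hm : max θ #(Iic γ) < κ := max_lt hθκ (mk_Iic_lt' hω.le γ)
  obtain ⟨A, hA1, hA2⟩ := Cardinal.le_mk_iff_exists_subset.1 ((Order.succ_le_of_lt hm).trans hγ.le)
  obtain ⟨β, hβ⟩ : ∃ β : I, ∀ α ∈ A, α < β := by
    apply exists_gt_of_small
    rw [hA2, hcofI]
    exact (Order.succ_le_of_lt hm).trans_lt (Order.lt_succ κ)
  have hN : ∀ α : A, ∃ i, i ∈ T α ∧ u α i ≤ γ ∧ (α : I) ∈ B β i ∧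
      ∀ γ', γ' < (α : I) → γ' ∈ B β i → G γ' i < G α i := by
    intro α
    obtain ⟨i, hi, hi2, hi3⟩ := good_point hcofX (hΓ α) (hG α β) ((e β).some ⟨α, hβ α α.2⟩)
    have h1 : Γ α = γ := hA1 α.2
    refine ⟨i, hi.1, ?_, ⟨hβ α α.2, hi3⟩, ?_⟩
    · rw [← h1]
      exact hi.2
    · by_contra h2
      exact hi2 ⟨hi.1.1, h2⟩
  choose N hN1 hN2 hN3 hN4 using hN
  have hbig2 : ∃ i : C, max θ #(Iic γ) < #{α : A | N α = i} := by
    by_contra! hcon
    have h1 : (Set.univ : Set A) ⊆ ⋃ i : C, {α : A | N α = i} := by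
      intro y _
      exact Set.mem_iUnion.2 ⟨⟨N y, hSC (hN1 y).1⟩, rfl⟩
    have h2 : #(Set.univ : Set A) ≤ max θ #(Iic γ) := by
      refine (Cardinal.mk_le_mk_of_subset h1).trans ((Cardinal.mk_iUnion_le_sum_mk).trans ?_)
      refine (Cardinal.sum_le_sum _ (fun _ => max θ #(Iic γ)) hcon).trans ?_
      rw [Cardinal.sum_const']
      exact (mul_le_mul' (hC.trans (le_max_left θ #(Iic γ))) le_rfl).trans
        (Cardinal.mul_eq_self (hθ.trans (le_max_left _ _))).le
    rw [Cardinal.mk_univ, hA2] at h2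
    exact absurd (Order.lt_succ _) (not_lt.2 h2)
  obtain ⟨i, hi⟩ := hbig2
  let g : {α : A | N α = i} → Iic γ := fun α => ⟨u α.1 i, by
    have h1 := hN2 α.1
    rw [α.2] at h1
    exact h1⟩
  have hg : Function.Injective g := by
    intro x y hxy
    have h1 : u x.1 i = u y.1 i := congrArg Subtype.val hxy
    have hx1 := hN1 x.1
    have hy1 := hN1 y.1
    have hx3 := hN3 x.1
    have hy3 := hN3 y.1
    have hx4 := hN4 x.1
    have hy4 := hN4 y.1
    rw [x.2] at hx1 hx3 hx4
    rw [y.2] at hy1 hy3 hy4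
    simp only [u, dif_pos hx1, dif_pos hy1] at h1
    have h2 := (hQ i hx1.1).some.injective (Subtype.ext h1)
    have h3 : G x.1 i = G y.1 i := congrArg Subtype.val h2
    rcases lt_trichotomy (x.1 : I) (y.1 : I) with h4 | h4 | h4
    · exact absurd h3 (hy4 _ h4 hx3).ne
    · exact Subtype.ext (Subtype.ext h4)
    · exact absurd h3.symm (hx4 _ h4 hy3).ne
  exact absurd ((Cardinal.mk_le_of_injective hg).trans (le_max_right θ _)) (not_le.2 hi)

end Pool.Agent.H93.CC
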