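import Mathlib

/-!
# Chang's Conjecture: definitions (MP_026a7e_lc)
-/

set_option autoImplicit false

open Cardinal Order Set
open FirstOrder.Language.Structure (RelMap)

namespace Pool.Agent.H93.CC

/-- The instance `(κ, l) ↠ (μ, ν)` of Chang's Conjecture: for every first-order structure `M` of cardinality `κ` in a
countable language with a unary predicate `p` whose interpretation has cardinality `l` there is an elementary substructure
`B` of cardinality `μ` such that the interpretation of `p` in `B` has cardinality `ν`. -/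
def Chang (κ l μ ν : Cardinal.{0}) : Prop :=
  ∀ (L : FirstOrder.Language.{0, 0}) (p : L.Relations 1) (M : Type) [L.Structure M], L.card ≤ ℵ₀ → #M = κ →
    #{x : M | RelMap p ![x]} = l → ∃ B : L.ElementarySubstructure M, #B = μ ∧ #{x : M | x ∈ B ∧ RelMap p ![x]} = ν

/-- The statement `S` of the problem: `(μ⁺, μ) ↠ (ν⁺, ν)` for all infinite cardinals `ν < μ` of countable cofinality. -/
def GlobalChang : Prop :=
  ∀ ν μ : Cardinal.{0}, ℵ₀ ≤ ν → ν < μ → ν.ord.cof = ℵ₀ → μ.ord.cof = ℵ₀ → Chang (succ μ) μ (succ ν) ν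

/-- Every uncountable `μ` of countable cofinality has some infinite `ν < μ` with `(μ⁺, μ) ↠ (ν⁺, ν)`. -/
def OneEach : Prop :=
  ∀ μ : Cardinal.{0}, ℵ₀ < μ → μ.ord.cof = ℵ₀ → ∃ ν, ℵ₀ ≤ ν ∧ ν < μ ∧ Chang (succ μ) μ (succ ν) ν

end Pool.Agent.H93.CC
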