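import Mathlib

/-!
# Pressing down on stationary sets, weak form (MP_026a7e_lc)

PROOF. Suppose not: for every `γ` the set `T γ = {i ∈ T | g i ≤ γ}` is not cofinal, let `G γ` be the least element of `α`
larger than all its elements (monotone in `γ`). `D = {δ | ∀ γ < δ, G γ ≤ δ}` is a club: closed under suprema (if `δ` is the
supremum of a nonempty `d ⊆ D` and `γ < δ` take `δ' ∈ d` with `γ < δ'`); cofinal: given `a`, let `a 0 = a`, `a (n+1) > a n`
with `a (n+1) ≥ G (a n)`, `δ = sup a n` exists as `cof α > ℵ₀` (see `IsClub.sInter` in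
Mathlib/SetTheory/Cardinal/Cofinality/Club.lean for the technique with `BddAbove.of_not_isCofinal`, `csSup`). The set `{δ | δ is
no successor and not bottom}` (`∀ γ < δ, ∃ γ', γ < γ' ∧ γ' < δ`) is a club as well (same iteration; or put it into `D`: ask in
`D` also `∀ γ < δ, ∃ γ' , γ < γ' ∧ γ' < δ` and `δ` not the bottom). Take `δ ∈ T ∩ D`: `g δ < δ`, so `δ ∈ T (g δ)`, `δ < G (g δ) ≤ δ`.
-/

set_option autoImplicit false

open Cardinal Order Set

namespace Pool.Agent.H93.CC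

theorem fodor {α : Type} [LinearOrder α] [WellFoundedLT α] (hα : ℵ₀ < Order.cof α) {T : Set α} (hT : IsStationary T)
    (g : α → α) (hg : ∀ i ∈ T, g i < i) : ∃ γ, IsCofinal {i | i ∈ T ∧ g i ≤ γ} := by
  by_contra hcon
  push Not at hcon
  have hU : ∀ γ : α, ({a | ∀ b ∈ {i | i ∈ T ∧ g i ≤ γ}, b < a} : Set α).Nonempty := by
    intro γ
    obtain ⟨a, ha⟩ := not_isCofinal_iff.1 (hcon γ)
    refine ⟨a, fun b hb => ?_⟩
    have := ha b hb
    first
      | exact this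
      | exact not_le.1 this
  obtain ⟨G, hG⟩ : ∃ G : α → α, G = fun γ => WellFounded.min (wellFounded_lt (α := α)) _ (hU γ) := ⟨_, rfl⟩
  have hG1 : ∀ γ, ∀ b ∈ {i | i ∈ T ∧ g i ≤ γ}, b < G γ := by
    intro γ
    rw [hG]
    exact WellFounded.min_mem (wellFounded_lt (α := α)) _ (hU γ)
  have hG2 : ∀ γ a, (∀ b ∈ {i | i ∈ T ∧ g i ≤ γ}, b < a) → G γ ≤ a := by
    intro γ a ha
    rw [hG]
    exact not_lt.1 (WellFounded.not_lt_min (wellFounded_lt (α := α))
      {a | ∀ b ∈ {i | i ∈ T ∧ g i ≤ γ}, b < a} ha)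
  have hmono : ∀ γ γ', γ ≤ γ' → G γ ≤ G γ' := fun γ γ' h =>
    hG2 γ _ fun b hb => hG1 γ' b ⟨hb.1, hb.2.trans h⟩
  have hD : IsClub {δ : α | ∀ γ < δ, G γ ≤ δ} := by
    refine ⟨?_, ?_⟩
    · intro d hd hne _ δ hδ γ hγ
      obtain ⟨δ', h1, h2⟩ := (lt_isLUB_iff hδ).1 hγ
      exact (hd h1 γ h2).trans (hδ.1 h1)
    · intro a
      obtain ⟨s, hs⟩ : ∃ s : ℕ → α, s = fun n => Nat.rec a (fun _ x => max x (G x)) n := ⟨_, rfl⟩
      have hs0 : s 0 = a := by
        rw [hs]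
        rfl
      have hs1 : ∀ n, s (n + 1) = max (s n) (G (s n)) := by
        intro n
        rw [hs]
      have hb : BddAbove (range s) := by
        refine .of_not_isCofinal fun h ↦ (cof_le h).not_gt (hα.trans_le' ?_)
        simpa using mk_range_le_lift (f := s)
      have hlub : IsLUB (range s) (WellFounded.min (wellFounded_lt (α := α)) _ hb) :=
        ⟨WellFounded.min_mem (wellFounded_lt (α := α)) _ hb,
          fun u hu => not_lt.1 (WellFounded.not_lt_min (wellFounded_lt (α := α)) _ hu)⟩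
      refine ⟨_, ?_, (hs0 ▸ hlub.1 ⟨0, rfl⟩ : a ≤ _)⟩
      intro γ hγ
      obtain ⟨_, ⟨n, rfl⟩, h2⟩ := (lt_isLUB_iff hlub).1 hγ
      exact ((hmono _ _ h2.le).trans (le_max_right (s n) _)).trans
        ((hs1 n).symm.le.trans (hlub.1 ⟨n + 1, rfl⟩))
  obtain ⟨δ, hδT, hδD⟩ := hT hD
  exact absurd (hG1 (g δ) δ ⟨hδT, le_rfl⟩) (not_lt.2 (hδD _ (hg δ hδT)))

end Pool.Agent.H93.CC
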