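import Mathlib

/-!
# Pressing down on stationary sets, strong form
-/

set_option autoImplicit false

open Cardinal Order Set

namespace Pool.Agent.H93.CC

theorem exists_gt_of_small {α : Type} [LinearOrder α] {S : Set α} (hS : #S < Order.cof α) : ∃ b, ∀ y ∈ S, y < b := by
  by_contra! hb
  have h1 : IsCofinal S := by
    intro b
    obtain ⟨y, hy, hby⟩ := hb b
    exact ⟨y, hy, hby⟩
  exact absurd (Order.cof_le h1) (not_le.2 hS)

theorem exists_tower {α : Type} [LinearOrder α] [WellFoundedLT α] (hα : ℵ₀ < Order.cof α) :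
    ∃ k : (Order.cof α).ord.ToType → α, StrictMono k ∧ ∀ a, ∃ j, a ≤ k j := by
  classical
  obtain ⟨s, hs, hs'⟩ := Order.exists_cof_eq α
  have he : Nonempty ((Order.cof α).ord.ToType ≃ s) := Cardinal.eq.1 (by rw [Cardinal.mk_ord_toType, hs'])
  obtain ⟨e⟩ := he
  have hstep : ∀ (j : (Order.cof α).ord.ToType) (ih : (i : (Order.cof α).ord.ToType) → i < j → α),
      ∃ b, (e j : α) < b ∧ ∀ i (h : i < j), ih i h < b := by
    intro j ih
    have h1 : #(Iio j) < Order.cof α := by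
      have := mk_Iio_lt j (by rw [Cardinal.mk_ord_toType]; exact (Ordinal.type_toType _).symm)
      rwa [Cardinal.mk_ord_toType] at this
    let S : Set α := Set.range fun o : Option (Iio j) => match o with
      | none => (e j : α)
      | some i => ih i.1 i.2
    have h2 : #S < Order.cof α := by
      refine Cardinal.mk_range_le.trans_lt ?_
      rw [Cardinal.mk_option]
      exact Cardinal.add_lt_of_lt hα.le h1 (Cardinal.one_lt_aleph0.trans hα)
    obtain ⟨b, hb⟩ := exists_gt_of_small h2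
    exact ⟨b, hb _ ⟨none, rfl⟩, fun i h => hb _ ⟨some ⟨i, h⟩, rfl⟩⟩
  let k : (Order.cof α).ord.ToType → α :=
    (wellFounded_lt (α := (Order.cof α).ord.ToType)).fix (fun j ih => (hstep j ih).choose)
  have hk : ∀ j, (e j : α) < k j ∧ ∀ i, i < j → k i < k j := by
    intro j
    have h1 := (hstep j (fun i _ => k i)).choose_spec
    have h2 : k j = (hstep j (fun i _ => k i)).choose := WellFounded.fix_eq _ _ _
    rw [h2]
    exact h1
  refine ⟨k, fun i j hij => (hk j).2 i hij, fun a => ?_⟩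
  obtain ⟨x, hx, hax⟩ := hs a
  refine ⟨e.symm ⟨x, hx⟩, hax.trans ?_⟩
  have h3 := (hk (e.symm ⟨x, hx⟩)).1
  rw [Equiv.apply_symm_apply] at h3
  exact h3.le

theorem fodor_strong {α : Type} [LinearOrder α] [WellFoundedLT α] (hα : ℵ₀ < Order.cof α) {T : Set α}
    (hT : IsStationary T) (g : α → α) (hg : ∀ i ∈ T, g i < i) : ∃ γ, IsStationary {i | i ∈ T ∧ g i ≤ γ} := by
  classical
  by_contra! hcon
  have hD : ∀ γ, ∃ D, IsClub D ∧ Disjoint {i | i ∈ T ∧ g i ≤ γ} D := fun γ => not_isStationary_iff.1 (hcon γ)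
  choose D hD1 hD2 using hD
  obtain ⟨k, hk1, hk2⟩ := exists_tower hα
  have hE : IsClub {δ : α | (∀ j, k j < δ → δ ∈ D (k j)) ∧ ∀ γ < δ, ∃ j, γ ≤ k j ∧ k j < δ} := by
    refine ⟨?_, ?_⟩
    · intro d hd hne _ δ hδ
      refine ⟨fun j hj => ?_, fun γ hγ => ?_⟩
      · obtain ⟨δ', h1, h2⟩ := (lt_isLUB_iff hδ).1 hj
        refine (hD1 (k j)).isLUB_mem (t := {x | x ∈ d ∧ δ' ≤ x}) ?_ ⟨δ', h1, le_rfl⟩ ?_
        · rintro x ⟨hx1, hx2⟩
          exact (hd hx1).1 j (h2.trans_le hx2)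
        · refine ⟨fun x hx => hδ.1 hx.1, fun u hu => hδ.2 fun x hx => ?_⟩
          rcases le_total δ' x with h3 | h3
          · exact hu ⟨hx, h3⟩
          · exact h3.trans (hu ⟨h1, le_rfl⟩)
      · obtain ⟨δ', h1, h2⟩ := (lt_isLUB_iff hδ).1 hγ
        obtain ⟨j, h3, h4⟩ := (hd h1).2 γ h2
        exact ⟨j, h3, h4.trans_le (hδ.1 h1)⟩
    · intro a
      have hnext : ∀ x : α, ∃ y, x < y ∧ (∃ j, x ≤ k j ∧ k j < y) ∧ ∀ j, k j < x → y ∈ D (k j) := by
        intro x
        obtain ⟨j₁, hj₁⟩ := hk2 x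
        obtain ⟨z, hz⟩ : ∃ z, k j₁ < z := by
          obtain ⟨b, hb⟩ := exists_gt_of_small (α := α) (S := {k j₁}) (by
            rw [Cardinal.mk_singleton]
            exact Cardinal.one_lt_aleph0.trans hα)
          exact ⟨b, hb _ rfl⟩
        have h1 : #{j // k j < x} < Order.cof α := by
          have h2 : #(Iio j₁) < Order.cof α := by
            have := mk_Iio_lt j₁ (by rw [Cardinal.mk_ord_toType]; exact (Ordinal.type_toType _).symm)
            rwa [Cardinal.mk_ord_toType] at this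
          refine lt_of_le_of_lt ?_ h2
          exact Cardinal.mk_le_mk_of_subset (s := {j | k j < x}) fun j hj => hk1.lt_iff_lt.1 (lt_of_lt_of_le hj hj₁)
        have h3 : IsClub (⋂ j : {j // k j < x}, D (k j.1)) :=
          IsClub.iInter hα.ne' (by simpa using h1) fun j => hD1 _
        obtain ⟨y, hy1, hy2⟩ := h3.isCofinal z
        refine ⟨y, (hj₁.trans_lt hz).trans_le hy2, ⟨j₁, hj₁, hz.trans_le hy2⟩, fun j hj => ?_⟩
        exact Set.mem_iInter.1 hy1 ⟨j, hj⟩
      choose y hy1 hy2 hy3 using hnext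
      obtain ⟨s, hs⟩ : ∃ s : ℕ → α, s = fun n => Nat.rec a (fun _ x => y x) n := ⟨_, rfl⟩
      have hs0 : s 0 = a := by
        rw [hs]
        rfl
      have hs1 : ∀ n, s (n + 1) = y (s n) := by
        intro n
        rw [hs]
      have hmono : StrictMono s := strictMono_nat_of_lt_succ fun n => by
        rw [hs1]
        exact hy1 _
      have hb : BddAbove (range s) := by
        refine .of_not_isCofinal fun h ↦ (cof_le h).not_gt (hα.trans_le' ?_)
        simpa using mk_range_le_lift (f := s)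
      have hlub : IsLUB (range s) (WellFounded.min (wellFounded_lt (α := α)) _ hb) :=
        ⟨WellFounded.min_mem (wellFounded_lt (α := α)) _ hb,
          fun u hu => not_lt.1 (WellFounded.not_lt_min (wellFounded_lt (α := α)) _ hu)⟩
      refine ⟨_, ⟨fun j hj => ?_, fun γ hγ => ?_⟩, (hs0 ▸ hlub.1 ⟨0, rfl⟩ : a ≤ _)⟩
      · obtain ⟨_, ⟨n, rfl⟩, h2⟩ := (lt_isLUB_iff hlub).1 hj
        refine (hD1 (k j)).isLUB_mem (t := Set.range fun m => s (n + m + 1)) ?_ ⟨_, ⟨0, rfl⟩⟩ ?_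
        · rintro _ ⟨m, rfl⟩
          change s (n + m + 1) ∈ D (k j)
          rw [hs1]
          exact hy3 _ j (h2.trans_le (hmono.monotone (Nat.le_add_right n m)))
        · refine ⟨?_, fun u hu => hlub.2 ?_⟩
          · rintro _ ⟨m, rfl⟩
            exact hlub.1 ⟨_, rfl⟩
          · rintro _ ⟨m, rfl⟩
            exact (hmono.monotone (by omega : m ≤ n + m + 1)).trans (hu ⟨m, rfl⟩)
      · obtain ⟨_, ⟨n, rfl⟩, h2⟩ := (lt_isLUB_iff hlub).1 hγ
        obtain ⟨j, h3, h4⟩ := hy2 (s n)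
        refine ⟨j, h2.le.trans h3, h4.trans_le ?_⟩
        rw [← hs1]
        exact hlub.1 ⟨n + 1, rfl⟩
  obtain ⟨δ, hδT, hδE1, hδE2⟩ := hT hE
  obtain ⟨j, h1, h2⟩ := hδE2 (g δ) (hg δ hδT)
  exact Set.disjoint_left.1 (hD2 (k j)) ⟨hδT, h1⟩ (hδE1 j h2)

end Pool.Agent.H93.CC
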