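import Pool.Agent.H93.CC.Prod

/-!
# One instance of Chang's Conjecture: reduced products of regular cardinals have short unbounded families
-/

set_option autoImplicit false

open Cardinal Ordinal Order Set Filter

namespace Pool.Agent.H93.CC

theorem le_atTop {μ : Cardinal.{0}} {lam : ℕ → Cardinal.{0}} (hlt : ∀ n, lam n < μ) {𝓕 : Filter ℕ}
    (hlim : ∀ c < μ, ∀ᶠ n in 𝓕, c < lam n) : 𝓕 ≤ atTop := by
  rw [← Nat.cofinite_eq_atTop, Filter.le_cofinite_iff_compl_singleton_mem]
  intro n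
  filter_upwards [hlim _ (hlt n)] with m hm h
  have h1 : m = n := h
  rw [h1] at hm
  exact lt_irrefl _ hm

theorem prod_unbddF {μ ν : Cardinal.{0}} (hν : ℵ₀ ≤ ν) (hνμ : ν < μ) (hcof : μ.ord.cof = ℵ₀)
    (hCh : Chang (succ μ) μ (succ ν) ν) (lam : ℕ → Cardinal.{0}) (hreg : ∀ n, (lam n).IsRegular)
    (hlt : ∀ n, lam n < μ) (𝓕 : Filter ℕ) [NeBot 𝓕] (hlim : ∀ c < μ, ∀ᶠ n in 𝓕, c < lam n) :
    ∃ F : (succ μ).ord.ToType → ∀ n, (lam n).ord.ToType, ∀ g : ∀ n, (lam n).ord.ToType,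
      ∃ α, ∃ᶠ n in 𝓕, g n < F α n := by
  classical
  by_contra! hdir
  have hμ : ℵ₀ ≤ μ := hν.trans hνμ.le
  obtain ⟨Kn, -, hKn, hKU⟩ := exists_filtration hμ hcof
  let K := μ.ord.ToType
  let I := (succ μ).ord.ToType
  have hK : #K = μ := Cardinal.mk_ord_toType μ
  have hI : #I = succ μ := Cardinal.mk_ord_toType (succ μ)
  let L : ℕ → Set K := fun n => {x | ∃ j, j ≤ n ∧ x ∈ Kn j ∧ #(Kn j) < lam n}
  have hL : ∀ n, #(L n) < lam n := fun n => union_small (hreg n).aleph0_le Kn n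
  have hLU : ∀ x : K, ∀ᶠ n in 𝓕, x ∈ L n := by
    intro x
    obtain ⟨j, hj⟩ := hKU x
    filter_upwards [hlim _ (hKn j), (le_atTop hlt hlim) (eventually_ge_atTop j)] with n h1 h2
    exact ⟨j, h2, hj, h1⟩
  have e : ∀ β : I, Nonempty (Iio β ↪ K) := by
    intro β
    have h1 : #(Iio β) < #I := mk_Iio_lt β (by rw [hI]; exact (Ordinal.type_toType _).symm)
    rw [hI] at h1
    have h2 : #(Iio β) ≤ #K := by
      rw [hK]
      exact Order.lt_succ_iff.1 h1
    exact h2
  let B : I → ℕ → Set I := fun β n => {γ | ∃ h : γ < β, (e β).some ⟨γ, h⟩ ∈ L n}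
  have hB : ∀ β n, #(B β n) < lam n := by
    intro β n
    refine lt_of_le_of_lt ?_ (hL n)
    let g : B β n → L n := fun γ => ⟨(e β).some ⟨γ.1, γ.2.choose⟩, γ.2.choose_spec⟩
    have hg : Function.Injective g := by
      intro x y hxy
      have h1 : (e β).some ⟨x.1, x.2.choose⟩ = (e β).some ⟨y.1, y.2.choose⟩ := congrArg Subtype.val hxy
      have h2 := (e β).some.injective h1
      have h3 : (x.1 : I) = y.1 := congrArg (fun z : Iio β => (z : I)) h2
      exact Subtype.ext h3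
    exact Cardinal.mk_le_of_injective hg
  have hBU : ∀ β γ, γ < β → ∀ᶠ n in 𝓕, γ ∈ B β n := by
    intro β γ h
    filter_upwards [hLU ((e β).some ⟨γ, h⟩)] with n hn
    exact ⟨h, hn⟩
  have hub : ∀ (α : I) (ih : (γ : I) → γ < α → ∀ n, (lam n).ord.ToType) (β : I) (n : ℕ),
      ∃ b : (lam n).ord.ToType, ∀ γ (h : γ < α), γ ∈ B β n → ih γ h n < b := by
    intro α ih β n
    by_contra! hb
    let s : Set (lam n).ord.ToType := {y | ∃ γ, ∃ h : γ < α, γ ∈ B β n ∧ y = ih γ h n}
    have h1 : IsCofinal s := by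
      intro b
      obtain ⟨γ, h, hγ, hle⟩ := hb b
      exact ⟨ih γ h n, ⟨γ, h, hγ, rfl⟩, hle⟩
    have h2 := Order.cof_le h1
    rw [Ordinal.cof_toType, (hreg n).cof_ord] at h2
    let g : s → B β n := fun y => ⟨y.2.choose, y.2.choose_spec.choose_spec.1⟩
    have hg : Function.Injective g := by
      intro x y hxy
      have hx := x.2.choose_spec.choose_spec.2
      have hy := y.2.choose_spec.choose_spec.2
      have h3 : x.2.choose = y.2.choose := congrArg Subtype.val hxy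
      apply Subtype.ext
      rw [hx, hy]
      have h4 : ∀ (a b : I) (ha : a < α) (hb : b < α), a = b → ih a ha n = ih b hb n := by
        intro a b ha hb hab
        subst hab
        rfl
      exact h4 _ _ _ _ h3
    exact absurd ((Cardinal.mk_le_of_injective hg).trans_lt (hB β n)) (not_lt.2 h2)
  choose H hH using hub
  have hstep : ∀ (α : I) (ih : (γ : I) → γ < α → ∀ n, (lam n).ord.ToType), ∃ g : ∀ n, (lam n).ord.ToType,
      ∀ β, ∀ᶠ n in 𝓕, H α ih β n ≤ g n := by
    intro α ih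
    obtain ⟨g, hg⟩ := hdir (fun β => H α ih β)
    exact ⟨g, hg⟩
  let f : I → ∀ n, (lam n).ord.ToType := (wellFounded_lt (α := I)).fix (fun α ih => (hstep α ih).choose)
  have hf : ∀ α β, ∀ᶠ n in 𝓕, ∀ γ, γ < α → γ ∈ B β n → f γ n < f α n := by
    intro α β
    have h1 := (hstep α (fun γ _ => f γ)).choose_spec β
    have h2 : f α = (hstep α (fun γ _ => f γ)).choose := WellFounded.fix_eq _ _ _
    filter_upwards [h1] with n hn γ hγ hγB
    rw [h2]
    exact (hH α (fun γ _ => f γ) β n γ hγ hγB).trans_le hn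
  -- the predicate and the code
  obtain ⟨P, hP⟩ : ∃ P : Set I, #P = μ := Cardinal.le_mk_iff_exists_set.1 (by rw [hI]; exact le_succ μ)
  have hcode : Nonempty ((Σ n, (lam n).ord.ToType) ↪ P) := by
    have : #(Σ n, (lam n).ord.ToType) ≤ #P := by
      rw [Cardinal.mk_sigma, hP]
      refine (Cardinal.sum_le_sum _ (fun _ => μ) fun n => ?_).trans ?_
      · rw [Cardinal.mk_ord_toType]
        exact (hlt n).le
      · rw [Cardinal.sum_const', Cardinal.mk_nat]
        exact (mul_le_mul' hμ le_rfl).trans (Cardinal.mul_eq_self hμ).le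
    exact this
  let code := hcode.some
  let F : ℕ → I → I := fun n α => (code ⟨n, f α n⟩ : I)
  obtain ⟨Y, hY1, hY2, hY3⟩ := chang_fun hCh hI P hP F
  have hbdd : ∃ β : I, ∀ y ∈ Y, y < β := by
    by_contra! h
    have h1 : IsCofinal Y := fun a => by
      obtain ⟨y, hy, hay⟩ := h a
      exact ⟨y, hy, hay⟩
    have h2 := Order.cof_le h1
    rw [hY1] at h2
    have h3 : Order.cof I = succ μ := by
      rw [Ordinal.cof_toType]
      exact (isRegular_succ hμ).cof_ord
    rw [h3] at h2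
    exact absurd (Order.succ_le_of_lt hνμ) (not_le.2 (Order.succ_le_iff.1 h2))
  obtain ⟨β, hβ⟩ := hbdd
  have hN : ∀ α : Y, ∃ n, (α : I) ∈ B β n ∧ ∀ γ, γ < (α : I) → γ ∈ B β n → f γ n < f α n := by
    intro α
    exact ((hBU β α (hβ α α.2)).and (hf α β)).exists
  choose N hN using hN
  have hbigpart : ∃ n, ν < #{α : Y | N α = n} := by
    by_contra! h
    have h1 : (Set.univ : Set Y) ⊆ ⋃ n, {α : Y | N α = n} := by
      intro y _
      exact Set.mem_iUnion.2 ⟨N y, rfl⟩
    have h2 : #Y ≤ ν := by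
      rw [← Cardinal.mk_univ]
      refine (Cardinal.mk_le_mk_of_subset h1).trans ((Cardinal.mk_iUnion_le_sum_mk).trans ?_)
      refine (Cardinal.sum_le_sum _ (fun _ : ℕ => ν) h).trans ?_
      rw [Cardinal.sum_const']
      simp only [Cardinal.mk_nat]
      exact (mul_le_mul' hν le_rfl).trans (Cardinal.mul_eq_self hν).le
    rw [hY1] at h2
    exact absurd (Order.lt_succ ν) (not_lt.2 h2)
  obtain ⟨n, hn⟩ := hbigpart
  let g : {α : Y | N α = n} → ↥(Y ∩ P) := fun α =>
    ⟨F n α.1, hY3 _ _ α.1.2, (code ⟨n, f α.1 n⟩).2⟩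
  have hg : Function.Injective g := by
    intro x y hxy
    have h1 : f x.1 n = f y.1 n := by
      have h2 : (code ⟨n, f x.1 n⟩ : I) = (code ⟨n, f y.1 n⟩ : I) := congrArg (fun z : ↥(Y ∩ P) => (z : I)) hxy
      have h3 := code.injective (Subtype.ext h2)
      exact eq_of_heq (Sigma.mk.inj h3).2
    have hx := hN x.1
    have hy := hN y.1
    rw [x.2] at hx
    rw [y.2] at hy
    rcases lt_trichotomy (x.1 : I) (y.1 : I) with h | h | h
    · exact absurd h1 (hy.2 _ h hx.1).ne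
    · exact Subtype.ext (Subtype.ext h)
    · exact absurd h1.symm (hx.2 _ h hy.1).ne
  have h5 := Cardinal.mk_le_of_injective hg
  rw [hY2] at h5
  exact absurd hn (not_lt.2 h5)

end Pool.Agent.H93.CC
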