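import Mathlib

/-!
# Stationary many strong limit cardinals of countable cofinality below a singular strong limit (MP_026a7e_lc)

PROOF. Let `D` be a club of `X = κ.ord.ToType` (`#X = κ`, `cof X = κ.ord.cof > ℵ₀`). As `D` is cofinal and `2 ^ #(Iio i) < κ`
for `i : X` (`#(Iio i) < κ` by `mk_Iio_lt`), there is a strictly increasing sequence `i n` in `D` with
`2 ^ #(Iio (i n)) < #(Iio (i (n+1)))` (for `c < κ` there is `x : X` with `c < #(Iio x)`, e.g. since `κ` is a limit cardinal: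
`#(Iio x)` for `x` the `(succ c).ord`-th element; all larger `y` have it too) and `ℵ₀ < #(Iio (i 0))`. It is bounded
(`cof X > ℵ₀`), let `i` be its supremum, `i ∈ D`. `Iio i` is the union of the `Iio (i n)`, so `l = #(Iio i) ≤ ℵ₀ * sup = sup n #(Iio (i n))`,
so every `c < l` is `< #(Iio (i n))` for some `n`, `2 ^ c ≤ 2 ^ #(Iio (i n)) < #(Iio (i (n+1))) ≤ l`: strong limit, and the cofinality
of `l.ord` is `ℵ₀` since `l` is the supremum of the strictly increasing sequence of the `#(Iio (i n))`.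
-/

set_option autoImplicit false

open Cardinal Ordinal Order Set

namespace Pool.Agent.H93.CC

theorem stat_strong {κ : Cardinal.{0}} (hκ : κ.IsStrongLimit) (hcof : ℵ₀ < κ.ord.cof) :
    IsStationary {i : κ.ord.ToType | (#(Iio i)).IsStrongLimit ∧ ℵ₀ < #(Iio i) ∧ (#(Iio i)).ord.cof = ℵ₀} := by
  intro D hD
  have hκ0 : ℵ₀ < κ := hcof.trans_le (Ordinal.cof_ord_le κ)
  have hcX : ℵ₀ < Order.cof κ.ord.ToType := by
    rw [Ordinal.cof_toType]
    exact hcof
  -- large initial segments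
  have hlarge : ∀ c : Cardinal.{0}, c < κ → ∃ x : κ.ord.ToType, ∀ y, x ≤ y → c < #(Iio y) := by
    intro c hc
    have h1 : succ c < κ :=
      lt_of_le_of_lt (Order.succ_le_of_lt (Cardinal.cantor c)) (hκ.isStrongPrelimit hc)
    have h2 : (succ c).ord < κ.ord := Cardinal.ord_lt_ord.2 h1
    obtain ⟨x, hx⟩ : ∃ x : κ.ord.ToType, x = Ordinal.ToType.mk ⟨(succ c).ord, h2⟩ := ⟨_, rfl⟩
    have h3 : Ordinal.typein (α := κ.ord.ToType) (· < ·) x = (succ c).ord := by
      rw [hx]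
      exact Ordinal.typein_enum _ _
    refine ⟨x, fun y hy => ?_⟩
    have h4 : #(Iio x) = succ c := by
      have h5 := Ordinal.card_typein (r := ((· < ·) : κ.ord.ToType → κ.ord.ToType → Prop)) x
      rw [h3, Cardinal.card_ord] at h5
      exact h5.symm
    calc c < succ c := Order.lt_succ c
      _ = #(Iio x) := h4.symm
      _ ≤ #(Iio y) := Cardinal.mk_le_mk_of_subset (Iio_subset_Iio hy)
  -- the step
  have hstep : ∀ c : Cardinal.{0}, c < κ → ∃ d ∈ D, c < #(Iio d) := by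
    intro c hc
    obtain ⟨x, hx⟩ := hlarge c hc
    obtain ⟨d, hd, hxd⟩ := hD.isCofinal x
    exact ⟨d, hd, hx d hxd⟩
  obtain ⟨d₀, hd₀, hd₀'⟩ := hstep ℵ₀ hκ0
  have hstep2 : ∀ x : κ.ord.ToType, ∃ d ∈ D, 2 ^ #(Iio x) < #(Iio d) := fun x =>
    hstep _ (hκ.isStrongPrelimit (by simpa using mk_Iio_lt x))
  choose f hfD hf using hstep2
  obtain ⟨i, hi0, hi1⟩ : ∃ i : ℕ → κ.ord.ToType, i 0 = d₀ ∧ ∀ n, i (n + 1) = f (i n) :=
    ⟨fun n => Nat.rec d₀ (fun _ x => f x) n, rfl, fun _ => rfl⟩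
  have hiD : ∀ n, i n ∈ D := by
    intro n
    cases n with
    | zero => rw [hi0]; exact hd₀
    | succ n => rw [hi1]; exact hfD _
  have hpow : ∀ n, 2 ^ #(Iio (i n)) < #(Iio (i (n + 1))) := by
    intro n
    rw [hi1]
    exact hf _
  have hmono : StrictMono (fun n => #(Iio (i n))) :=
    strictMono_nat_of_lt_succ fun n => (Cardinal.cantor _).trans (hpow n)
  -- the supremum
  have hbdd : BddAbove (range i) := by
    refine .of_not_isCofinal fun h => (Order.cof_le h).not_gt (hcX.trans_le' ?_)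
    simpa using mk_range_le_lift (f := i)
  obtain ⟨s, hs⟩ : ∃ s, IsLUB (range i) s :=
    ⟨WellFounded.min wellFounded_lt (upperBounds (range i)) hbdd,
      WellFounded.min_mem wellFounded_lt _ hbdd,
      fun y hy => not_lt.1 (WellFounded.not_lt_min wellFounded_lt _ hy)⟩
  have hsD : s ∈ D := hD.isLUB_mem (by rintro _ ⟨n, rfl⟩; exact hiD n) (range_nonempty _) hs
  have hU : Iio s = ⋃ n, Iio (i n) := by
    ext x
    rw [mem_iUnion]
    constructor
    · intro hx
      obtain ⟨_, ⟨n, rfl⟩, hn⟩ := (lt_isLUB_iff hs).1 hx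
      exact ⟨n, hn⟩
    · rintro ⟨n, hn⟩
      exact lt_of_lt_of_le hn (hs.1 ⟨n, rfl⟩)
  have hle : ∀ n, #(Iio (i n)) ≤ #(Iio s) := fun n =>
    Cardinal.mk_le_mk_of_subset (Iio_subset_Iio (hs.1 ⟨n, rfl⟩))
  have hb : BddAbove (range fun n => #(Iio (i n))) := Cardinal.bddAbove_of_small
  have h0 : ℵ₀ < #(Iio (i 0)) := by rw [hi0]; exact hd₀'
  have hℵ : ℵ₀ < #(Iio s) := h0.trans_le (hle 0)
  have hsup : #(Iio s) = ⨆ n, #(Iio (i n)) := by
    apply le_antisymm
    · rw [hU]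
      refine (Cardinal.mk_iUnion_le _).trans ?_
      rw [Cardinal.mk_nat]
      exact (Cardinal.aleph0_mul_eq (h0.le.trans (le_ciSup hb 0))).le
    · exact ciSup_le' hle
  refine ⟨s, ⟨⟨(Cardinal.aleph0_pos.trans hℵ).ne', ?_⟩, hℵ, ?_⟩, hsD⟩
  · intro c hc
    rw [hsup] at hc
    obtain ⟨n, hn⟩ := exists_lt_of_lt_ciSup' hc
    calc (2 : Cardinal) ^ c ≤ 2 ^ #(Iio (i n)) := Cardinal.power_le_power_left two_ne_zero hn.le
      _ < #(Iio (i (n + 1))) := hpow n
      _ ≤ #(Iio s) := hle (n + 1)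
  · rw [hsup, iSup_ord, Ordinal.cof_iSup (fun a b h => Cardinal.ord_lt_ord.2 (hmono h))]
    exact Order.cof_nat

end Pool.Agent.H93.CC
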