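import Pool.Agent.H93.CC.CovAll

/-!
# The strong form of an instance of Chang's Conjecture
-/

set_option autoImplicit false

open Cardinal Ordinal Order Set
open FirstOrder.Language.Structure (RelMap funMap)

namespace Pool.Agent.H93.CC

/-- The strong form of the instance `(κ, l) ↠ (μ, ν)`: for every first-order structure `M` of cardinality `κ` in a language
with at most `ν` symbols, with a unary predicate `p` whose interpretation has cardinality `l`, and every subset `Z` of `M` of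
cardinality at most `ν` there is an elementary substructure `B` of cardinality `μ` which contains `Z`, such that the
interpretation of `p` in `B` has cardinality `ν`. -/
def StrongChang (κ l μ ν : Cardinal.{0}) : Prop :=
  ∀ (L : FirstOrder.Language.{0, 0}) (p : L.Relations 1) (M : Type) [L.Structure M], L.card ≤ ν → #M = κ →
    #{x : M | RelMap p ![x]} = l → ∀ Z : Set M, #Z ≤ ν →
      ∃ B : L.ElementarySubstructure M, Z ⊆ (B : Set M) ∧ #B = μ ∧ #{x : M | x ∈ B ∧ RelMap p ![x]} = ν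

/-- relation symbols: one unary one -/
inductive VRel : ℕ → Type
  | p : VRel 1

/-- the language with countably many function symbols of each arity and one unary relation symbol -/
def LV : FirstOrder.Language.{0, 0} := ⟨fun _ => ℕ, VRel⟩

theorem LV_card : LV.card ≤ ℵ₀ := by
  have h1 : Countable ((Σ l, LV.Functions l) ⊕ (Σ l, LV.Relations l)) := by
    let g : ((Σ l, LV.Functions l) ⊕ (Σ l, LV.Relations l)) → Option (ℕ × ℕ) := fun x =>
      match x with
      | Sum.inl ⟨l, n⟩ => some (l, (n : ℕ))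
      | Sum.inr ⟨_, VRel.p⟩ => none
    have hg : Function.Injective g := by
      rintro (⟨l, n⟩ | ⟨_, ⟨⟩⟩) (⟨l', m⟩ | ⟨_, ⟨⟩⟩) h
      · have h2 : (l, (n : ℕ)) = (l', (m : ℕ)) := Option.some.inj h
        have h3 : l = l' := congrArg Prod.fst h2
        subst h3
        have h4 : (n : ℕ) = (m : ℕ) := congrArg Prod.snd h2
        exact congrArg (fun z : ℕ => (Sum.inl ⟨l, z⟩ : (Σ l, LV.Functions l) ⊕ (Σ l, LV.Relations l))) h4
      · simp [g] at h
      · simp [g] at h
      · rfl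
    exact hg.countable
  exact Cardinal.mk_le_aleph0_iff.2 h1

/-- the structure given by functions of all arities and a set -/
def LVstr {M : Type} (G : ∀ k : ℕ, ℕ → (Fin k → M) → M) (P : Set M) : LV.Structure M where
  funMap := fun {k} (s : ℕ) x => G k s x
  RelMap := fun {k} s =>
    match k, s with
    | _, VRel.p => fun x => x 0 ∈ P

theorem chang_fun2 {κ l μ ν : Cardinal.{0}} (h : Chang κ l μ ν) {M : Type} (hM : #M = κ) (P : Set M) (hP : #P = l)
    (G : ∀ k : ℕ, ℕ → (Fin k → M) → M) : ∃ B : Set M, #B = μ ∧ #↥(B ∩ P) = ν ∧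
      ∀ k n (x : Fin k → M), (∀ i, x i ∈ B) → G k n x ∈ B := by
  letI := LVstr G P
  have hrel : ∀ x : M, RelMap (L := LV) (M := M) (VRel.p : LV.Relations 1) ![x] ↔ x ∈ P := fun x => Iff.rfl
  have hset : {x : M | RelMap (L := LV) (M := M) (VRel.p : LV.Relations 1) ![x]} = P := by
    ext x
    exact hrel x
  obtain ⟨B, hB1, hB2⟩ := h LV VRel.p M LV_card hM (by rw [hset]; exact hP)
  refine ⟨(B : Set M), hB1, ?_, ?_⟩
  · rw [← hB2]
    have : ((B : Set M) ∩ P) = {x : M | x ∈ B ∧ RelMap (L := LV) (M := M) (VRel.p : LV.Relations 1) ![x]} := by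
      ext x
      rfl
    rw [this]
  · intro k n x hx
    exact B.toSubstructure.fun_mem (n : LV.Functions k) x hx

theorem term_split {L : FirstOrder.Language.{0, 0}} {M : Type} [L.Structure M] (Y Z : Set M) (y₀ : M) (hy₀ : y₀ ∈ Y)
    (t : L.Term ↥(Y ∪ Z)) : ∃ (k : ℕ) (y : Fin k → M), (∀ i, y i ∈ Y) ∧
      ∃ s : L.Term (Fin k ⊕ Z), s.realize (Sum.elim y Subtype.val) = t.realize (Subtype.val : ↥(Y ∪ Z) → M) := by
  classical
  let e : t.varFinset ≃ Fin t.varFinset.card := t.varFinset.equivFin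
  refine ⟨t.varFinset.card, fun i => if ((e.symm i : ↥(Y ∪ Z)) : M) ∈ Z then y₀ else ((e.symm i : ↥(Y ∪ Z)) : M),
    fun i => ?_, ?_⟩
  · beta_reduce
    split_ifs with h
    · exact hy₀
    · exact ((e.symm i : ↥(Y ∪ Z)).2).resolve_right h
  · let f : t.varFinset → Fin t.varFinset.card ⊕ Z := fun a =>
      if h : ((a : ↥(Y ∪ Z)) : M) ∈ Z then Sum.inr ⟨_, h⟩ else Sum.inl (e a)
    refine ⟨t.restrictVar f, ?_⟩
    apply FirstOrder.Language.Term.realize_restrictVar
    intro a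
    by_cases h : ((a : ↥(Y ∪ Z)) : M) ∈ Z
    · simp only [f, dif_pos h, Sum.elim_inr]
    · simp only [f, dif_neg h, Sum.elim_inl, Equiv.symm_apply_apply, if_neg h]

theorem strong_of_cov {μ ν : Cardinal.{0}} (hν : ℵ₀ ≤ ν) (hνμ : ν < μ) (hcof : μ.ord.cof = ℵ₀)
    (hCh : Chang (succ μ) μ (succ ν) ν) (hcov : ∀ l < μ, ∀ X : Type, #X = l → Cofam ν X μ) :
    StrongChang (succ μ) μ (succ ν) ν := by
  classical
  intro L p M _ hL hM hp Z hZ
  have hμ : ℵ₀ ≤ μ := hν.trans hνμ.le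
  have hMne : Nonempty M := by
    rw [← Cardinal.mk_ne_zero_iff, hM]
    exact Order.succ_ne_bot _
  let P : Set M := {x : M | RelMap p ![x]}
  have hP : #P = μ := hp
  obtain ⟨Kn, -, hKn, hKU⟩ := exists_filtration hμ hcof
  obtain ⟨eP⟩ : Nonempty (P ≃ μ.ord.ToType) := Cardinal.eq.1 (by rw [hP, Cardinal.mk_ord_toType])
  let Pn : ℕ → Set P := fun n => eP ⁻¹' Kn n
  have hPn : ∀ n, #(Pn n) < μ := by
    intro n
    have h1 : #(eP ⁻¹' Kn n) = #(Kn n) := Cardinal.mk_preimage_equiv eP (Kn n)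
    exact h1.trans_lt (hKn n)
  have hPU : ∀ x : P, ∃ n, x ∈ Pn n := fun x => hKU (eP x)
  have hD : ∀ n, ∃ D : P → Set P, (∀ q, #(D q) ≤ ν) ∧ ∀ x : Set P, #x ≤ ν → ∃ q, x ∩ Pn n ⊆ D q := by
    intro n
    obtain ⟨ι, W, h1, h2, h3⟩ := hcov _ (hPn n) (Pn n) rfl
    obtain ⟨j₀, -⟩ := h3 ∅ (by simp)
    have : Nonempty ι := ⟨j₀⟩
    have h5 : Nonempty (ι ↪ P) := by
      have h6 : #ι ≤ #P := by rw [hP]; exact h1
      exact h6
    refine ⟨fun q => Subtype.val '' (W (Function.invFun h5.some q)), fun q => Cardinal.mk_image_le.trans (h2 _),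
      fun x hx => ?_⟩
    obtain ⟨j, hj⟩ := h3 (Subtype.val ⁻¹' x)
      ((Cardinal.mk_preimage_of_injective _ _ Subtype.val_injective).trans hx)
    refine ⟨h5.some j, ?_⟩
    rintro y ⟨hy, hyn⟩
    have h6 : Function.invFun h5.some (h5.some j) = j := Function.leftInverse_invFun h5.some.injective j
    refine ⟨⟨y, hyn⟩, ?_, rfl⟩
    rw [h6]
    exact hj hy
  choose D hD1 hD2 using hD
  let L₁ := L.sum L.skolem₁
  have hF : #(Σ i, L₁.Functions i) ≤ ν :=
    FirstOrder.Language.card_functions_sum_skolem₁_le.trans (max_le hν hL)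
  have hT : ∀ k : ℕ, #(L₁.Term (Fin k ⊕ Z)) ≤ ν := by
    intro k
    refine FirstOrder.Language.Term.card_le.trans (max_le hν ?_)
    have h1 : #((Fin k ⊕ Z) ⊕ (Σ i, L₁.Functions i)) = #(Fin k) + #Z + #(Σ i, L₁.Functions i) := by
      simp only [Cardinal.mk_sum, Cardinal.lift_id, Cardinal.lift_uzero]
    rw [h1]
    have h2 : #(Fin k) ≤ ν := Cardinal.mk_le_aleph0.trans hν
    exact Cardinal.add_le_of_le hν (Cardinal.add_le_of_le hν h2 hZ) hF
  let V : ∀ k : ℕ, (Fin k → M) → Set P := fun k y =>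
    {x | ∃ t : L₁.Term (Fin k ⊕ Z), t.realize (Sum.elim y Subtype.val) = (x : M)}
  have hV : ∀ k y, #(V k y) ≤ ν := by
    intro k y
    let g : V k y → L₁.Term (Fin k ⊕ Z) := fun x => x.2.choose
    have hg : Function.Injective g := by
      intro a b hab
      have ha := a.2.choose_spec
      have hb := b.2.choose_spec
      have h1 : a.2.choose = b.2.choose := hab
      rw [h1] at ha
      exact Subtype.ext (Subtype.ext (ha.symm.trans hb))
    exact (Cardinal.mk_le_of_injective hg).trans (hT k)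
  have hG : ∀ (k n : ℕ) (y : Fin k → M), ∃ q : P, V k y ∩ Pn n ⊆ D n q := fun k n y => hD2 n _ (hV k y)
  choose G hG using hG
  obtain ⟨Y, hY1, hY2, hY3⟩ := chang_fun2 hCh hM P hP (fun k n y => (G k n y : M))
  have hYne : Y.Nonempty := by
    rw [Set.nonempty_iff_ne_empty]
    intro h
    rw [h, Cardinal.mk_eq_zero] at hY1
    exact (Order.succ_ne_bot ν) hY1.symm
  obtain ⟨y₀, hy₀⟩ := hYne
  let C : L₁.Substructure M := FirstOrder.Language.Substructure.closure L₁ (Y ∪ Z)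
  have hsub : Y ∪ Z ⊆ (C : Set M) := FirstOrder.Language.Substructure.subset_closure
  have hmemB : ∀ x : M, x ∈ C.elementarySkolem₁Reduct ↔ x ∈ C := fun x => Iff.rfl
  refine ⟨C.elementarySkolem₁Reduct, fun x hx => hsub (Or.inr hx), ?_, ?_⟩
  · have h0 : #(C.elementarySkolem₁Reduct) = #C := rfl
    rw [h0]
    apply le_antisymm
    · have h1 := FirstOrder.Language.Substructure.lift_card_closure_le (L := L₁) (s := Y ∪ Z) (M := M)
      simp only [Cardinal.lift_id, Cardinal.lift_uzero] at h1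
      refine h1.trans (max_le (hν.trans (le_succ ν)) ?_)
      have h2 : #↥(Y ∪ Z) ≤ succ ν := (Cardinal.mk_union_le Y Z).trans
        (Cardinal.add_le_of_le (hν.trans (le_succ ν)) hY1.le (hZ.trans (le_succ ν)))
      exact Cardinal.add_le_of_le (hν.trans (le_succ ν)) h2 (hF.trans (le_succ ν))
    · rw [← hY1]
      exact Cardinal.mk_le_mk_of_subset (subset_union_left.trans hsub)
  · apply le_antisymm
    · have h1 : {x : M | x ∈ C.elementarySkolem₁Reduct ∧ RelMap p ![x]} ⊆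
          ⋃ i : ℕ × ↥(Y ∩ P), Subtype.val '' D i.1 ⟨i.2, i.2.2.2⟩ := by
        rintro x ⟨hxC, hxP⟩
        obtain ⟨t, ht⟩ := FirstOrder.Language.Substructure.mem_closure_iff_exists_term.1 ((hmemB x).1 hxC)
        obtain ⟨k, y, hy, s, hs⟩ := term_split Y Z y₀ hy₀ t
        have h2 : (⟨x, hxP⟩ : P) ∈ V k y := ⟨s, hs.trans ht⟩
        obtain ⟨n, hn⟩ := hPU ⟨x, hxP⟩
        have h3 := hG k n y ⟨h2, hn⟩
        have h4 : (G k n y : M) ∈ Y ∩ P := ⟨hY3 k n y hy, (G k n y).2⟩
        exact Set.mem_iUnion.2 ⟨(n, ⟨(G k n y : M), h4⟩), ⟨x, hxP⟩, h3, rfl⟩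
      refine (Cardinal.mk_le_mk_of_subset h1).trans ((Cardinal.mk_iUnion_le_sum_mk).trans ?_)
      refine (Cardinal.sum_le_sum _ (fun _ => ν) fun i => Cardinal.mk_image_le.trans (hD1 _ _)).trans ?_
      rw [Cardinal.sum_const']
      have h2 : #(ℕ × ↥(Y ∩ P)) ≤ ν := by
        rw [Cardinal.mk_prod, Cardinal.lift_id, Cardinal.lift_id, Cardinal.mk_nat, hY2]
        exact (mul_le_mul' hν le_rfl).trans (Cardinal.mul_eq_self hν).le
      exact (mul_le_mul' h2 le_rfl).trans (Cardinal.mul_eq_self hν).le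
    · rw [← hY2]
      exact Cardinal.mk_le_mk_of_subset fun x hx => ⟨hsub (Or.inl hx.1), hx.2⟩

theorem strong_of_each (h : OneEach) {μ ν : Cardinal.{0}} (hν : ℵ₀ ≤ ν) (hνμ : ν < μ) (hcof : μ.ord.cof = ℵ₀)
    (hCh : Chang (succ μ) μ (succ ν) ν) : StrongChang (succ μ) μ (succ ν) ν := by
  refine strong_of_cov hν hνμ hcof hCh fun l hl X hX => ?_
  refine cofam_mono (cov_all h hν l X hX) ?_
  split_ifs
  · exact (Cardinal.one_le_aleph0.trans hν).trans hνμ.le
  · exact Order.succ_le_of_lt hl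
  · exact hl.le

/-- The strong form of `S`. -/
def GlobalStrong : Prop :=
  ∀ ν μ : Cardinal.{0}, ℵ₀ ≤ ν → ν < μ → ν.ord.cof = ℵ₀ → μ.ord.cof = ℵ₀ → StrongChang (succ μ) μ (succ ν) ν

theorem chang_of_strong {κ l μ ν : Cardinal.{0}} (hν : ℵ₀ ≤ ν) (h : StrongChang κ l μ ν) : Chang κ l μ ν := by
  intro L p M _ hL hM hp
  obtain ⟨B, -, h1, h2⟩ := h L p M (hL.trans hν) hM hp ∅ (by simp)
  exact ⟨B, h1, h2⟩

theorem global_strong : GlobalChang ↔ GlobalStrong :=
  ⟨fun h ν μ hν hνμ h1 h2 => strong_of_each (one_each h) hν hνμ h2 (h ν μ hν hνμ h1 h2),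
    fun h ν μ hν hνμ h1 h2 => chang_of_strong hν (h ν μ hν hνμ h1 h2)⟩

end Pool.Agent.H93.CC
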