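import Pool.Agent.H93.CC.Cor

/-!
# The targets of instances with a source of countable cofinality
-/

set_option autoImplicit false

open Cardinal Ordinal Order Set

namespace Pool.Agent.H93.CC

theorem target {μ ν : Cardinal.{0}} (hν : ℵ₀ ≤ ν) (hνμ : ν < μ) (hcof : μ.ord.cof = ℵ₀)
    (hCh : Chang (succ μ) μ (succ ν) ν) : ν < ν ^ (ℵ₀ : Cardinal.{0}) := by
  classical
  have hμ : ℵ₀ ≤ μ := hν.trans hνμ.le
  let K := μ.ord.ToType
  let I := (succ μ).ord.ToType
  have hK : #K = μ := Cardinal.mk_ord_toType μ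
  have hI : #I = succ μ := Cardinal.mk_ord_toType (succ μ)
  have hj : Nonempty (I ↪ (ℕ → K)) := by
    have h1 : #(ℕ → K) = #K ^ (ℵ₀ : Cardinal.{0}) := by simp
    have h2 : #I ≤ #(ℕ → K) := by
      rw [h1, hI, hK]
      have h3 : μ < μ ^ μ.ord.cof := Cardinal.lt_power_cof_ord hμ
      rw [hcof] at h3
      exact Order.succ_le_of_lt h3
    exact h2
  obtain ⟨P, hP⟩ : ∃ P : Set I, #P = μ := Cardinal.le_mk_iff_exists_set.1 (by rw [hI]; exact le_succ μ)
  have hcode : Nonempty (K ↪ P) := by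
    have : #K ≤ #P := by rw [hP, hK]
    exact this
  let F : ℕ → I → I := fun n α => (hcode.some (hj.some α n) : I)
  obtain ⟨Y, hY1, hY2, hY3⟩ := chang_fun hCh hI P hP F
  let g : Y → ℕ → ↥(Y ∩ P) := fun α n => ⟨F n α, hY3 _ _ α.2, (hcode.some (hj.some α n)).2⟩
  have hg : Function.Injective g := by
    intro x y hxy
    apply Subtype.ext
    apply hj.some.injective
    funext n
    have h1 : (hcode.some (hj.some x n) : I) = (hcode.some (hj.some y n) : I) :=
      congrArg (fun z : ↥(Y ∩ P) => (z : I)) (congrFun hxy n)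
    exact hcode.some.injective (Subtype.ext h1)
  have h5 := Cardinal.mk_le_of_injective hg
  have h6 : #(ℕ → ↥(Y ∩ P)) = #↥(Y ∩ P) ^ (ℵ₀ : Cardinal.{0}) := by simp
  rw [hY1, h6, hY2] at h5
  exact Order.succ_le_iff.1 h5

theorem target_iff (h : GlobalChang) {μ ν : Cardinal.{0}} (hν : 2 ^ (ℵ₀ : Cardinal.{0}) ≤ ν) (hνμ : ν < μ)
    (hcof : μ.ord.cof = ℵ₀) : Chang (succ μ) μ (succ ν) ν ↔ ν.ord.cof = ℵ₀ := by
  have hν' : ℵ₀ ≤ ν := (Cardinal.cantor ℵ₀).le.trans hν
  constructor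
  · intro hCh
    by_contra hc
    have h1 := target hν' hνμ hcof hCh
    have h2 : ℵ₀ ≤ ν.ord.cof :=
      Ordinal.aleph0_le_cof_iff.2 (Ordinal.one_lt_cof_iff.2 (Cardinal.isSuccLimit_ord hν'))
    rw [pow_exact (one_each h) hν' le_rfl, if_neg (fun h3 => hc (le_antisymm h3 h2)), max_eq_right hν] at h1
    exact absurd h1 (lt_irrefl _)
  · intro hc
    exact h ν μ hν' hνμ hc hcof

end Pool.Agent.H93.CC
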