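import Pool.Agent.H93.CC.ProdF

/-!
# One instance of Chang's Conjecture: every ultraproduct of regular cardinals with limit `μ` has cofinality `μ⁺`
-/

set_option autoImplicit false

open Cardinal Ordinal Order Set Filter

namespace Pool.Agent.H93.CC

theorem prod_bddF {μ : Cardinal.{0}} (hμ : ℵ₀ ≤ μ) (hcof : μ.ord.cof = ℵ₀) (lam : ℕ → Cardinal.{0})
    (hreg : ∀ n, (lam n).IsRegular) (hlt : ∀ n, lam n < μ) (𝓕 : Filter ℕ) (hlim : ∀ c < μ, ∀ᶠ n in 𝓕, c < lam n)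
    {ι : Type} (hι : #ι ≤ μ) (F : ι → ∀ n, (lam n).ord.ToType) :
    ∃ g : ∀ n, (lam n).ord.ToType, ∀ i, ∀ᶠ n in 𝓕, F i n < g n := by
  classical
  obtain ⟨Kn, -, hKn, hKU⟩ := exists_filtration hμ hcof
  have hK : #μ.ord.ToType = μ := Cardinal.mk_ord_toType μ
  have he : Nonempty (ι ↪ μ.ord.ToType) := by
    have : #ι ≤ #μ.ord.ToType := by rw [hK]; exact hι
    exact this
  let L : ℕ → Set μ.ord.ToType := fun n => {x | ∃ j, j ≤ n ∧ x ∈ Kn j ∧ #(Kn j) < lam n}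
  have hL : ∀ n, #(L n) < lam n := fun n => union_small (hreg n).aleph0_le Kn n
  have hLU : ∀ x : μ.ord.ToType, ∀ᶠ n in 𝓕, x ∈ L n := by
    intro x
    obtain ⟨j, hj⟩ := hKU x
    filter_upwards [hlim _ (hKn j), (le_atTop hlt hlim) (eventually_ge_atTop j)] with n h1 h2
    exact ⟨j, h2, hj, h1⟩
  have hub : ∀ n : ℕ, ∃ b : (lam n).ord.ToType, ∀ i, he.some i ∈ L n → F i n < b := by
    intro n
    by_contra! hb
    let s : Set (lam n).ord.ToType := {y | ∃ i, he.some i ∈ L n ∧ y = F i n}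
    have h1 : IsCofinal s := by
      intro b
      obtain ⟨i, hi, hle⟩ := hb b
      exact ⟨F i n, ⟨i, hi, rfl⟩, hle⟩
    have h2 := Order.cof_le h1
    rw [Ordinal.cof_toType, (hreg n).cof_ord] at h2
    let g : s → L n := fun y => ⟨he.some y.2.choose, y.2.choose_spec.1⟩
    have hg : Function.Injective g := by
      intro x y hxy
      have h3 : x.2.choose = y.2.choose := he.some.injective (congrArg Subtype.val hxy)
      apply Subtype.ext
      rw [x.2.choose_spec.2, y.2.choose_spec.2, h3]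
    exact absurd ((Cardinal.mk_le_of_injective hg).trans_lt (hL n)) (not_lt.2 h2)
  choose g hg using hub
  exact ⟨g, fun i => (hLU (he.some i)).mono fun n hn => hg n i hn⟩

/-- `θ` is the true cofinality of the product of the `lam n` modulo the filter `𝓕`: `θ` is a regular cardinal and there
is a sequence of length `θ` of functions in the product which is strictly increasing and cofinal modulo `𝓕`. -/
def IsTcf (𝓕 : Filter ℕ) (lam : ℕ → Cardinal.{0}) (θ : Cardinal.{0}) : Prop :=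
  θ.IsRegular ∧ ∃ f : θ.ord.ToType → ∀ n, (lam n).ord.ToType,
    (∀ i j, i < j → ∀ᶠ n in 𝓕, f i n < f j n) ∧ ∀ g : ∀ n, (lam n).ord.ToType, ∃ i, ∀ᶠ n in 𝓕, g n < f i n

theorem tcf_le {𝓕 : Filter ℕ} [NeBot 𝓕] {lam : ℕ → Cardinal.{0}} {θ θ' : Cardinal.{0}} (h : IsTcf 𝓕 lam θ)
    (h' : IsTcf 𝓕 lam θ') : θ' ≤ θ := by
  by_contra hlt
  have hlt : θ < θ' := not_le.1 hlt
  obtain ⟨-, f, hf1, hf2⟩ := h
  obtain ⟨hr, f', hf1', hf2'⟩ := h'
  choose j hj using fun i => hf2' (f i)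
  have hb : ∃ b, ∀ i, j i < b := by
    by_contra! hb
    have h1 : IsCofinal (Set.range j) := by
      intro b
      obtain ⟨i, hi⟩ := hb b
      exact ⟨j i, ⟨i, rfl⟩, hi⟩
    have h2 := Order.cof_le h1
    rw [Ordinal.cof_toType, hr.cof_ord] at h2
    have h3 : #(Set.range j) ≤ #θ.ord.ToType := Cardinal.mk_range_le
    rw [Cardinal.mk_ord_toType] at h3
    exact absurd hlt (not_lt.2 (h2.trans h3))
  obtain ⟨b, hb⟩ := hb
  obtain ⟨i, hi⟩ := hf2 (f' b)
  obtain ⟨n, h1, h2, h3⟩ := (hi.and ((hj i).and (hf1' _ _ (hb i)))).exists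
  exact lt_irrefl _ (h1.trans (h2.trans h3))

theorem tcf_unique {𝓕 : Filter ℕ} [NeBot 𝓕] {lam : ℕ → Cardinal.{0}} {θ θ' : Cardinal.{0}} (h : IsTcf 𝓕 lam θ)
    (h' : IsTcf 𝓕 lam θ') : θ = θ' :=
  le_antisymm (tcf_le h' h) (tcf_le h h')

theorem tcf_succ {μ ν : Cardinal.{0}} (hν : ℵ₀ ≤ ν) (hνμ : ν < μ) (hcof : μ.ord.cof = ℵ₀)
    (hCh : Chang (succ μ) μ (succ ν) ν) (lam : ℕ → Cardinal.{0}) (hreg : ∀ n, (lam n).IsRegular)
    (hlt : ∀ n, lam n < μ) (D : Ultrafilter ℕ) (hlim : ∀ c < μ, ∀ᶠ n in (D : Filter ℕ), c < lam n) :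
    IsTcf D lam (succ μ) := by
  classical
  have hμ : ℵ₀ ≤ μ := hν.trans hνμ.le
  obtain ⟨F, hF⟩ := prod_unbddF hν hνμ hcof hCh lam hreg hlt D hlim
  let I := (succ μ).ord.ToType
  have hI : #I = succ μ := Cardinal.mk_ord_toType (succ μ)
  have hsm : ∀ β : I, #(Option (Iio β)) ≤ μ := by
    intro β
    have h1 : #(Iio β) < #I := mk_Iio_lt β (by rw [hI]; exact (Ordinal.type_toType _).symm)
    rw [hI] at h1
    rw [Cardinal.mk_option]
    exact Cardinal.add_le_of_le hμ (Order.lt_succ_iff.1 h1) (Cardinal.one_le_aleph0.trans hμ)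
  have hstep : ∀ (α : I) (ih : (γ : I) → γ < α → ∀ n, (lam n).ord.ToType), ∃ g : ∀ n, (lam n).ord.ToType,
      (∀ᶠ n in (D : Filter ℕ), F α n < g n) ∧ ∀ γ (h : γ < α), ∀ᶠ n in (D : Filter ℕ), ih γ h n < g n := by
    intro α ih
    obtain ⟨g, hg⟩ := prod_bddF hμ hcof lam hreg hlt D hlim (hsm α)
      (fun o : Option (Iio α) => match o with
        | none => F α
        | some γ => ih γ.1 γ.2)
    exact ⟨g, hg none, fun γ h => hg (some ⟨γ, h⟩)⟩
  let f : I → ∀ n, (lam n).ord.ToType := (wellFounded_lt (α := I)).fix (fun α ih => (hstep α ih).choose)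
  have hf : ∀ α, (∀ᶠ n in (D : Filter ℕ), F α n < f α n) ∧ ∀ γ < α, ∀ᶠ n in (D : Filter ℕ), f γ n < f α n := by
    intro α
    have h1 := (hstep α (fun γ _ => f γ)).choose_spec
    have h2 : f α = (hstep α (fun γ _ => f γ)).choose := WellFounded.fix_eq _ _ _
    rw [h2]
    exact h1
  refine ⟨isRegular_succ hμ, f, fun i j hij => (hf j).2 i hij, fun g => ?_⟩
  obtain ⟨α, hα⟩ := hF g
  refine ⟨α, ?_⟩
  filter_upwards [Ultrafilter.frequently_iff_eventually.1 hα, (hf α).1] with n h1 h2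
  exact h1.trans h2

theorem tcf_iff {μ ν : Cardinal.{0}} (hν : ℵ₀ ≤ ν) (hνμ : ν < μ) (hcof : μ.ord.cof = ℵ₀)
    (hCh : Chang (succ μ) μ (succ ν) ν) (lam : ℕ → Cardinal.{0}) (hreg : ∀ n, (lam n).IsRegular)
    (hlt : ∀ n, lam n < μ) (D : Ultrafilter ℕ) (hlim : ∀ c < μ, ∀ᶠ n in (D : Filter ℕ), c < lam n)
    (θ : Cardinal.{0}) : IsTcf D lam θ ↔ θ = succ μ := by
  constructor
  · intro h
    exact tcf_unique h (tcf_succ hν hνμ hcof hCh lam hreg hlt D hlim)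
  · rintro rfl
    exact tcf_succ hν hνμ hcof hCh lam hreg hlt D hlim

end Pool.Agent.H93.CC
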